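import Pool.Agent.L5helper2.TW.Defs
import Pool.Agent.W586.GA.Celle
import Pool.Agent.H970R2.X.Cell

/-! Project TW (helper2): the averaged cell bound (port of W571/GS/Celle). -/

set_option autoImplicit false

namespace Pool.Agent.L5helper2.TW

open Finset Filter Pool.Agent.H376R2.MR
open Pool.Agent.W78.GR hiding PE S_CELLE
open Pool.Agent.W586.GA (sum_inv_le)

variable {t c : ℤ} {η : (Qd t c)ˣ} {G : Qd t c → ℤ}

/-- `1 - cos 2x ≤ 4 (1 - |cos x|)` -/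
lemma cos_two_ge (x : ℝ) : 1 - Real.cos (2 * x) ≤ 4 * (1 - |Real.cos x|) := by
  rw [Real.cos_two_mul]
  have h1 : |Real.cos x| ≤ 1 := Real.abs_cos_le_one x
  have h2 : Real.cos x ^ 2 = |Real.cos x| ^ 2 := (sq_abs _).symm
  rw [h2]
  nlinarith [abs_nonneg (Real.cos x)]

/-- one cell -/
lemma cell_le (hg : Tc η G) (C : ℝ) (R H v : ℕ) (M : ℕ → Prop) (ϖ : ℕ → Qd t c)
    (hR1 : 1 ≤ R) (k : ℤ)
    (hs : ∀ φ : ℝ, ∑ m ∈ cellM M H v, FR R (((2 * k : ℤ) : ℝ) * ang η (ϖ m) + φ) / (m : ℝ) ≤ C / v) :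
    ‖PEt η G M ϖ H v k‖ ≤
      (1 - 1 / (8 * (R : ℝ) ^ 2)) * mE M H v + C / (8 * (R : ℝ) ^ 3) * (1 / v) := by
  have hRpos : (0 : ℝ) < R := by exact_mod_cast hR1
  have hR1' : (1 : ℝ) ≤ R := by exact_mod_cast hR1
  have hm0 : 0 ≤ mE M H v := Finset.sum_nonneg fun _ _ => by positivity
  set PP0 : ℂ := ∑ m ∈ cellM M H v, (G (ϖ m) : ℂ) * ps η k (ϖ m) / (m : ℂ) with hP
  have hPE : ‖PEt η G M ϖ H v k‖ = ‖PP0‖ := by simp [PEt, hP]
  rw [hPE]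
  obtain ⟨φ, hφ⟩ : ∃ φ : ℝ, ‖PP0‖ ≤
      ∑ m ∈ cellM M H v, |Real.cos (k * ang η (ϖ m) + φ)| / (m : ℝ) := by
    refine ⟨-Complex.arg PP0, ?_⟩
    have h1 : (‖PP0‖ : ℂ) = PP0 * Complex.exp (-(Complex.arg PP0 : ℝ) * Complex.I) := by
      have h0 := Complex.norm_mul_exp_arg_mul_I PP0
      calc (‖PP0‖ : ℂ) = (‖PP0‖ : ℂ) * Complex.exp ((Complex.arg PP0 : ℝ) * Complex.I) *
            Complex.exp (-(Complex.arg PP0 : ℝ) * Complex.I) := by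
            rw [mul_assoc, ← Complex.exp_add]; simp
        _ = PP0 * Complex.exp (-(Complex.arg PP0 : ℝ) * Complex.I) := by rw [h0]
    have h2 : ‖PP0‖ = (PP0 * Complex.exp (-(Complex.arg PP0 : ℝ) * Complex.I)).re := by
      rw [← h1, Complex.ofReal_re]
    set A : ℝ := Complex.arg PP0 with hA
    rw [h2, hP]
    rw [Finset.sum_mul, Complex.re_sum]
    refine Finset.sum_le_sum fun m hm => ?_
    rw [ps, div_mul_eq_mul_div, mul_assoc, ← Complex.exp_add]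
    have h3 : ((k * ang η (ϖ m) : ℝ) : ℂ) * Complex.I + -(A : ℂ) * Complex.I =
        ((k * ang η (ϖ m) + -A : ℝ) : ℂ) * Complex.I := by
      push_cast; ring
    rw [h3, show ((m : ℕ) : ℂ) = (((m : ℕ) : ℝ) : ℂ) by push_cast; rfl, Complex.div_ofReal_re,
      show ((G (ϖ m) : ℤ) : ℂ) = (((G (ϖ m) : ℤ) : ℝ) : ℂ) by push_cast; rfl, Complex.re_ofReal_mul,
      Complex.exp_ofReal_mul_I_re]
    apply div_le_div_of_nonneg_right _ (Nat.cast_nonneg m)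
    refine (le_abs_self _).trans ?_
    rw [abs_mul]
    exact mul_le_of_le_one_left (abs_nonneg _) (hg.absR _)
  have hs' := hs (2 * φ)
  have hlow : R * mE M H v - 8 * (R : ℝ) ^ 3 * (mE M H v - ‖PP0‖) ≤
      ∑ m ∈ cellM M H v, FR R (((2 * k : ℤ) : ℝ) * ang η (ϖ m) + 2 * φ) / (m : ℝ) := by
    have hb : R * mE M H v - 8 * (R : ℝ) ^ 3 * (mE M H v - ‖PP0‖) ≤
        R * mE M H v - 8 * (R : ℝ) ^ 3 * (mE M H v -
          ∑ m ∈ cellM M H v, |Real.cos (k * ang η (ϖ m) + φ)| / (m : ℝ)) := by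
      have := mul_le_mul_of_nonneg_left hφ (show (0 : ℝ) ≤ 8 * (R : ℝ) ^ 3 by positivity)
      linarith
    refine hb.trans ?_
    unfold mE
    rw [← Finset.sum_sub_distrib, Finset.mul_sum, Finset.mul_sum, ← Finset.sum_sub_distrib]
    refine Finset.sum_le_sum fun p _ => ?_
    have h := Pool.Agent.H970R2.X.xcell_FR R hR1 (((2 * k : ℤ) : ℝ) * ang η (ϖ p) + 2 * φ)
    have harg : ((2 * k : ℤ) : ℝ) * ang η (ϖ p) + 2 * φ = 2 * (k * ang η (ϖ p) + φ) := by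
      push_cast; ring
    have hc := cos_two_ge (k * ang η (ϖ p) + φ)
    rw [← harg] at hc
    have hp0 : (0 : ℝ) ≤ 1 / (p : ℝ) := by positivity
    have h' : R - 8 * (R : ℝ) ^ 3 * (1 - |Real.cos (k * ang η (ϖ p) + φ)|) ≤
        FR R (((2 * k : ℤ) : ℝ) * ang η (ϖ p) + 2 * φ) := by
      refine le_trans ?_ h
      have := mul_le_mul_of_nonneg_left hc (show (0 : ℝ) ≤ 2 * (R : ℝ) ^ 3 by positivity)
      linarith
    have := mul_le_mul_of_nonneg_right h' hp0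
    calc R * (1 / (p : ℝ)) - 8 * (R : ℝ) ^ 3 *
          (1 / (p : ℝ) - |Real.cos (k * ang η (ϖ p) + φ)| / (p : ℝ))
        = (R - 8 * (R : ℝ) ^ 3 * (1 - |Real.cos (k * ang η (ϖ p) + φ)|)) * (1 / (p : ℝ)) := by ring
      _ ≤ FR R (((2 * k : ℤ) : ℝ) * ang η (ϖ p) + 2 * φ) * (1 / (p : ℝ)) := this
      _ = FR R (((2 * k : ℤ) : ℝ) * ang η (ϖ p) + 2 * φ) / (p : ℝ) := by ring
  have h1 : 8 * (R : ℝ) ^ 3 * ‖PP0‖ ≤ 8 * (R : ℝ) ^ 3 * mE M H v - R * mE M H v + C / v := by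
    nlinarith
  have h2 : 8 * (R : ℝ) ^ 3 * ((1 - 1 / (8 * (R : ℝ) ^ 2)) * mE M H v +
      C / (8 * (R : ℝ) ^ 3) * (1 / v)) = 8 * (R : ℝ) ^ 3 * mE M H v - R * mE M H v + C / v := by
    have : (R : ℝ) ≠ 0 := hRpos.ne'
    have e : C / (v : ℝ) = C * (1 / v) := by ring
    rw [e]
    field_simp
  rw [← h2] at h1
  exact le_of_mul_le_mul_left h1 (by positivity)

theorem celle_of (hg : Tc η G) (_U : Un t c η) (hS : S_SELE t c η) : S_CELLEt η G := by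
  intro Ap Bp M E ρ ϖ hE
  obtain ⟨C₁, hC₁, hsel⟩ := hS Ap Bp M E ρ ϖ hE
  obtain ⟨c₀, hc₀, C, hrich⟩ := hE.rich
  obtain ⟨R, hR⟩ := exists_nat_ge (4 * C₁ / c₀ + 1)
  have hR1' : (1 : ℝ) ≤ R := by
    have : 0 ≤ 4 * C₁ / c₀ := by positivity
    linarith
  have hR1 : 1 ≤ R := by exact_mod_cast hR1'
  have hRpos : (0 : ℝ) < R := by linarith
  have hRC : C₁ / (8 * (R : ℝ) ^ 3) / c₀ ≤ 1 / (32 * (R : ℝ) ^ 2) := by
    have h1 : 4 * C₁ / c₀ ≤ R := by linarith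
    rw [div_le_iff₀ hc₀] at h1
    rw [div_div, div_le_div_iff₀ (by positivity) (by positivity)]
    have h2 : (32 * (R : ℝ) ^ 2) * C₁ ≤ (8 * (R : ℝ) ^ 2) * (R * c₀) := by
      have := mul_le_mul_of_nonneg_left h1 (show 0 ≤ 8 * (R : ℝ) ^ 2 by positivity)
      linarith
    nlinarith
  set K : ℝ := C₁ / (8 * (R : ℝ) ^ 3) with hK
  have hK0 : 0 < K := by positivity
  -- size of W
  obtain ⟨Λ, hΛ⟩ := exists_nat_ge (Real.exp ((|C| + 32 * (R : ℝ) ^ 2 * K * (1 + |C| / c₀)) / c₀))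
  have hΛ1 : (1 : ℝ) ≤ Λ := (Real.one_le_exp (by positivity)).trans hΛ
  have hΛpos : (0 : ℝ) < Λ := by linarith
  have hΛ1' : 1 ≤ Λ := by exact_mod_cast hΛ1
  refine ⟨1 / (16 * (R : ℝ) ^ 2), by positivity, ?_, Λ, ?_⟩
  · rw [div_le_one (by positivity)]; nlinarith
  intro M' H hH
  obtain ⟨V₁, hV₁⟩ := hsel (M' + 1) H R hH hR1
  refine ⟨max V₁ (max H 1), fun v₀ v₁ hv₀ hv₁ k hk0 hk => ?_⟩
  have hvV : V₁ ≤ v₀ := le_trans (le_max_left _ _) hv₀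
  have hvH : H ≤ v₀ := le_trans (le_trans (le_max_left _ _) (le_max_right _ _)) hv₀
  have hv1 : 1 ≤ v₀ := le_trans (le_trans (le_max_right _ _) (le_max_right _ _)) hv₀
  have hv01 : v₀ ≤ v₁ := le_trans (Nat.le_mul_of_pos_left v₀ hΛ1') hv₁
  have hv0pos : (0 : ℝ) < v₀ := by exact_mod_cast hv1
  have hv1pos : (0 : ℝ) < v₁ := lt_of_lt_of_le hv0pos (by exact_mod_cast hv01)
  have hHpos : (0 : ℝ) < H := by exact_mod_cast hH
  have hcell : ∀ v ∈ Ico v₀ v₁, ‖PEt η G M ϖ H v k‖ ≤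
      (1 - 1 / (8 * (R : ℝ) ^ 2)) * mE M H v + K * (1 / v) := by
    intro v hv
    have hv2 : v₀ ≤ v := (Finset.mem_Ico.mp hv).1
    refine cell_le hg C₁ R H v M ϖ hR1 k (fun φ => ?_)
    refine hV₁ v (hvV.trans hv2) (2 * k) (mul_ne_zero two_ne_zero hk0) ?_ φ
    have hv2' : (v₀ : ℝ) ≤ v := by exact_mod_cast hv2
    have hvH' : (1 : ℝ) ≤ (v : ℝ) / H := by
      rw [one_le_div hHpos]
      exact_mod_cast hvH.trans hv2
    have e2 : (2 : ℝ) ≤ Real.exp ((v : ℝ) / H) := by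
      have := Real.add_one_le_exp ((v : ℝ) / H)
      linarith
    have e3 : |(k : ℝ)| ≤ Real.exp (M' * (v : ℝ) / H) := by
      refine hk.trans ?_
      apply Real.exp_le_exp.mpr
      apply div_le_div_of_nonneg_right _ hHpos.le
      exact mul_le_mul_of_nonneg_left hv2' (Nat.cast_nonneg _)
    have e4 : |((2 * k : ℤ) : ℝ)| = 2 * |(k : ℝ)| := by
      push_cast
      rw [abs_mul, abs_two]
    have e5 : Real.exp (((M' + 1 : ℕ) : ℝ) * (v : ℝ) / H) =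
        Real.exp ((v : ℝ) / H) * Real.exp (M' * (v : ℝ) / H) := by
      rw [← Real.exp_add]
      congr 1
      push_cast
      ring
    rw [e4, e5]
    exact mul_le_mul e2 e3 (abs_nonneg _) (Real.exp_pos _).le
  set W : ℝ := ∑ v ∈ Ico v₀ v₁, mE M H v with hW
  set l : ℝ := Real.log ((v₁ : ℝ) / v₀) with hl
  have hWl : c₀ * l - C ≤ W := hrich H v₀ v₁ hH hvH hv01
  have hlΛ : Real.log Λ ≤ l := by
    rw [hl]
    apply Real.log_le_log hΛpos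
    rw [le_div_iff₀ hv0pos]
    exact_mod_cast hv₁
  have hlogΛ : |C| + 32 * (R : ℝ) ^ 2 * K * (1 + |C| / c₀) ≤ c₀ * Real.log Λ := by
    have h1 : (|C| + 32 * (R : ℝ) ^ 2 * K * (1 + |C| / c₀)) / c₀ ≤ Real.log Λ := by
      rw [Real.le_log_iff_exp_le hΛpos]; exact hΛ
    rw [div_le_iff₀ hc₀] at h1
    linarith
  have hCabs := le_abs_self C
  have hWbig : 32 * (R : ℝ) ^ 2 * K * (1 + |C| / c₀) ≤ W := by
    have : c₀ * Real.log Λ ≤ c₀ * l := mul_le_mul_of_nonneg_left hlΛ hc₀.le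
    linarith
  have hlW : l ≤ (W + |C|) / c₀ := by
    rw [le_div_iff₀ hc₀]; linarith
  have hW0 : 0 ≤ W := Finset.sum_nonneg fun _ _ => Finset.sum_nonneg fun _ _ => by positivity
  have hinv := sum_inv_le v₀ v₁ hv1 hv01
  calc ∑ v ∈ Ico v₀ v₁, ‖PEt η G M ϖ H v k‖
      ≤ ∑ v ∈ Ico v₀ v₁, ((1 - 1 / (8 * (R : ℝ) ^ 2)) * mE M H v + K * (1 / v)) :=
        Finset.sum_le_sum hcell
    _ = (1 - 1 / (8 * (R : ℝ) ^ 2)) * W + K * ∑ v ∈ Ico v₀ v₁, 1 / (v : ℝ) := by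
        rw [Finset.sum_add_distrib, ← Finset.mul_sum, ← Finset.mul_sum]
    _ ≤ (1 - 1 / (8 * (R : ℝ) ^ 2)) * W + K * (1 + (W + |C|) / c₀) := by
        have : K * ∑ v ∈ Ico v₀ v₁, 1 / (v : ℝ) ≤ K * (1 + (W + |C|) / c₀) :=
          mul_le_mul_of_nonneg_left (by linarith) hK0.le
        linarith
    _ ≤ (1 - 1 / (16 * (R : ℝ) ^ 2)) * W := by
        have e1 : K * (1 + (W + |C|) / c₀) = K * (1 + |C| / c₀) + K / c₀ * W := by
          field_simp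
          ring
        have e2 : K * (1 + |C| / c₀) ≤ 1 / (32 * (R : ℝ) ^ 2) * W := by
          rw [one_div, inv_mul_eq_div, le_div_iff₀ (by positivity)]
          linarith
        have e3 : K / c₀ * W ≤ 1 / (32 * (R : ℝ) ^ 2) * W := mul_le_mul_of_nonneg_right hRC hW0
        have e4 : 1 / (8 * (R : ℝ) ^ 2) * W = 1 / (16 * (R : ℝ) ^ 2) * W +
            (1 / (32 * (R : ℝ) ^ 2) * W + 1 / (32 * (R : ℝ) ^ 2) * W) := by
          field_simp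
          ring
        have e5 : (1 - 1 / (8 * (R : ℝ) ^ 2)) * W = W - 1 / (8 * (R : ℝ) ^ 2) * W := by ring
        have e6 : (1 - 1 / (16 * (R : ℝ) ^ 2)) * W = W - 1 / (16 * (R : ℝ) ^ 2) * W := by ring
        rw [e1, e5, e6]
        linarith

end Pool.Agent.L5helper2.TW
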