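import Pool.Agent.W78.GR.All
import Pool.Agent.L5helper2.TW.Dec
import Pool.Agent.L5helper2.TW.Mom
import Pool.Agent.L5helper2.TW.Celle
import Pool.Agent.L5helper2.TW.MR

/-!
Project TW (helper2): the Matomaki-Radziwill theorem for the angles of the elements of a real
quadratic order, for multiplicative functions of the elements.
-/

set_option autoImplicit false

namespace Pool.Agent.L5helper2.TW

open Pool.Agent.W78.GR hiding S_DEC S_MOM0 S_MOMP S_MOM S_CELLE S_MR mr_of

variable {t c : ℤ} {η : (Qd t c)ˣ} {G : Qd t c → ℤ}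

/-- **the twisted Matomaki-Radziwill theorem** for real quadratic orders -/
theorem mrt (U : Un t c η) (hg : Tc η G) : S_MRt η G := by
  have hlat : S_LAT t c η := Pool.Agent.W398.GR.lat U
  have hred : S_RED t c := Pool.Agent.W880.GR.red U.disc U.nsq
  have hlati : S_LATI t c η := Pool.Agent.W880.GR.lati_of U hlat hred
  have hls : S_LS t c η := Pool.Agent.W586.GR.ls U
  have hang1 : S_ANG1 t c η := Pool.Agent.W134.GR.ang1 U
  have hang : S_ANG t c η := Pool.Agent.W398.GR.ang_of hang1 (Pool.Agent.W398.GR.ang2 U)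
  have hangi : S_ANGI t c η := Pool.Agent.W880.GR.angi_of U hang hred
  have hmach : S_MACH := Pool.Agent.W586.GA.mach_of Pool.Agent.W240.GA.leva
    Pool.Agent.W240.GA.levb Pool.Agent.W397.GA.s_cnt Pool.Agent.W586.GA.upart
  exact mr_of hg U hmach (Pool.Agent.W352.GR.ele U.disc U.nsq)
    (dec_of hg U hlat hlati (Pool.Agent.W248.GR.tk_of U hlat hlati))
    (mom0_of hg U hls hlat) (momp_of hg U hls) (mom_of hg U hls hlat hlati)
    (Pool.Agent.W402.GR.sparse_of U hang hlat) hls
    (celle_of hg U
      (Pool.Agent.W402.GR.sele_of U hangi hlat (Pool.Agent.W586.GR.selb U.disc U.nsq))) hlat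

end Pool.Agent.L5helper2.TW
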