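import Pool.Agent.W78.GR.Basic

/-!
Project TW (helper2): the Matomaki-Radziwill theorem for the angles of the elements of a real
quadratic order, for completely multiplicative functions `G` of the ELEMENTS (not only of the
norm), for example `G(z) = λ(N z) χ(z)` with a real character `χ` of the order.
Definitions and statements.
-/

set_option autoImplicit false

namespace Pool.Agent.L5helper2.TW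

open Finset Filter
open Pool.Agent.H376R2.MR (FK Fj)
open Pool.Agent.W78.GR (Qd nm prim bg lat cellM mE tp fd ang ps DPG pball ball Un Ele)

variable {t c : ℤ}

/-- admissible functions: bounded by one, multiplicative on the totally positive elements, and
invariant under multiplication by the unit `η` -/
structure Tc (η : (Qd t c)ˣ) (G : Qd t c → ℤ) : Prop where
  bd : ∀ z, |G z| ≤ 1
  mul : ∀ z w, tp z → tp w → G (z * w) = G z * G w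
  one : G 1 = 1
  unit : G (η : Qd t c) = 1

/-- `G_Y(k) = ∑_{z primitive} G(z) w(log(N z/Y))/N z ps k z`, `z` in the fundamental domain -/
noncomputable def GGt (η : (Qd t c)ˣ) (G : Qd t c → ℤ) (Y : ℝ) (k : ℤ) : ℂ :=
  DPG η (pball η (Real.exp 1 * Y)) (fun z => (G z : ℂ) * (bg Y z : ℂ)) k

/-- `- ∑_{m ∈ cell} G(ϖ m) ps k (ϖ_m) / m` -/
noncomputable def PEt (η : (Qd t c)ˣ) (G : Qd t c → ℤ) (M : ℕ → Prop) (ϖ : ℕ → Qd t c)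
    (H v : ℕ) (k : ℤ) : ℂ :=
  -∑ m ∈ cellM M H v, (G (ϖ m) : ℂ) * ps η k (ϖ m) / (m : ℂ)

/-- DEC: the decomposition -/
def S_DECt (η : (Qd t c)ˣ) (G : Qd t c → ℤ) : Prop :=
  ∀ (Ap Bp M : ℕ → Prop) (E : ℕ) (ρ : ℕ → ℤ) (ϖ : ℕ → Qd t c),
  Ele t c Ap Bp M E ρ ϖ → ∃ C : ℝ, 0 < C ∧ ∀ H v₀ v₁ : ℕ, 1 ≤ H → H ≤ v₀ →
    1 ≤ ∑ v ∈ Ico v₀ v₁, mE M H v → ∀ Y : ℝ, Real.exp (4 * (v₁ : ℝ) / H) ≤ Y →
    ∃ (s : Finset (Qd t c)) (f : Qd t c → ℂ), s ⊆ pball η (Real.exp 2 * Y) ∧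
      (∀ k : ℤ, GGt η G Y k = -(1 / ((∑ v ∈ Ico v₀ v₁, mE M H v : ℝ) : ℂ)) *
        ∑ v ∈ Ico v₀ v₁, PEt η G M ϖ H v k * GGt η G (Y * Real.exp (-((v : ℝ) / H))) k +
        DPG η s f k) ∧
      Y * ∑ z ∈ s, ‖f z‖ ^ 2 ≤ C * (1 / (∑ v ∈ Ico v₀ v₁, mE M H v) + 1 / (H : ℝ) ^ 2)

/-- MOM0: the mean values of `G` -/
def S_MOM0t (η : (Qd t c)ˣ) (G : Qd t c → ℤ) : Prop := ∃ C : ℝ, 0 < C ∧ ∀ (K : ℕ) (Z : ℝ), 3 ≤ Z →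
    1 ≤ K → ∑ k ∈ FK K, ‖GGt η G Z k‖ ^ 2 ≤ C * (1 + (K : ℝ) / Z)

/-- MOMP: the moments of `P` -/
def S_MOMPt (η : (Qd t c)ˣ) (G : Qd t c → ℤ) : Prop :=
  ∀ (Ap Bp M : ℕ → Prop) (E : ℕ) (ρ : ℕ → ℤ) (ϖ : ℕ → Qd t c),
  Ele t c Ap Bp M E ρ ϖ → ∃ C : ℝ, 1 ≤ C ∧ ∀ H r ℓ K : ℕ, 1 ≤ H → 1 ≤ K →
    (K : ℝ) ≤ Real.exp ((r : ℝ) * ℓ / H) →
    ∑ k ∈ FK K, ‖PEt η G M ϖ H r k‖ ^ (2 * ℓ) ≤ C ^ (ℓ + 1) * (ℓ.factorial : ℝ) ^ 8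

/-- MOM: mixed moments -/
def S_MOMt (η : (Qd t c)ˣ) (G : Qd t c → ℤ) : Prop :=
  ∀ (Ap Bp M : ℕ → Prop) (E : ℕ) (ρ : ℕ → ℤ) (ϖ : ℕ → Qd t c),
  Ele t c Ap Bp M E ρ ϖ → ∃ C : ℝ, 1 ≤ C ∧ ∀ (H r ℓ K : ℕ) (Z : ℝ), 1 ≤ H → 3 ≤ Z → 1 ≤ K →
    (K : ℝ) ≤ Z * Real.exp ((r : ℝ) * ℓ / H) →
    ∑ k ∈ FK K, ‖PEt η G M ϖ H r k ^ ℓ * GGt η G Z k‖ ^ 2 ≤ C ^ (ℓ + 1) * (ℓ.factorial : ℝ) ^ 8

/-- CELLE -/
def S_CELLEt (η : (Qd t c)ˣ) (G : Qd t c → ℤ) : Prop :=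
  ∀ (Ap Bp M : ℕ → Prop) (E : ℕ) (ρ : ℕ → ℤ) (ϖ : ℕ → Qd t c),
  Ele t c Ap Bp M E ρ ϖ → ∃ c' : ℝ, 0 < c' ∧ c' ≤ 1 ∧ ∃ Λ : ℕ, ∀ M' H : ℕ, 1 ≤ H →
    ∃ V₀ : ℕ, ∀ v₀ v₁ : ℕ, V₀ ≤ v₀ → Λ * v₀ ≤ v₁ → ∀ k : ℤ, k ≠ 0 →
    |(k : ℝ)| ≤ Real.exp (M' * (v₀ : ℝ) / H) →
    ∑ v ∈ Ico v₀ v₁, ‖PEt η G M ϖ H v k‖ ≤ (1 - c') * ∑ v ∈ Ico v₀ v₁, mE M H v

/-- MR: the Matomaki-Radziwill theorem for the angles in the order, for the function `G` -/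
def S_MRt (η : (Qd t c)ˣ) (G : Qd t c → ℤ) : Prop := ∀ δ : ℝ, 0 < δ → ∃ h : ℝ, 1 ≤ h ∧
  ∃ Y₀ : ℝ, ∀ Y : ℝ, Y₀ ≤ Y → ∑ k ∈ (FK ⌊Y / h⌋₊).erase 0, ‖GGt η G Y k‖ ^ 2 ≤ δ

variable {η : (Qd t c)ˣ} {G : Qd t c → ℤ}

lemma Tc.norm_le (h : Tc η G) (z : Qd t c) : ‖(G z : ℂ)‖ ≤ 1 := by
  rw [Complex.norm_intCast]
  exact_mod_cast h.bd z

lemma Tc.absR (h : Tc η G) (z : Qd t c) : |(G z : ℝ)| ≤ 1 := by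
  exact_mod_cast h.bd z

lemma Tc.sq_le (h : Tc η G) (z : Qd t c) : (G z : ℝ) ^ 2 ≤ 1 := by
  rw [← sq_abs]
  exact pow_le_one₀ (abs_nonneg _) (h.absR z)

lemma Tc.zpow_mul (h : Tc η G) (U : Un t c η) (j : ℤ) {z : Qd t c} (hz : tp z) :
    G (((η ^ j : (Qd t c)ˣ) : Qd t c) * z) = G z := by
  have key : ∀ (n : ℕ) (z : Qd t c), tp z →
      G (((η ^ (n : ℤ) : (Qd t c)ˣ) : Qd t c) * z) = G z := by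
    intro n
    induction n with
    | zero => intro z _; simp
    | succ n ih =>
      intro z hz
      have e : ((η ^ ((n + 1 : ℕ) : ℤ) : (Qd t c)ˣ) : Qd t c) * z =
          ((η ^ (n : ℤ) : (Qd t c)ˣ) : Qd t c) * ((η : Qd t c) * z) := by
        push_cast
        rw [zpow_add, zpow_one, Units.val_mul, mul_assoc]
      rw [e, ih _ (Pool.Agent.W78.GR.tp_mul U.disc U.pos hz), h.mul _ _ U.pos hz, h.unit, one_mul]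
  rcases Int.eq_nat_or_neg j with ⟨n, rfl | rfl⟩
  · exact key n z hz
  · have h1 : tp (((η ^ (-(n : ℤ)) : (Qd t c)ˣ) : Qd t c) * z) := (U.tp_zpow_mul _).2 hz
    have h2 := key n _ h1
    rw [← h2, ← mul_assoc, ← Units.val_mul, ← zpow_add, add_neg_cancel, zpow_zero, Units.val_one,
      one_mul]

end Pool.Agent.L5helper2.TW
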