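import Pool.Agent.L5helper2.TW.Path
import Pool.Agent.L5helper2.TW.Defs

/-!
Project TW (helper2): the character `(D/x)` of modulus `q`, `4 D ∣ q`, and the colours.
-/

set_option autoImplicit false

namespace Pool.Agent.L5helper2.TW

open Pool.Agent.W78.GA (Qd nm prim dt ip gl)
open Pool.Agent.W84.G (Nz)

/-- the character `x ↦ (D/x)` of modulus `q` -/
def chv (D : ℤ) (q : ℕ) (x : ℤ) : ℤ :=
  if Int.gcd x q = 1 then jacobiSym D (x % q).toNat else 0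

lemma two_dvd_of {D : ℤ} {q : ℕ} (h4 : 4 * D ∣ (q : ℤ)) : (2 : ℕ) ∣ q := by
  have : (2 : ℤ) ∣ (q : ℤ) := (Dvd.intro (2 * D) (by ring)).trans h4
  exact_mod_cast this

lemma odd_of_cop {q n : ℕ} (h2 : 2 ∣ q) (h : Nat.Coprime n q) : Odd n := by
  rw [← Nat.not_even_iff_odd]
  intro he
  have h5 := Nat.dvd_gcd (even_iff_two_dvd.1 he) h2
  rw [h] at h5
  norm_num at h5

lemma chv_of {D : ℤ} {q : ℕ} (hq1 : 1 ≤ q) (h4 : 4 * D ∣ (q : ℤ)) {x : ℤ} {n : ℕ}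
    (hn : Nat.Coprime n q) (h : (q : ℤ) ∣ x - n) : chv D q x = jacobiSym D n := by
  have hq0 : (q : ℤ) ≠ 0 := by
    have : q ≠ 0 := by omega
    exact_mod_cast this
  have hc : Int.gcd x q = 1 := by
    rw [← Int.isCoprime_iff_gcd_eq_one]
    obtain ⟨k, hk⟩ := h
    have e : x = n + q * k := by linarith
    rw [e]
    exact (IsCoprime.add_mul_left_left_iff).2 (Nat.isCoprime_iff_coprime.2 hn)
  unfold chv
  rw [if_pos hc]
  have hnn : 0 ≤ x % q := Int.emod_nonneg x hq0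
  have e1 : (((x % q).toNat : ℕ) : ℤ) = x % q := Int.toNat_of_nonneg hnn
  have h1 : (q : ℤ) ∣ x - x % q := Int.dvd_self_sub_emod
  have h2 : (q : ℤ) ∣ (((x % q).toNat : ℕ) : ℤ) - n := by
    rw [e1]
    have := dvd_sub h h1
    have e : x - n - (x - x % (q : ℤ)) = x % q - n := by ring
    rwa [e] at this
  have hcop : Nat.Coprime (x % q).toNat q := by
    rw [← Nat.isCoprime_iff_coprime, e1]
    obtain ⟨k, hk⟩ := h1
    have e : x % q = x + q * (-k) := by linarith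
    rw [e]
    exact (IsCoprime.add_mul_left_left_iff).2 (Int.isCoprime_iff_gcd_eq_one.2 hc)
  exact jac_congr h4 (odd_of_cop (two_dvd_of h4) hcop) (odd_of_cop (two_dvd_of h4) hn) h2

lemma exists_rep {q : ℕ} (hq1 : 1 ≤ q) {x : ℤ} (h : IsCoprime x (q : ℤ)) :
    ∃ n : ℕ, Nat.Coprime n q ∧ (q : ℤ) ∣ x - n := by
  have hq0 : (q : ℤ) ≠ 0 := by
    have : q ≠ 0 := by omega
    exact_mod_cast this
  have hnn : 0 ≤ x % q := Int.emod_nonneg x hq0
  have e1 : (((x % q).toNat : ℕ) : ℤ) = x % q := Int.toNat_of_nonneg hnn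
  have h1 : (q : ℤ) ∣ x - x % q := Int.dvd_self_sub_emod
  refine ⟨(x % q).toNat, ?_, by rw [e1]; exact h1⟩
  rw [← Nat.isCoprime_iff_coprime, e1]
  obtain ⟨k, hk⟩ := h1
  have e : x % q = x + q * (-k) := by linarith
  rw [e]
  exact (IsCoprime.add_mul_left_left_iff).2 h

lemma chv_zero {D : ℤ} {q : ℕ} {x : ℤ} (h : ¬ IsCoprime x (q : ℤ)) : chv D q x = 0 := by
  unfold chv
  rw [if_neg]
  rwa [← Int.isCoprime_iff_gcd_eq_one]

lemma chv_nat {D : ℤ} {q : ℕ} (hq1 : 1 ≤ q) (h4 : 4 * D ∣ (q : ℤ)) {n : ℕ}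
    (hn : Nat.Coprime n q) : chv D q n = jacobiSym D n :=
  chv_of hq1 h4 hn (by simp)

lemma chv_one {D : ℤ} {q : ℕ} (hq1 : 1 ≤ q) (h4 : 4 * D ∣ (q : ℤ)) : chv D q 1 = 1 := by
  have := chv_nat hq1 h4 (Nat.coprime_one_left q)
  rw [Nat.cast_one] at this
  rw [this, jacobiSym.one_right]

lemma chv_mul {D : ℤ} {q : ℕ} (hq1 : 1 ≤ q) (h4 : 4 * D ∣ (q : ℤ)) (x y : ℤ) :
    chv D q (x * y) = chv D q x * chv D q y := by
  by_cases hx : IsCoprime x (q : ℤ)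
  · by_cases hy : IsCoprime y (q : ℤ)
    · obtain ⟨n, hn, hn'⟩ := exists_rep hq1 hx
      obtain ⟨m, hm, hm'⟩ := exists_rep hq1 hy
      have h1 : (q : ℤ) ∣ x * y - ((n * m : ℕ) : ℤ) := by
        have e : x * y - ((n * m : ℕ) : ℤ) = (x - n) * y + n * (y - m) := by push_cast; ring
        rw [e]
        exact dvd_add (hn'.mul_right _) (hm'.mul_left _)
      rw [chv_of hq1 h4 (Nat.Coprime.mul_left hn hm) h1, chv_of hq1 h4 hn hn',
        chv_of hq1 h4 hm hm']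
      have hn0 : n ≠ 0 := by
        rintro rfl
        exact (by decide : ¬ Odd 0) (odd_of_cop (two_dvd_of h4) hn)
      have hm0 : m ≠ 0 := by
        rintro rfl
        exact (by decide : ¬ Odd 0) (odd_of_cop (two_dvd_of h4) hm)
      rw [jacobiSym.mul_right' _ hn0 hm0]
    · rw [chv_zero hy, mul_zero, chv_zero]
      exact fun h => hy (IsCoprime.mul_left_iff.1 h).2
  · rw [chv_zero hx, zero_mul, chv_zero]
    exact fun h => hx (IsCoprime.mul_left_iff.1 h).1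

lemma chv_congr {D : ℤ} {q : ℕ} (hq1 : 1 ≤ q) (h4 : 4 * D ∣ (q : ℤ)) {x y : ℤ}
    (h : (q : ℤ) ∣ x - y) : chv D q x = chv D q y := by
  by_cases hy : IsCoprime y (q : ℤ)
  · obtain ⟨n, hn, hn'⟩ := exists_rep hq1 hy
    rw [chv_of hq1 h4 hn hn']
    apply chv_of hq1 h4 hn
    have := dvd_add h hn'
    rwa [sub_add_sub_cancel] at this
  · rw [chv_zero hy, chv_zero]
    intro hx
    apply hy
    obtain ⟨k, hk⟩ := h
    have e : y = x + q * (-k) := by linarith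
    rw [e]
    exact (IsCoprime.add_mul_left_left_iff).2 hx

lemma chv_eq {D : ℤ} {q : ℕ} (hq1 : 1 ≤ q) (h4 : 4 * D ∣ (q : ℤ)) {x : ℤ}
    (hx : IsCoprime x (q : ℤ)) : chv D q x = 1 ∨ chv D q x = -1 := by
  obtain ⟨n, hn, hn'⟩ := exists_rep hq1 hx
  rw [chv_of hq1 h4 hn hn']
  apply jacobiSym.eq_one_or_neg_one
  rw [← Int.isCoprime_iff_gcd_eq_one]
  exact ((Nat.isCoprime_iff_coprime.2 hn).of_isCoprime_of_dvd_right
    ((Dvd.intro_left 4 rfl).trans h4)).symm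

lemma chv_ne {D : ℤ} {q : ℕ} (hq1 : 1 ≤ q) (h4 : 4 * D ∣ (q : ℤ)) {x : ℤ} :
    chv D q x ≠ 0 ↔ IsCoprime x (q : ℤ) := by
  constructor
  · intro h
    by_contra h1
    exact h (chv_zero h1)
  · intro h h1
    rcases chv_eq hq1 h4 h with h2 | h2 <;> rw [h1] at h2 <;> norm_num at h2

lemma chv_abs {D : ℤ} {q : ℕ} (hq1 : 1 ≤ q) (h4 : 4 * D ∣ (q : ℤ)) (x : ℤ) :
    |chv D q x| ≤ 1 := by
  by_cases hx : IsCoprime x (q : ℤ)
  · rcases chv_eq hq1 h4 hx with h | h <;> rw [h] <;> norm_num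
  · rw [chv_zero hx]; norm_num

/-- the order has a level: `t`, `c` are divisible by `q` and `4 D ∣ q` -/
structure Lv (t c D : ℤ) (q : ℕ) : Prop where
  q1 : 1 ≤ q
  h4 : 4 * D ∣ (q : ℤ)
  tq : (q : ℤ) ∣ t
  cq : (q : ℤ) ∣ c
  dd : t ^ 2 - 4 * c = (q : ℤ) ^ 2 * D

variable {t c D : ℤ} {q : ℕ}

/-- the colour character -/
def co (D : ℤ) (q : ℕ) (z : Qd t c) : ℤ := chv D q z.re

lemma Lv.nz (L : Lv t c D q) (z : Qd t c) : (q : ℤ) ∣ Nz z - z.re ^ 2 := by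
  have e : Nz z - z.re ^ 2 = t * (z.re * z.im) + c * z.im ^ 2 := by unfold Nz; ring
  rw [e]
  exact dvd_add (L.tq.mul_right _) (L.cq.mul_right _)

lemma nm_Nz (z : Qd t c) : nm z = (Nz z).natAbs := rfl

lemma Lv.cop_iff (L : Lv t c D q) (z : Qd t c) :
    Nat.Coprime (nm z) q ↔ IsCoprime z.re (q : ℤ) := by
  have h1 : Nat.Coprime (nm z) q ↔ IsCoprime (Nz z) (q : ℤ) := by
    rw [nm_Nz, Int.isCoprime_iff_gcd_eq_one]
    rfl
  rw [h1]
  obtain ⟨k, hk⟩ := L.nz z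
  have e : Nz z = z.re ^ 2 + q * k := by linarith
  rw [e, IsCoprime.add_mul_left_left_iff, IsCoprime.pow_left_iff (by norm_num)]

lemma Lv.co_ne (L : Lv t c D q) (z : Qd t c) : co D q z ≠ 0 ↔ Nat.Coprime (nm z) q := by
  rw [L.cop_iff]
  exact chv_ne L.q1 L.h4

lemma Lv.co_eq (L : Lv t c D q) {z : Qd t c} (h : Nat.Coprime (nm z) q) :
    co D q z = 1 ∨ co D q z = -1 := chv_eq L.q1 L.h4 ((L.cop_iff z).1 h)

lemma Lv.co_mul (L : Lv t c D q) (z w : Qd t c) : co D q (z * w) = co D q z * co D q w := by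
  unfold co
  rw [← chv_mul L.q1 L.h4]
  apply chv_congr L.q1 L.h4
  have e : (z * w).re - z.re * w.re = c * (-(z.im * w.im)) := by
    simp only [QuadraticAlgebra.re_mul]
    ring
  rw [e]
  exact L.cq.mul_right _

lemma Lv.co_one (L : Lv t c D q) : co D q (1 : Qd t c) = 1 := by
  unfold co
  rw [QuadraticAlgebra.re_one]
  exact chv_one L.q1 L.h4

lemma Lv.co_nat (L : Lv t c D q) {n : ℕ} (hn : Nat.Coprime n q) :
    co D q (n : Qd t c) = jacobiSym D n := by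
  unfold co
  rw [QuadraticAlgebra.re_natCast]
  exact chv_nat L.q1 L.h4 hn

lemma Lv.co_abs (L : Lv t c D q) (z : Qd t c) : |co D q z| ≤ 1 := chv_abs L.q1 L.h4 _

/-- the prime factors of the norm of a primitive element are split -/
lemma Lv.spl (L : Lv t c D q) {z : Qd t c} (hz : prim z) (hc : Nat.Coprime (nm z) q) {p : ℕ}
    (hp : p.Prime) (hpz : p ∣ nm z) : jacobiSym D p = 1 := by
  haveI : Fact p.Prime := ⟨hp⟩
  have hpI : Prime (p : ℤ) := Nat.prime_iff_prime_int.1 hp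
  have hpq : ¬ p ∣ q := by
    intro h
    have h5 := Nat.dvd_gcd hpz h
    rw [hc] at h5
    exact hp.one_lt.ne' (Nat.dvd_one.1 h5)
  have hp2 : ¬ p ∣ 2 := fun h => hpq (h.trans (two_dvd_of L.h4))
  have hpD : ¬ (p : ℤ) ∣ D := by
    intro h
    apply hpq
    have : (p : ℤ) ∣ (q : ℤ) := (h.mul_left 4).trans L.h4
    exact_mod_cast this
  have hN : (p : ℤ) ∣ Nz z := (nm_dvd_iff p z).1 hpz
  have e : (2 * z.re + t * z.im) ^ 2 - (t ^ 2 - 4 * c) * z.im ^ 2 = 4 * Nz z := by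
    unfold Nz
    ring
  have him : ¬ (p : ℤ) ∣ z.im := by
    intro h
    have h1 : (p : ℤ) ∣ z.re ^ 2 := by
      have e1 : z.re ^ 2 = Nz z - z.im * (t * z.re + c * z.im) := by unfold Nz; ring
      rw [e1]
      exact dvd_sub hN (h.mul_right _)
    have h2 := hpI.dvd_of_dvd_pow h1
    have h3 : (p : ℤ) ∣ ((Int.gcd z.re z.im : ℕ) : ℤ) := Int.dvd_coe_gcd h2 h
    unfold prim at hz
    rw [hz] at h3
    exact hp.one_lt.ne' (Nat.dvd_one.1 (Int.natCast_dvd_natCast.1 h3))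
  rw [← jacobiSym.legendreSym.to_jacobiSym]
  have hD0 : ((D : ℤ) : ZMod p) ≠ 0 := by
    rw [ne_eq, ZMod.intCast_zmod_eq_zero_iff_dvd]
    exact hpD
  rw [legendreSym.eq_one_iff p hD0]
  have hqi : ((q : ℤ) : ZMod p) ≠ 0 := by
    rw [ne_eq, ZMod.intCast_zmod_eq_zero_iff_dvd]
    exact_mod_cast hpq
  have hyi : ((z.im : ℤ) : ZMod p) ≠ 0 := by
    rw [ne_eq, ZMod.intCast_zmod_eq_zero_iff_dvd]
    exact him
  have h5 : (((2 * z.re + t * z.im) ^ 2 : ℤ) : ZMod p) =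
      (((q : ℤ) ^ 2 * D * z.im ^ 2 : ℤ) : ZMod p) := by
    rw [ZMod.intCast_eq_intCast_iff_dvd_sub]
    rw [L.dd] at e
    have : (q : ℤ) ^ 2 * D * z.im ^ 2 - (2 * z.re + t * z.im) ^ 2 = -(4 * Nz z) := by linarith
    rw [this]
    exact (hN.mul_left 4).neg_right
  push_cast at h5
  refine ⟨((2 * z.re + t * z.im : ℤ) : ZMod p) / (((q : ℤ) : ZMod p) * ((z.im : ℤ) : ZMod p)), ?_⟩
  rw [← pow_two, div_pow, eq_div_iff (pow_ne_zero 2 (mul_ne_zero hqi hyi))]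
  push_cast
  linear_combination -h5

/-- `(D/n) = 1` if all prime factors of `n` are split -/
lemma jac_one_of {D : ℤ} {n : ℕ} (hn : n ≠ 0) (h : ∀ p : ℕ, p.Prime → p ∣ n → jacobiSym D p = 1) :
    jacobiSym D n = 1 := by
  induction n using Nat.recOnMul with
  | zero => exact absurd rfl hn
  | one => exact jacobiSym.one_right D
  | prime p hp => exact h p hp dvd_rfl
  | mul a b ha hb =>
    have ha0 : a ≠ 0 := left_ne_zero_of_mul hn
    have hb0 : b ≠ 0 := right_ne_zero_of_mul hn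
    rw [jacobiSym.mul_right' _ ha0 hb0, ha ha0 fun p hp hpa => h p hp (hpa.mul_right b),
      hb hb0 fun p hp hpb => h p hp (hpb.mul_left a), one_mul]

end Pool.Agent.L5helper2.TW
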