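import Pool.Agent.L5helper2.TW.Near
import Pool.Agent.W398.GR.Lat
import Pool.Agent.L5helper2.TW.Chv
import Pool.Agent.Helper591.APRec

/-!
Project TW (helper2): almost all elements of a real quadratic order are rich: their norm has a small
prime factor in every class with `(D/r) = 1`.
-/

set_option autoImplicit false

namespace Pool.Agent.L5helper2.TW

open Finset Filter
open Pool.Agent.W78.GR hiding GG PE S_MOM0 S_MOMP S_MOM S_CELLE S_DEC S_MR
open Pool.Agent.W84.G (Ri)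
open Pool.Agent.Helper591.APRec (g g_nonneg not_summable_g)

variable {t c : ℤ} {η : (Qd t c)ˣ}

lemma g_le_one {q : ℕ} (a : ZMod q) (n : ℕ) : g a n ≤ 1 := by
  unfold g
  split_ifs with h
  · rw [div_le_one (by exact_mod_cast h.1.pos)]
    exact_mod_cast h.1.one_lt.le
  · exact zero_le_one

/-- finite sets of primes in a residue class with large reciprocal sum -/
lemma exists_QQ {M r : ℕ} (hM : 0 < M) (hr : r.Coprime M) (N : ℕ) (S : ℝ) :
    ∃ Q : Finset ℕ, (∀ q ∈ Q, q.Prime ∧ (M : ℤ) ∣ (q : ℤ) - r ∧ N < q) ∧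
      S ≤ ∑ q ∈ Q, 1 / (q : ℝ) := by
  classical
  have : NeZero M := ⟨hM.ne'⟩
  have hu : IsUnit (r : ZMod M) := (ZMod.isUnit_iff_coprime r M).2 hr
  have hns := not_summable_g hu
  rw [not_summable_iff_tendsto_nat_atTop_of_nonneg (g_nonneg _)] at hns
  obtain ⟨n, hn⟩ : ∃ n : ℕ, S ≤ ∑ i ∈ Ico (N + 1) n, g (r : ZMod M) i := by
    obtain ⟨n, hn⟩ := (hns.eventually (eventually_ge_atTop
      (S + ∑ i ∈ range (N + 1), g (r : ZMod M) i))).exists_forall_of_atTop
    have h1 := hn (max n (N + 1)) (le_max_left _ _)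
    refine ⟨max n (N + 1), ?_⟩
    rw [← Finset.sum_range_add_sum_Ico _ (le_max_right n (N + 1))] at h1
    linarith
  have hsum : ∑ q ∈ (Ico (N + 1) n).filter (fun q : ℕ => q.Prime ∧ (q : ZMod M) = r), 1 / (q : ℝ) =
      ∑ i ∈ Ico (N + 1) n, g (r : ZMod M) i := by
    rw [Finset.sum_filter]
    rfl
  refine ⟨(Ico (N + 1) n).filter (fun q : ℕ => q.Prime ∧ (q : ZMod M) = r), ?_, ?_⟩
  · intro q hq
    rw [mem_filter, mem_Ico] at hq
    refine ⟨hq.2.1, ?_, by omega⟩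
    have h1 := hq.2.2
    have h2 : (((r : ℤ)) : ZMod M) = ((q : ℤ) : ZMod M) := by
      rw [Int.cast_natCast, Int.cast_natCast]
      exact h1.symm
    exact (ZMod.intCast_eq_intCast_iff_dvd_sub _ _ _).1 h2
  · rw [hsum]; exact hn

/-- the two conditions modulo two primes form one condition -/
lemma lat_crt {p p' : ℕ} (hp : p.Prime) (hp' : p'.Prime) (hne : p ≠ p') (r r' : ℤ) :
    ∃ s : ℤ, ∀ z : Qd t c, lat (p * p') s z ↔ (lat p r z ∧ lat p' r' z) := by
  have hcop : Nat.Coprime p p' := (Nat.coprime_primes hp hp').2 hne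
  have hcopZ : IsCoprime (p : ℤ) (p' : ℤ) := Nat.isCoprime_iff_coprime.2 hcop
  obtain ⟨a, b, hab⟩ := hcopZ
  -- `s = r + a p (r' - r)`
  refine ⟨r + a * p * (r' - r), fun z => ?_⟩
  unfold lat
  have e1 : z.re + (r + a * p * (r' - r)) * z.im = (z.re + r * z.im) +
      p * (a * (r' - r) * z.im) := by ring
  have e2 : z.re + (r + a * p * (r' - r)) * z.im = (z.re + r' * z.im) -
      p' * (b * (r' - r) * z.im) := by
    linear_combination ((r' - r) * z.im) * hab
  constructor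
  · intro h
    push_cast at h
    constructor
    · have h1 := (Dvd.intro _ rfl : (p : ℤ) ∣ p * p').trans h
      rw [e1] at h1
      exact (dvd_add_left (Dvd.intro _ rfl)).1 h1
    · have h1 := (Dvd.intro_left _ rfl : (p' : ℤ) ∣ p * p').trans h
      rw [e2] at h1
      exact (dvd_sub_left (Dvd.intro _ rfl)).1 h1
  · rintro ⟨h1, h2⟩
    push_cast
    apply IsCoprime.mul_dvd (Nat.isCoprime_iff_coprime.2 hcop)
    · rw [e1]
      exact dvd_add h1 (Dvd.intro _ rfl)
    · rw [e2]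
      exact dvd_sub h2 (Dvd.intro _ rfl)

/-- second moment: few elements avoid all the given lattices -/
lemma few_zero {κ C : ℝ} (hκ : 0 < κ) (hC : 0 < C)
    (hL : ∀ (X : ℝ) (d : ℕ) (r : ℤ), 1 ≤ X → 1 ≤ d → (open scoped Classical in
      |(((ball η X).filter (lat d r)).card : ℝ) - κ * X / d| ≤ C * Real.sqrt X))
    (Q : Finset ℕ) (hQ : ∀ p ∈ Q, p.Prime) (ρ : ℕ → ℤ) {M : ℝ}
    (hM : M = ∑ p ∈ Q, 1 / (p : ℝ)) (hM0 : 0 < M) :
    ∃ C' : ℝ, ∀ X : ℝ, 1 ≤ X → (open scoped Classical in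
      (((ball η X).filter (fun z => ∀ p ∈ Q, ¬ lat p (ρ p) z)).card : ℝ)) ≤
      κ / M * X + C' * Real.sqrt X := by
  classical
  refine ⟨C * ((Q.card : ℝ) ^ 2 + 2 * M * Q.card + M ^ 2) / M ^ 2, fun X hX => ?_⟩
  set f : Qd t c → ℝ := fun z => ∑ p ∈ Q, (if lat p (ρ p) z then (1 : ℝ) else 0) with hf
  have hX0 : 0 < X := by linarith
  have hsX := Real.sqrt_nonneg X
  -- the number of elements
  have hcard : ((ball η X).card : ℝ) ≤ κ * X + C * Real.sqrt X := by
    have h := hL X 1 0 hX le_rfl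
    have e : (ball η X).filter (lat 1 0) = ball η X := by
      apply Finset.filter_true_of_mem
      intro z _
      unfold lat
      simp
    rw [e] at h
    have := (abs_le.1 h).2
    simp only [Nat.cast_one, div_one] at this
    linarith
  have hcnt : ∀ (d : ℕ) (r : ℤ), ∑ z ∈ ball η X, (if lat d r z then (1 : ℝ) else 0) =
      (((ball η X).filter (lat d r)).card : ℝ) := by
    intro d r
    rw [← sum_filter, sum_const, nsmul_eq_mul, mul_one]
  -- the first moment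
  have h1 : κ * X * M - Q.card * (C * Real.sqrt X) ≤ ∑ z ∈ ball η X, f z := by
    rw [hf, sum_comm, hM, mul_sum]
    have : (Q.card : ℝ) * (C * Real.sqrt X) = ∑ p ∈ Q, C * Real.sqrt X := by
      rw [sum_const, nsmul_eq_mul]
    rw [this, ← sum_sub_distrib]
    apply sum_le_sum
    intro p hp
    rw [hcnt]
    have := (abs_le.1 (hL X p (ρ p) hX (hQ p hp).one_lt.le)).1
    have e : κ * X * (1 / (p : ℝ)) = κ * X / p := by ring
    rw [e]
    linarith
  -- the second moment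
  have h2 : ∑ z ∈ ball η X, f z ^ 2 ≤ κ * X * (M ^ 2 + M) + (Q.card : ℝ) ^ 2 *
      (C * Real.sqrt X) := by
    have e : ∀ z, f z ^ 2 = ∑ p ∈ Q, ∑ p' ∈ Q,
        (if lat p (ρ p) z ∧ lat p' (ρ p') z then (1 : ℝ) else 0) := by
      intro z
      rw [hf, pow_two, sum_mul_sum]
      apply sum_congr rfl
      intro p _
      apply sum_congr rfl
      intro p' _
      by_cases h3 : lat p (ρ p) z <;> by_cases h4 : lat p' (ρ p') z <;> simp [h3, h4]
    simp only [e]
    rw [sum_comm]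
    have hin : ∀ p ∈ Q, ∑ z ∈ ball η X, ∑ p' ∈ Q,
        (if lat p (ρ p) z ∧ lat p' (ρ p') z then (1 : ℝ) else 0) ≤
        ∑ p' ∈ Q, (κ * X * (1 / p * (1 / p')) + (if p = p' then κ * X * (1 / p) else 0) +
          C * Real.sqrt X) := by
      intro p hp
      rw [sum_comm]
      apply sum_le_sum
      intro p' hp'
      have hp0 : (0 : ℝ) < p := by exact_mod_cast (hQ p hp).pos
      have hp0' : (0 : ℝ) < p' := by exact_mod_cast (hQ p' hp').pos
      by_cases hpp : p = p'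
      · subst hpp
        rw [if_pos rfl]
        have e2 : ∀ z : Qd t c, (if lat p (ρ p) z ∧ lat p (ρ p) z then (1 : ℝ) else 0) =
            (if lat p (ρ p) z then (1 : ℝ) else 0) := by
          intro z
          simp
        rw [sum_congr rfl fun z _ => e2 z, hcnt]
        have := (abs_le.1 (hL X p (ρ p) hX (hQ p hp).one_lt.le)).2
        have e3 : κ * X * (1 / (p : ℝ)) = κ * X / p := by ring
        have : 0 ≤ κ * X * (1 / (p : ℝ) * (1 / p)) := by positivity
        linarith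
      · rw [if_neg hpp, add_zero]
        obtain ⟨s, hs⟩ := lat_crt (t := t) (c := c) (hQ p hp) (hQ p' hp') hpp (ρ p) (ρ p')
        have e2 : ∀ z : Qd t c, (if lat p (ρ p) z ∧ lat p' (ρ p') z then (1 : ℝ) else 0) =
            (if lat (p * p') s z then (1 : ℝ) else 0) := by
          intro z
          simp only [hs z]
        rw [sum_congr rfl fun z _ => e2 z, hcnt]
        have := (abs_le.1 (hL X (p * p') s hX
          (Nat.mul_pos (hQ p hp).pos (hQ p' hp').pos))).2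
        push_cast at this
        have e3 : κ * X * (1 / (p : ℝ) * (1 / p')) = κ * X / (p * p') := by
          field_simp
        rw [e3]
        linarith
    refine (sum_le_sum hin).trans (le_of_eq ?_)
    have e4 : ∀ p ∈ Q, ∑ p' ∈ Q, (κ * X * (1 / (p : ℝ) * (1 / p')) +
        (if p = p' then κ * X * (1 / (p : ℝ)) else 0) + C * Real.sqrt X) =
        κ * X * (1 / p) * M + κ * X * (1 / p) + Q.card * (C * Real.sqrt X) := by
      intro p hp
      rw [sum_add_distrib, sum_add_distrib, sum_const, nsmul_eq_mul, sum_ite_eq, if_pos hp,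
        hM, mul_sum]
      congr 2
      apply sum_congr rfl
      intro p' _
      ring
    rw [sum_congr rfl e4, sum_add_distrib, sum_add_distrib, sum_const, nsmul_eq_mul,
      ← sum_mul, ← mul_sum, ← hM]
    ring
  -- the variance
  have h3 : ∑ z ∈ ball η X, (f z - M) ^ 2 ≤ κ * X * M +
      C * ((Q.card : ℝ) ^ 2 + 2 * M * Q.card + M ^ 2) * Real.sqrt X := by
    have e : ∑ z ∈ ball η X, (f z - M) ^ 2 = ∑ z ∈ ball η X, f z ^ 2 -
        2 * M * ∑ z ∈ ball η X, f z + M ^ 2 * ((ball η X).card : ℝ) := by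
      have e2 : ∀ z ∈ ball η X, (f z - M) ^ 2 = f z ^ 2 - 2 * M * f z + M ^ 2 := by
        intro z _
        ring
      rw [sum_congr rfl e2, sum_add_distrib, sum_sub_distrib, ← mul_sum, sum_const, nsmul_eq_mul]
      ring
    rw [e]
    have k1 := mul_le_mul_of_nonneg_left h1 (show 0 ≤ 2 * M by positivity)
    have k2 := mul_le_mul_of_nonneg_left hcard (show 0 ≤ M ^ 2 by positivity)
    nlinarith
  have h4 : (((ball η X).filter (fun z => ∀ p ∈ Q, ¬ lat p (ρ p) z)).card : ℝ) * M ^ 2 ≤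
      ∑ z ∈ ball η X, (f z - M) ^ 2 := by
    rw [← nsmul_eq_mul, ← sum_const]
    refine le_trans (sum_le_sum fun z hz => ?_) (sum_le_sum_of_subset_of_nonneg
      (filter_subset (fun z => ∀ p ∈ Q, ¬ lat p (ρ p) z) _) fun _ _ _ => by positivity)
    rw [mem_filter] at hz
    have e : f z = 0 := by
      rw [hf]
      apply sum_eq_zero
      intro p hp
      rw [if_neg (hz.2 p hp)]
    rw [e]
    ring_nf
    exact le_rfl
  have h5 := h4.trans h3
  have hM2 : 0 < M ^ 2 := by positivity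
  rw [← le_div_iff₀ hM2] at h5
  refine h5.trans (le_of_eq ?_)
  field_simp

/-- a split prime has a root -/
lemma exists_root {p : ℕ} (hp : p.Prime) (hp2 : ¬ (p : ℤ) ∣ 2 * (t ^ 2 - 4 * c))
    (h : jacobiSym (t ^ 2 - 4 * c) p = 1) : ∃ r : ℤ, (p : ℤ) ∣ r ^ 2 - t * r + c := by
  haveI : Fact p.Prime := ⟨hp⟩
  have hpI : Prime (p : ℤ) := Nat.prime_iff_prime_int.1 hp
  rw [← jacobiSym.legendreSym.to_jacobiSym] at h
  have hD : ((t ^ 2 - 4 * c : ℤ) : ZMod p) ≠ 0 := by
    rw [ne_eq, ZMod.intCast_zmod_eq_zero_iff_dvd]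
    exact fun h' => hp2 (h'.mul_left 2)
  rw [legendreSym.eq_one_iff p hD] at h
  obtain ⟨s, hs⟩ := h
  obtain ⟨s', rfl⟩ := ZMod.intCast_surjective s
  rw [← Int.cast_mul, ZMod.intCast_eq_intCast_iff_dvd_sub] at hs
  have h2 : ¬ (p : ℤ) ∣ 2 := fun h' => hp2 (h'.mul_right _)
  have hcop : IsCoprime (p : ℤ) 2 := (hpI.irreducible.coprime_iff_not_dvd).2 h2
  obtain ⟨a, b, hab⟩ := hcop
  -- `b` is the inverse of `2`
  refine ⟨b * (t + s'), ?_⟩
  have h4 : ¬ (p : ℤ) ∣ 4 := by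
    intro h'
    have : (4 : ℤ) = 2 * 2 := by norm_num
    rw [this] at h'
    rcases hpI.dvd_or_dvd h' with h | h <;> exact h2 h
  have e : 4 * ((b * (t + s')) ^ 2 - t * (b * (t + s')) + c) =
      (2 * b * (t + s') - t) ^ 2 - (t ^ 2 - 4 * c) := by ring
  have e2 : 2 * b * (t + s') - t = s' - p * (a * (t + s')) := by linear_combination (t + s') * hab
  have h5 : (p : ℤ) ∣ 4 * ((b * (t + s')) ^ 2 - t * (b * (t + s')) + c) := by
    rw [e, e2]
    have e3 : (s' - p * (a * (t + s'))) ^ 2 - (t ^ 2 - 4 * c) = (s' * s' - (t ^ 2 - 4 * c)) +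
        p * (-2 * s' * (a * (t + s')) + p * (a * (t + s')) ^ 2) := by ring
    rw [e3]
    exact dvd_add hs (Dvd.intro _ rfl)
  exact (hpI.dvd_or_dvd h5).resolve_left h4

lemma dvd_nm_of_lat {p : ℕ} {r : ℤ} (hr : (p : ℤ) ∣ r ^ 2 - t * r + c) {z : Qd t c}
    (h : lat p r z) : p ∣ nm z := by
  rw [nm_dvd_iff]
  unfold lat at h
  unfold Pool.Agent.W84.G.Nz
  have e : z.re ^ 2 + t * z.re * z.im + c * z.im ^ 2 = (z.re + r * z.im) *
      (z.re - r * z.im + t * z.im) + (r ^ 2 - t * r + c) * z.im ^ 2 := by ring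
  rw [e]
  exact dvd_add (h.mul_right _) (hr.mul_right _)

/-- **almost all elements are rich** -/
theorem richn (U : Un t c η) {A : ℕ} (P₀ : ℕ) (hA : 0 < A)
    (h4 : 4 * (t ^ 2 - 4 * c) ∣ (A : ℤ)) {δ : ℝ} (hδ : 0 < δ) : ∃ (P : ℕ) (X₀ : ℝ), ∀ X : ℝ,
    X₀ ≤ X → (open scoped Classical in
      (((ball η X).filter (fun z => ¬ Ri A P₀ P z)).card : ℝ)) ≤ δ * X := by
  classical
  obtain ⟨C, hC, hL, -⟩ := Pool.Agent.W398.GR.lat U
  have hκ := Pool.Agent.W54.GR.kap_pos U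
  have h2A : 2 ∣ A := two_dvd_of h4
  have hAR : (0 : ℝ) < A := by exact_mod_cast hA
  set M : ℝ := 2 * kap η * A / δ with hM
  have hM0 : 0 < M := by positivity
  -- the sets of primes
  have hex : ∀ r : ℕ, ∃ Q : Finset ℕ, r.Coprime A → (∀ q ∈ Q, q.Prime ∧ (A : ℤ) ∣ (q : ℤ) - r ∧
      P₀ < q) ∧ M ≤ ∑ q ∈ Q, 1 / (q : ℝ) := by
    intro r
    by_cases hr : r.Coprime A
    · obtain ⟨Q, h1, h2⟩ := exists_QQ hA hr P₀ M
      exact ⟨Q, fun _ => ⟨h1, h2⟩⟩
    · exact ⟨∅, fun h => absurd h hr⟩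
  choose Q hQ using hex
  have hroot : ∀ p : ℕ, ∃ r : ℤ, (p.Prime ∧ ¬ (p : ℤ) ∣ 2 * (t ^ 2 - 4 * c) ∧
      jacobiSym (t ^ 2 - 4 * c) p = 1) → (p : ℤ) ∣ r ^ 2 - t * r + c := by
    intro p
    by_cases h : p.Prime ∧ ¬ (p : ℤ) ∣ 2 * (t ^ 2 - 4 * c) ∧ jacobiSym (t ^ 2 - 4 * c) p = 1
    · obtain ⟨r, hr⟩ := exists_root h.1 h.2.1 h.2.2
      exact ⟨r, fun _ => hr⟩
    · exact ⟨0, fun h' => absurd h' h⟩
  choose ρ hρ using hroot
  have hgood : ∀ r : ℕ, r.Coprime A → jacobiSym (t ^ 2 - 4 * c) r = 1 → ∀ p ∈ Q r,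
      p.Prime ∧ ¬ (p : ℤ) ∣ 2 * (t ^ 2 - 4 * c) ∧ jacobiSym (t ^ 2 - 4 * c) p = 1 := by
    intro r hr hj p hp
    obtain ⟨h1, h2, h3⟩ := (hQ r hr).1 p hp
    have hpA : Nat.Coprime p A := by
      rw [← Nat.isCoprime_iff_coprime]
      obtain ⟨k, hk⟩ := h2
      have e : (p : ℤ) = r + A * k := by linarith
      rw [e]
      exact (IsCoprime.add_mul_left_left_iff).2 (Nat.isCoprime_iff_coprime.2 hr)
    refine ⟨h1, ?_, ?_⟩
    · intro h
      have h5 : (p : ℤ) ∣ (A : ℤ) := by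
        refine h.trans (dvd_trans ⟨2, by ring⟩ h4)
      have h6 : p ∣ A := by exact_mod_cast h5
      have h7 := Nat.dvd_gcd dvd_rfl h6
      rw [hpA] at h7
      exact h1.one_lt.ne' (Nat.dvd_one.1 h7)
    · rw [jac_congr h4 (odd_of_cop h2A hpA) (odd_of_cop h2A hr) h2, hj]
  -- the bound for one class
  have hone : ∀ r : ℕ, ∃ X₀ : ℝ, r.Coprime A → jacobiSym (t ^ 2 - 4 * c) r = 1 → ∀ X : ℝ, X₀ ≤ X →
      (((ball η X).filter (fun z => ∀ p ∈ Q r, ¬ lat p (ρ p) z)).card : ℝ) ≤ δ / A * X := by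
    intro r
    by_cases hr : r.Coprime A ∧ jacobiSym (t ^ 2 - 4 * c) r = 1
    swap
    · exact ⟨0, fun h1 h2 => absurd ⟨h1, h2⟩ hr⟩
    obtain ⟨hr, hj⟩ := hr
    have hM' := (hQ r hr).2
    obtain ⟨C', hC'⟩ := few_zero hκ hC hL (Q r) (fun p hp => ((hQ r hr).1 p hp).1) ρ rfl
      (hM0.trans_le hM')
    refine ⟨max 1 ((2 * A * |C'| / δ) ^ 2), fun _ _ X hX => ?_⟩
    have hX1 : 1 ≤ X := (le_max_left _ _).trans hX
    have hX2 : (2 * A * |C'| / δ) ^ 2 ≤ X := (le_max_right _ _).trans hX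
    refine (hC' X hX1).trans ?_
    have h1 : kap η / (∑ p ∈ Q r, 1 / (p : ℝ)) * X ≤ δ / (2 * A) * X := by
      apply mul_le_mul_of_nonneg_right _ (by linarith)
      calc kap η / (∑ p ∈ Q r, 1 / (p : ℝ)) ≤ kap η / M :=
            div_le_div_of_nonneg_left hκ.le hM0 hM'
        _ = δ / (2 * A) := by
            rw [hM]
            field_simp
    have h2 : C' * Real.sqrt X ≤ δ / (2 * A) * X := by
      have h3 : 2 * A * |C'| / δ ≤ Real.sqrt X := Real.le_sqrt_of_sq_le hX2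
      have h5 : |C'| ≤ δ / (2 * A) * Real.sqrt X := by
        rw [div_le_iff₀ hδ] at h3
        have h6 : δ / (2 * A) * Real.sqrt X = (Real.sqrt X * δ) / (2 * A) := by ring
        rw [h6, le_div_iff₀ (by positivity)]
        linarith
      calc C' * Real.sqrt X ≤ |C'| * Real.sqrt X :=
            mul_le_mul_of_nonneg_right (le_abs_self _) (Real.sqrt_nonneg X)
        _ ≤ (δ / (2 * A) * Real.sqrt X) * Real.sqrt X :=
            mul_le_mul_of_nonneg_right h5 (Real.sqrt_nonneg X)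
        _ = δ / (2 * A) * X := by
            rw [mul_assoc, Real.mul_self_sqrt (by linarith)]
    have h3 : δ / A * X = δ / (2 * A) * X + δ / (2 * A) * X := by
      field_simp
      ring
    rw [h3]
    exact add_le_add h1 h2
  choose X₀ hX₀ using hone
  refine ⟨∑ r ∈ range A, ∑ p ∈ Q r, p, (∑ r ∈ range A, |X₀ r|), fun X hX => ?_⟩
  have hsub : (ball η X).filter (fun z => ¬ Ri A P₀ (∑ r ∈ range A, ∑ p ∈ Q r, p) z) ⊆
      ((range A).filter (fun r => r.Coprime A ∧ jacobiSym (t ^ 2 - 4 * c) r = 1)).biUnion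
        (fun r => (ball η X).filter (fun z => ∀ p ∈ Q r, ¬ lat p (ρ p) z)) := by
    intro z hz
    rw [mem_filter] at hz
    obtain ⟨hz, hn⟩ := hz
    unfold Ri at hn
    push Not at hn
    obtain ⟨r, hr, hj, hn⟩ := hn
    have hrA : r % A < A := Nat.mod_lt _ hA
    have hmod : (A : ℤ) ∣ ((r % A : ℕ) : ℤ) - r := by
      have h1 : (r % A) + A * (r / A) = r := Nat.mod_add_div r A
      have h2 : (r : ℤ) = (r % A : ℕ) + A * (r / A : ℕ) := by exact_mod_cast h1.symm
      exact ⟨-((r / A : ℕ) : ℤ), by linarith⟩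
    have hr' : Nat.Coprime (r % A) A := by
      rw [← Nat.isCoprime_iff_coprime]
      obtain ⟨k, hk⟩ := hmod
      have e : ((r % A : ℕ) : ℤ) = r + A * k := by linarith
      rw [e]
      exact (IsCoprime.add_mul_left_left_iff).2 (Nat.isCoprime_iff_coprime.2 hr)
    have hj' : jacobiSym (t ^ 2 - 4 * c) (r % A : ℕ) = 1 := by
      rw [jac_congr h4 (odd_of_cop h2A hr') (odd_of_cop h2A hr) hmod, hj]
    rw [mem_biUnion]
    refine ⟨r % A, mem_filter.2 ⟨mem_range.2 hrA, hr', hj'⟩, mem_filter.2 ⟨hz, fun p hp hl => ?_⟩⟩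
    obtain ⟨h1, h2, h3⟩ := (hQ _ hr').1 p hp
    have h5 := hρ p (hgood _ hr' hj' p hp)
    refine hn p h1 h3 ?_ (dvd_nm_of_lat h5 hl) ?_
    · calc p ≤ ∑ p ∈ Q (r % A), p := single_le_sum (f := fun p : ℕ => p) (fun _ _ => Nat.zero_le _) hp
        _ ≤ ∑ r ∈ range A, ∑ p ∈ Q r, p := single_le_sum (f := fun r => ∑ p ∈ Q r, p)
            (fun _ _ => Nat.zero_le _) (mem_range.2 hrA)
    · have := dvd_add h2 hmod
      rwa [sub_add_sub_cancel] at this
  have h1 := card_le_card hsub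
  have h2 : (((ball η X).filter (fun z => ¬ Ri A P₀ (∑ r ∈ range A, ∑ p ∈ Q r, p) z)).card : ℝ) ≤
      ∑ r ∈ (range A).filter (fun r => r.Coprime A ∧ jacobiSym (t ^ 2 - 4 * c) r = 1),
        (((ball η X).filter (fun z => ∀ p ∈ Q r, ¬ lat p (ρ p) z)).card : ℝ) := by
    refine (by exact_mod_cast h1 : _ ≤ ((_ : ℕ) : ℝ)).trans ?_
    exact_mod_cast card_biUnion_le
  refine h2.trans ?_
  have h3 : ∀ r ∈ (range A).filter (fun r => r.Coprime A ∧ jacobiSym (t ^ 2 - 4 * c) r = 1),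
      (((ball η X).filter (fun z => ∀ p ∈ Q r, ¬ lat p (ρ p) z)).card : ℝ) ≤ δ / A * X := by
    intro r hr
    rw [mem_filter] at hr
    apply hX₀ r hr.2.1 hr.2.2
    refine le_trans (le_trans (le_abs_self _) ?_) hX
    exact single_le_sum (f := fun r => |X₀ r|) (fun _ _ => abs_nonneg _) hr.1
  refine (sum_le_sum h3).trans ?_
  rw [sum_const, nsmul_eq_mul]
  have hX0 : 0 ≤ X := le_trans (sum_nonneg fun _ _ => abs_nonneg _) hX
  have h5 : (((range A).filter (fun r => r.Coprime A ∧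
      jacobiSym (t ^ 2 - 4 * c) r = 1)).card : ℝ) ≤ A := by
    have := card_filter_le (range A) (fun r => r.Coprime A ∧ jacobiSym (t ^ 2 - 4 * c) r = 1)
    rw [card_range] at this
    exact_mod_cast this
  calc (((range A).filter (fun r => r.Coprime A ∧ jacobiSym (t ^ 2 - 4 * c) r = 1)).card : ℝ) *
      (δ / A * X) ≤ A * (δ / A * X) := mul_le_mul_of_nonneg_right h5 (by positivity)
    _ = δ * X := by field_simp

end Pool.Agent.L5helper2.TW
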