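import Pool.Agent.L5helper2.TW.PQ
import Pool.Agent.L5helper2.TW.Rich

/-!
Project TW (helper2): the members of the good pairs can be chosen rich.
-/

set_option autoImplicit false

namespace Pool.Agent.L5helper2.TW

open Finset
open Pool.Agent.W78.GR hiding GG PE S_MOM0 S_MOMP S_MOM S_CELLE S_DEC S_MR
open Pool.Agent.W84.G (Nz Ri)

variable {t c : ℤ} {q : ℕ} {η : (Qd t c)ˣ}

lemma Bx.tp {b B Y : ℝ} (hb : 0 < b) (hY : 0 < Y) {z : Qd t c} (h : Bx b B Y z) : tp z := by
  have hs : 0 < Real.sqrt Y := Real.sqrt_pos.2 hY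
  exact ⟨(mul_pos hb hs).trans_le h.1, (mul_pos hb hs).trans_le h.2.2.1⟩

lemma Bx.nm_le (hd : 4 * c < t ^ 2) {b B Y : ℝ} (hb : 0 < b) (hY : 0 < Y) {z : Qd t c}
    (h : Bx b B Y z) : (nm z : ℝ) ≤ B ^ 2 * Y := by
  have htp := h.tp hb hY
  have hs : 0 < Real.sqrt Y := Real.sqrt_pos.2 hY
  rw [nm_tp hd htp]
  have e : B ^ 2 * Y = (B * Real.sqrt Y) * (B * Real.sqrt Y) := by
    have := Real.mul_self_sqrt hY.le
    calc B ^ 2 * Y = B ^ 2 * (Real.sqrt Y * Real.sqrt Y) := by rw [this]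
      _ = _ := by ring
  rw [e]
  exact mul_le_mul h.2.1 h.2.2.2 htp.2.le (htp.1.le.trans h.2.1)

lemma Bx.B_pos {b B Y : ℝ} (_hb : 0 < b) (hY : 0 < Y) {z : Qd t c} (h : Bx b B Y z) : b ≤ B := by
  have hs : 0 < Real.sqrt Y := Real.sqrt_pos.2 hY
  exact le_of_mul_le_mul_right (h.1.trans h.2.1) hs

lemma Bx.ang_le (U : Un t c η) {b B Y : ℝ} (hb : 0 < b) (hY : 0 < Y) {z : Qd t c}
    (h : Bx b B Y z) : |ang η z| ≤ Real.pi / rg η * Real.log (B / b) := by
  have htp := h.tp hb hY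
  have hs : 0 < Real.sqrt Y := Real.sqrt_pos.2 hY
  have hB := h.B_pos hb hY
  have hR := U.rg_pos
  have hc : 0 < Real.pi / rg η := div_pos Real.pi_pos hR
  unfold ang
  rw [abs_mul, abs_of_pos hc]
  apply mul_le_mul_of_nonneg_left _ hc.le
  have h1 : s1 z / s2 z ≤ B / b := by
    rw [div_le_div_iff₀ htp.2 hb]
    calc s1 z * b ≤ (B * Real.sqrt Y) * b := mul_le_mul_of_nonneg_right h.2.1 hb.le
      _ = B * (b * Real.sqrt Y) := by ring
      _ ≤ B * s2 z := mul_le_mul_of_nonneg_left h.2.2.1 (by linarith)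
  have h2 : s2 z / s1 z ≤ B / b := by
    rw [div_le_div_iff₀ htp.1 hb]
    calc s2 z * b ≤ (B * Real.sqrt Y) * b := mul_le_mul_of_nonneg_right h.2.2.2 hb.le
      _ = B * (b * Real.sqrt Y) := by ring
      _ ≤ B * s1 z := mul_le_mul_of_nonneg_left h.1 (by linarith)
  have p1 : 0 < s1 z / s2 z := div_pos htp.1 htp.2
  have p2 : 0 < s2 z / s1 z := div_pos htp.2 htp.1
  rw [abs_le]
  constructor
  · have h3 := Real.log_le_log p2 h2
    have h4 : Real.log (s2 z / s1 z) = -Real.log (s1 z / s2 z) := by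
      rw [← Real.log_inv, inv_div]
    linarith
  · exact Real.log_le_log p1 h1

/-- counting in the box through the fundamental domain -/
lemma box_count (U : Un t c η) {b B : ℝ} (hb : 0 < b) : ∃ W : ℕ, ∀ (Y : ℝ), 0 < Y →
    ∀ (R : Qd t c → Prop), (∀ z w, nm z = nm w → (R z ↔ R w)) → ∀ S : Finset (Qd t c),
    (∀ z ∈ S, Bx b B Y z ∧ R z) → (open scoped Classical in
      S.card ≤ ((ball η (B ^ 2 * Y)).filter R).card * W) := by
  classical
  set Θ : ℝ := Real.pi / rg η * Real.log (B / b) / (2 * Real.pi) with hΘ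
  set N : ℤ := ⌈|Θ|⌉ + 1 with hN
  refine ⟨(Icc (-N) N).card, fun Y hY R hR S hS => ?_⟩
  rw [← card_product]
  apply card_le_card_of_injOn (fun z => (rep η z, ex η z))
  · intro z hz
    obtain ⟨h1, h2⟩ := hS z hz
    have htp := h1.tp hb hY
    rw [mem_coe, mem_product, mem_filter, U.mem_ball]
    refine ⟨⟨⟨U.rep_fd htp, ?_⟩, (hR _ _ (Un.nm_rep z)).2 h2⟩, ?_⟩
    · simp only
      rw [Un.nm_rep]
      exact h1.nm_le U.disc hb hY
    · have h3 := h1.ang_le U hb hY
      have hpi : 0 < 2 * Real.pi := by positivity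
      have h4 : |ang η z / (2 * Real.pi)| ≤ |Θ| := by
        rw [abs_div, abs_of_pos hpi]
        refine le_trans ?_ (le_abs_self Θ)
        rw [hΘ]
        exact div_le_div_of_nonneg_right h3 hpi.le
      obtain ⟨h5, h6⟩ := abs_le.1 h4
      have h7 := Int.floor_le (ang η z / (2 * Real.pi))
      have h8 := Int.lt_floor_add_one (ang η z / (2 * Real.pi))
      have h9 := Int.le_ceil |Θ|
      simp only [ex, mem_Icc]
      constructor
      · have : (⌊ang η z / (2 * Real.pi)⌋ : ℝ) ≤ ⌈|Θ|⌉ := by linarith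
        have : ⌊ang η z / (2 * Real.pi)⌋ ≤ ⌈|Θ|⌉ := by exact_mod_cast this
        omega
      · have : -(⌊ang η z / (2 * Real.pi)⌋ : ℝ) ≤ ⌈|Θ|⌉ + 1 := by linarith
        have : -⌊ang η z / (2 * Real.pi)⌋ ≤ ⌈|Θ|⌉ + 1 := by exact_mod_cast this
        omega
  · intro z hz w hw h
    simp only [Prod.mk.injEq] at h
    obtain ⟨h1, h2⟩ := h
    unfold rep at h1
    rw [h2] at h1
    have := congrArg (fun x => ((η ^ (-(ex η w)) : (Qd t c)ˣ) : Qd t c) * x) h1
    simp only [← mul_assoc, ← Units.val_mul, ← zpow_add, neg_add_cancel, zpow_zero,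
      Units.val_one, one_mul] at this
    exact this

/-- elements with bounded embeddings -/
lemma fin_box (hd : 4 * c < t ^ 2) (M : ℝ) : ∃ W : ℕ, ∀ S : Finset (Qd t c),
    (∀ z ∈ S, |s1 z| ≤ M ∧ |s2 z| ≤ M) → S.card ≤ W := by
  classical
  set N : ℤ := ⌈(|(t : ℝ)| + 2) * |M|⌉ with hN
  refine ⟨((Icc (-N) N) ×ˢ (Icc (-N) N)).card, fun S hS => ?_⟩
  apply card_le_card_of_injOn (fun z => (z.re, z.im))
  · intro z hz
    obtain ⟨h1, h2⟩ := hS z hz
    have hM0 : 0 ≤ M := (abs_nonneg _).trans h1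
    have hr1 : (1 : ℝ) ≤ Real.sqrt ((t : ℝ) ^ 2 - 4 * c) := by
      rw [Real.one_le_sqrt]
      have : (1 : ℤ) ≤ t ^ 2 - 4 * c := by omega
      exact_mod_cast this
    have e1 : s1 z - s2 z = z.im * Real.sqrt ((t : ℝ) ^ 2 - 4 * c) := by
      unfold s1 s2; ring
    have e2 : s1 z + s2 z = 2 * z.re + t * z.im := by
      unfold s1 s2; ring
    have h3 : |(z.im : ℝ)| ≤ 2 * M := by
      have h4 : |s1 z - s2 z| ≤ 2 * M := (abs_sub _ _).trans (by linarith)
      rw [e1, abs_mul, abs_of_nonneg (by linarith : (0 : ℝ) ≤ Real.sqrt ((t : ℝ) ^ 2 - 4 * c))]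
        at h4
      nlinarith [abs_nonneg (z.im : ℝ)]
    have h5 : |(z.re : ℝ)| ≤ (|(t : ℝ)| + 1) * M := by
      have h6 : (2 : ℝ) * z.re = (s1 z + s2 z) - t * z.im := by rw [e2]; ring
      have h7 : |2 * (z.re : ℝ)| ≤ 2 * M + |(t : ℝ)| * (2 * M) := by
        rw [h6]
        refine (abs_sub _ _).trans (add_le_add ((abs_add_le _ _).trans (by linarith)) ?_)
        rw [abs_mul]
        exact mul_le_mul_of_nonneg_left h3 (abs_nonneg _)
      rw [abs_mul, abs_two] at h7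
      nlinarith
    have hK := Int.le_ceil ((|(t : ℝ)| + 2) * |M|)
    rw [abs_of_nonneg hM0] at hK
    have ht0 := abs_nonneg (t : ℝ)
    rw [mem_coe, mem_product, mem_Icc, mem_Icc]
    have k1 : |(z.re : ℝ)| ≤ N := by
      rw [hN, abs_of_nonneg hM0]
      refine h5.trans (le_trans ?_ hK)
      nlinarith
    have k2 : |(z.im : ℝ)| ≤ N := by
      rw [hN, abs_of_nonneg hM0]
      refine h3.trans (le_trans ?_ hK)
      nlinarith
    obtain ⟨k3, k4⟩ := abs_le.1 k1
    obtain ⟨k5, k6⟩ := abs_le.1 k2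
    refine ⟨⟨?_, ?_⟩, ⟨?_, ?_⟩⟩
    · exact_mod_cast k3
    · exact_mod_cast k4
    · exact_mod_cast k5
    · exact_mod_cast k6
  · intro z _ w _ h
    simp only [Prod.mk.injEq] at h
    exact QuadraticAlgebra.ext h.1 h.2

/-- every element has few partners -/
lemma partners {b B : ℝ} (hb : 0 < b) (T : ℕ) : ∃ W : ℕ, ∀ (Y : ℝ) (y : Qd t c)
    (S : Finset (Qd t c)), 0 < Y → prim y → Bx b B Y y →
    (∀ x ∈ S, Bx b B Y x ∧ 0 < dt x y ∧ dt x y ≤ T) → S.card ≤ W := by
  classical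
  refine ⟨((Icc (1 : ℤ) T) ×ˢ (Icc (0 : ℤ) ⌈B / b⌉)).card, fun Y y S hY hy hby hS => ?_⟩
  have hs : 0 < Real.sqrt Y := Real.sqrt_pos.2 hY
  have hty := hby.tp hb hY
  apply card_le_card_of_injOn (fun x => (dt x y, ⌊s1 x / s1 y⌋))
  · intro x hx
    obtain ⟨h1, h2, h3⟩ := hS x hx
    have htx := h1.tp hb hY
    rw [mem_coe, mem_product, mem_Icc, mem_Icc]
    refine ⟨⟨by simp only; omega, h3⟩, ?_, ?_⟩
    · simp only
      rw [Int.floor_nonneg]
      exact (div_pos htx.1 hty.1).le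
    · simp only
      have h4 : s1 x / s1 y ≤ B / b := by
        rw [div_le_div_iff₀ hty.1 hb]
        have hB := h1.B_pos hb hY
        calc s1 x * b ≤ (B * Real.sqrt Y) * b := mul_le_mul_of_nonneg_right h1.2.1 hb.le
          _ = B * (b * Real.sqrt Y) := by ring
          _ ≤ B * s1 y := mul_le_mul_of_nonneg_left hby.1 (by linarith)
      have h5 := Int.floor_le (s1 x / s1 y)
      have h6 := Int.le_ceil (B / b)
      have : ((⌊s1 x / s1 y⌋ : ℤ) : ℝ) ≤ ((⌈B / b⌉ : ℤ) : ℝ) := by linarith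
      exact_mod_cast this
  · intro x hx x' hx' h
    simp only [Prod.mk.injEq] at h
    obtain ⟨h1, h2⟩ := h
    -- `x - x' = m y`
    have h3 : dt (x - x') y = 0 := by
      have : dt (x - x') y = dt x y - dt x' y := by
        unfold dt
        simp only [QuadraticAlgebra.re_sub, QuadraticAlgebra.im_sub]
        ring
      rw [this, h1, sub_self]
    obtain ⟨a, b', hab⟩ : ∃ a b' : ℤ, a * y.re + b' * y.im = 1 := by
      have h1 := Int.gcd_eq_gcd_ab y.re y.im
      unfold prim at hy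
      rw [hy] at h1
      exact ⟨Int.gcdA y.re y.im, Int.gcdB y.re y.im, by push_cast at h1; linarith⟩
    set d := x - x' with hdd
    set m : ℤ := a * d.re + b' * d.im with hm
    have h4 : d.re * y.im - d.im * y.re = 0 := h3
    have e1 : d.re = m * y.re := by
      rw [hm]
      linear_combination (-d.re) * hab + b' * h4
    have e2 : d.im = m * y.im := by
      rw [hm]
      linear_combination (-d.im) * hab - a * h4
    have h5 : s1 x - s1 x' = m * s1 y := by
      have h6 : s1 d = s1 x - s1 x' := by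
        rw [hdd]
        unfold s1
        simp only [QuadraticAlgebra.re_sub, QuadraticAlgebra.im_sub]
        push_cast
        ring
      rw [← h6]
      unfold s1
      rw [e1, e2]
      push_cast
      ring
    have h7 : |s1 x / s1 y - s1 x' / s1 y| < 1 := Int.abs_sub_lt_one_of_floor_eq_floor h2
    rw [← sub_div, h5, mul_div_assoc, div_self hty.1.ne', mul_one] at h7
    have h8 : |m| < 1 := by exact_mod_cast h7
    have h9 : m = 0 := Int.abs_lt_one_iff.1 h8
    rw [h9, zero_mul] at e1 e2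
    have : d = 0 := QuadraticAlgebra.ext e1 e2
    rw [hdd] at this
    exact sub_eq_zero.1 this

lemma Ri_congr {A P₀ P : ℕ} (z w : Qd t c) (h : nm z = nm w) : Ri A P₀ P z ↔ Ri A P₀ P w := by
  unfold Ri
  rw [h]

/-- **many pairs** with a rich second member -/
theorem pairs_rich (hd : 4 * c < t ^ 2) (hns : ¬ IsSquare (t ^ 2 - 4 * c)) (hq : 1 ≤ q)
    (h4 : 4 * (t ^ 2 - 4 * c) ∣ (q : ℤ)) {g : ℤ} (hg : g = 1 ∨ g = -1) :
    ∃ (T : ℕ) (b B : ℝ), 0 < b ∧ b ≤ B ∧ ∀ P₀ : ℕ, ∃ (P : ℕ) (ε Y₀ : ℝ), 0 < ε ∧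
      ∀ Y : ℝ, Y₀ ≤ Y → ∃ S : Finset (Qd t c × Qd t c), ε * Y ≤ (S.card : ℝ) ∧
        ∀ e ∈ S, Pr q g T b B Y e ∧ Ri (q * T.factorial) P₀ P e.2 := by
  classical
  obtain ⟨T, b, B, ε, Y₀, hb, hε, h⟩ := pairs_g hd hns hq h4 hg
  have hB : b ≤ B := by
    obtain ⟨S, hS1, hS2⟩ := h (max Y₀ 1) (le_max_left _ _)
    have h1 : 0 < max Y₀ 1 := lt_max_of_lt_right one_pos
    have h2 : 0 < (S.card : ℝ) := (mul_pos hε h1).trans_le hS1
    have h3 : 0 < S.card := by exact_mod_cast h2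
    obtain ⟨e, he⟩ := card_pos.1 h3
    exact (hS2 e he).b1.B_pos hb h1
  have hB0 : 0 < B := hb.trans_le hB
  refine ⟨T, b, B, hb, hB, fun P₀ => ?_⟩
  obtain ⟨η, U⟩ := Pool.Agent.W376.GR.unit hd hns
  obtain ⟨W₁, hW₁⟩ := box_count U (B := B) hb
  obtain ⟨W₂, hW₂⟩ := partners (t := t) (c := c) (B := B) hb T
  have hA : 0 < q * T.factorial := Nat.mul_pos hq (Nat.factorial_pos T)
  have h4A : 4 * (t ^ 2 - 4 * c) ∣ ((q * T.factorial : ℕ) : ℤ) := by
    push_cast
    exact h4.mul_right _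
  set δ : ℝ := ε / (2 * (W₁ + 1) * (W₂ + 1) * B ^ 2) with hδ
  have hδ0 : 0 < δ := by positivity
  obtain ⟨P, X₀, hP⟩ := richn U P₀ hA h4A hδ0
  refine ⟨P, ε / 2, max (max Y₀ 1) (X₀ / B ^ 2), by positivity, fun Y hY => ?_⟩
  have g1 : Y₀ ≤ Y := (le_max_left _ _).trans ((le_max_left _ _).trans hY)
  have g2 : 1 ≤ Y := (le_max_right _ _).trans ((le_max_left _ _).trans hY)
  have g3 : X₀ ≤ B ^ 2 * Y := by
    have := (le_max_right _ _).trans hY
    rw [div_le_iff₀ (by positivity)] at this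
    linarith
  have hY0 : 0 < Y := by linarith
  obtain ⟨S, hS1, hS2⟩ := h Y g1
  refine ⟨S.filter (fun e => Ri (q * T.factorial) P₀ P e.2), ?_, fun e he => ?_⟩
  swap
  · rw [mem_filter] at he
    exact ⟨hS2 e he.1, he.2⟩
  -- the bad pairs
  set Bd := S.filter (fun e => ¬ Ri (q * T.factorial) P₀ P e.2) with hBd
  have k1 : Bd.card ≤ W₂ * (Bd.image Prod.snd).card := by
    apply card_le_mul_card_image
    intro y hy
    obtain ⟨e, he, hey⟩ := mem_image.1 hy
    have he' := hS2 e (mem_filter.1 he).1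
    have k2 : (Bd.filter (fun e => e.2 = y)).card = ((Bd.filter (fun e => e.2 = y)).image
        Prod.fst).card := by
      symm
      apply card_image_of_injOn
      intro a ha a' ha' haa
      rw [mem_coe, mem_filter] at ha ha'
      exact Prod.ext haa (ha.2.trans ha'.2.symm)
    rw [k2]
    apply hW₂ Y y _ hY0
    · rw [← hey]; exact he'.pr2
    · rw [← hey]; exact he'.b2
    · intro x hx
      obtain ⟨f, hf, rfl⟩ := mem_image.1 hx
      rw [mem_filter] at hf
      have hf' := hS2 f (mem_filter.1 hf.1).1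
      rw [← hf.2]
      exact ⟨hf'.b1, hf'.dt0, hf'.dt1⟩
  have k2 : (Bd.image Prod.snd).card ≤
      ((ball η (B ^ 2 * Y)).filter (fun z => ¬ Ri (q * T.factorial) P₀ P z)).card * W₁ := by
    have k := hW₁ Y hY0 (fun z => ¬ Ri (q * T.factorial) P₀ P z)
      (fun z w hzw => not_congr (Ri_congr z w hzw)) (Bd.image Prod.snd) (by
        intro y hy
        obtain ⟨e, he, rfl⟩ := mem_image.1 hy
        rw [mem_filter] at he
        exact ⟨(hS2 e he.1).b2, he.2⟩)
    convert k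
  have k3 := hP (B ^ 2 * Y) g3
  have k4 : (Bd.card : ℝ) ≤ ε / 2 * Y := by
    have k5 : (Bd.card : ℝ) ≤ W₂ * ((((ball η (B ^ 2 * Y)).filter
        (fun z => ¬ Ri (q * T.factorial) P₀ P z)).card : ℝ) * W₁) := by
      have := k1.trans (Nat.mul_le_mul_left W₂ k2)
      exact_mod_cast this
    refine k5.trans ?_
    calc (W₂ : ℝ) * ((((ball η (B ^ 2 * Y)).filter
        (fun z => ¬ Ri (q * T.factorial) P₀ P z)).card : ℝ) * W₁)
        ≤ (W₂ + 1) * ((δ * (B ^ 2 * Y)) * (W₁ + 1)) := by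
          apply mul_le_mul (by linarith) _ (by positivity) (by positivity)
          exact mul_le_mul k3 (by linarith) (by positivity) (by positivity)
      _ = ε / 2 * Y := by
          rw [hδ]
          field_simp
  have k6 : (S.card : ℝ) = ((S.filter (fun e => Ri (q * T.factorial) P₀ P e.2)).card : ℝ) +
      (Bd.card : ℝ) := by
    rw [hBd]
    exact_mod_cast (card_filter_add_card_filter_not (s := S)
      (fun e => Ri (q * T.factorial) P₀ P e.2)).symm
  linarith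

end Pool.Agent.L5helper2.TW
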