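import Pool.Agent.L5helper2.TW.Near
import Pool.Agent.W78.GR.SC
import Pool.Agent.W398.GR.Lat

/-!
Project TW (helper2): many pairs of small determinant with different signs in a colour, from the
Matomaki-Radziwill theorem for the Liouville function restricted to the colour.
-/

set_option autoImplicit false

namespace Pool.Agent.L5helper2.TW

open Finset Filter
open Pool.Agent.H376R2.MR (Fj FK Fj_nonneg Fj_le Fj_le_sq)
open Pool.Agent.W78.GR hiding GG PE S_MOM0 S_MOMP S_MOM S_CELLE S_DEC S_MR rsum_eq rsum_le low_bound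
open Pool.Agent.W78.GA (bg_nonneg bg_le)
open Pool.Agent.W54.GR (rj rd abs_rd_le Fj_rd exists_primpart dt_zero_tp sd_two abs_sinh_le
  geom_half geom_quarter pt_bound)

variable {t c : ℤ} {η : (Qd t c)ˣ}

/-- the far part of the sum over the pairs -/
lemma far_sum (U : Un t c η) {C CL : ℝ} (hC : 0 < C)
    (hS : ∀ (X δ θ : ℝ), 1 ≤ X → 0 ≤ δ → δ ≤ Real.pi → (open scoped Classical in
      (((pball η X).filter (fun z => ∃ j : ℤ, |ang η z - θ + 2 * Real.pi * j| ≤ δ)).card : ℝ)) ≤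
      C * (X * δ + 1))
    (hCL : 0 < CL)
    (hL : ∀ (X : ℝ) (d : ℕ) (r : ℤ), 1 ≤ X → 1 ≤ d → (open scoped Classical in
      |(((ball η X).filter (lat d r)).card : ℝ) - kap η * X / d| ≤ CL * Real.sqrt X))
    {u : Qd t c} (hu : tp u) {X T : ℝ} {K : ℕ} (hX : 1 ≤ X) (hT : 1 ≤ T) (hK : 1 ≤ K) :
    ∑ z ∈ pball η X, ∑ z' ∈ pball η X,
      ∑ j ∈ range (K + 2), (if |rd (ang η z - ang η (u * z'))| ≤ 2 ^ (j + 1) * T / K then
        Real.pi ^ 2 * K / (T ^ 2) * (1 / 4) ^ j else 0) ≤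
      (kap η + CL) * (8 * C * Real.pi ^ 2) * (X ^ 2 / T + X * K / T ^ 2) := by
  classical
  have hpi := Real.pi_pos
  have hkap := kap_pos U
  have hX0 : 0 < X := by linarith
  have hT0 : 0 < T := by linarith
  have hKR : (1 : ℝ) ≤ K := by exact_mod_cast hK
  have hK0 : (0 : ℝ) < K := by linarith
  set r : Qd t c → Qd t c → ℝ := fun z z' => rd (ang η z - ang η (u * z')) with hr
  have hone : ∀ z ∈ pball η X, ∑ z' ∈ pball η X,
      ∑ j ∈ range (K + 2), (if |r z z'| ≤ 2 ^ (j + 1) * T / K then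
        Real.pi ^ 2 * K / (T ^ 2) * (1 / 4) ^ j else 0) ≤
      8 * C * Real.pi ^ 2 * (X / T + K / T ^ 2) := by
    intro z _
    rw [Finset.sum_comm]
    have hj : ∀ j ∈ range (K + 2), ∑ z' ∈ pball η X, (if |r z z'| ≤ 2 ^ (j + 1) * T / K then
        Real.pi ^ 2 * K / (T ^ 2) * (1 / 4) ^ j else 0) ≤
        2 * C * Real.pi ^ 2 * X / T * (1 / 2) ^ j + C * Real.pi ^ 2 * K / T ^ 2 * (1 / 4) ^ j := by
      intro j _
      rw [← Finset.sum_filter, Finset.sum_const, nsmul_eq_mul]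
      set δ := min Real.pi (2 ^ (j + 1) * T / K) with hδd
      have hδ0 : 0 ≤ δ := le_min hpi.le (by positivity)
      have hsub : (pball η X).filter (fun z' => |r z z'| ≤ 2 ^ (j + 1) * T / K) ⊆
          (pball η X).filter (fun z' => ∃ m : ℤ,
            |ang η z' - (ang η z - ang η u) + 2 * Real.pi * m| ≤ δ) := by
        intro z' hz'
        rw [mem_filter] at hz' ⊢
        refine ⟨hz'.1, ?_⟩
        have hz2 := (U.mem_pball.1 hz'.1).1.1
        refine ⟨rj (ang η z - ang η (u * z')), ?_⟩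
        have e1 : ang η z' - (ang η z - ang η u) +
            2 * Real.pi * ((rj (ang η z - ang η (u * z')) : ℤ) : ℝ) = -(r z z') := by
          rw [hr]
          simp only
          unfold rd
          have e2 := ang_mul (η := η) U.disc hu hz2
          linarith
        rw [e1, abs_neg]
        exact le_min (abs_rd_le _) hz'.2
      have h1 : (((pball η X).filter (fun z' => |r z z'| ≤ 2 ^ (j + 1) * T / K)).card : ℝ) ≤
          C * (X * (2 ^ (j + 1) * T / K) + 1) := by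
        have h2 := hS X δ (ang η z - ang η u) hX hδ0 (min_le_left _ _)
        have h3 : (((pball η X).filter (fun z' => |r z z'| ≤ 2 ^ (j + 1) * T / K)).card : ℝ) ≤
            (((pball η X).filter (fun z' => ∃ m : ℤ,
              |ang η z' - (ang η z - ang η u) + 2 * Real.pi * m| ≤ δ)).card : ℝ) := by
          exact_mod_cast Finset.card_le_card hsub
        have h4 : C * (X * δ + 1) ≤ C * (X * (2 ^ (j + 1) * T / K) + 1) := by
          apply mul_le_mul_of_nonneg_left _ hC.le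
          have := mul_le_mul_of_nonneg_left (min_le_right Real.pi (2 ^ (j + 1) * T / K)) hX0.le
          linarith
        exact h3.trans (h2.trans h4)
      calc _ ≤ C * (X * (2 ^ (j + 1) * T / K) + 1) * (Real.pi ^ 2 * K / T ^ 2 * (1 / 4) ^ j) :=
            mul_le_mul_of_nonneg_right h1 (by positivity)
        _ = 2 * C * Real.pi ^ 2 * X / T * (1 / 2) ^ j +
            C * Real.pi ^ 2 * K / T ^ 2 * (1 / 4) ^ j := by
            have e1 : (2 : ℝ) ^ (j + 1) * (1 / 4) ^ j = 2 * (1 / 2) ^ j := by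
              rw [pow_succ, mul_comm ((2 : ℝ) ^ j) 2, mul_assoc, ← mul_pow]; norm_num
            have e2 : C * (X * (2 ^ (j + 1) * T / K) + 1) *
                (Real.pi ^ 2 * K / T ^ 2 * (1 / 4) ^ j) =
                C * X * Real.pi ^ 2 / T * (2 ^ (j + 1) * (1 / 4) ^ j) +
                  C * Real.pi ^ 2 * K / T ^ 2 * (1 / 4) ^ j := by
              field_simp
            rw [e2, e1]; ring
    refine (Finset.sum_le_sum hj).trans ?_
    rw [Finset.sum_add_distrib, ← Finset.mul_sum, ← Finset.mul_sum]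
    have g1 := mul_le_mul_of_nonneg_left (geom_half (K + 2))
      (by positivity : 0 ≤ 2 * C * Real.pi ^ 2 * X / T)
    have g2 := mul_le_mul_of_nonneg_left (geom_quarter (K + 2))
      (by positivity : 0 ≤ C * Real.pi ^ 2 * K / T ^ 2)
    have g3 : 0 ≤ C * Real.pi ^ 2 * X / T := by positivity
    have g4 : 0 ≤ C * Real.pi ^ 2 * K / T ^ 2 := by positivity
    calc _ ≤ 2 * C * Real.pi ^ 2 * X / T * 2 + C * Real.pi ^ 2 * K / T ^ 2 * 2 :=
          add_le_add g1 g2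
      _ = 4 * (C * Real.pi ^ 2 * X / T) + 2 * (C * Real.pi ^ 2 * K / T ^ 2) := by ring
      _ ≤ 8 * (C * Real.pi ^ 2 * X / T) + 8 * (C * Real.pi ^ 2 * K / T ^ 2) := by linarith
      _ = 8 * C * Real.pi ^ 2 * (X / T + K / T ^ 2) := by ring
  refine (Finset.sum_le_sum hone).trans ?_
  rw [Finset.sum_const, nsmul_eq_mul]
  have hcard : ((pball η X).card : ℝ) ≤ (kap η + CL) * X := by
    have h1 : ((pball η X).card : ℝ) ≤ ((ball η X).card : ℝ) := by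
      exact_mod_cast Finset.card_le_card (Finset.filter_subset _ _)
    have hL1 := hL X 1 0 hX le_rfl
    rw [filter_true_of_mem (by intro z _; unfold lat; simp)] at hL1
    have h2 := (abs_le.1 hL1).2
    rw [Nat.cast_one, div_one] at h2
    have h3 : Real.sqrt X ≤ X := by
      rw [Real.sqrt_le_left hX0.le]
      nlinarith
    have h4 := mul_le_mul_of_nonneg_left h3 hCL.le
    linarith
  calc ((pball η X).card : ℝ) * (8 * C * Real.pi ^ 2 * (X / T + K / T ^ 2))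
      ≤ (kap η + CL) * X * (8 * C * Real.pi ^ 2 * (X / T + K / T ^ 2)) :=
        mul_le_mul_of_nonneg_right hcard (by positivity)
    _ = (kap η + CL) * (8 * C * Real.pi ^ 2) * (X ^ 2 / T + X * K / T ^ 2) := by ring

open scoped Classical in
/-- the weight of the colour -/
noncomputable def Ac (Pc : Qd t c → Prop) (Y : ℝ) (z : Qd t c) : ℝ := if Pc z then bg Y z else 0

/-- the angular polynomial of the colour -/
noncomputable def A1c (η : (Qd t c)ˣ) (Pc : Qd t c → Prop) (Y : ℝ) (k : ℤ) : ℂ :=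
  DPG η (pball η (Real.exp 1 * Y)) (fun z => ((Ac Pc Y z : ℝ) : ℂ)) k

lemma Ac_nonneg (Pc : Qd t c → Prop) (Y : ℝ) (z : Qd t c) : 0 ≤ Ac Pc Y z := by
  unfold Ac
  split_ifs
  · exact bg_nonneg Y z
  · exact le_rfl

lemma rsum_eq_c (U : Un t c η) {Pc : Qd t c → Prop} {F : Qd t c → ℤ}
    (hF : ∀ z, F z = (open scoped Classical in if Pc z then gl z else 0)) (Y : ℝ) {u : Qd t c}
    (hu : tp u) (K : ℕ) :
    ∑ z ∈ pball η (Real.exp 1 * Y), ∑ z' ∈ pball η (Real.exp 1 * Y),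
      Ac Pc Y z * Ac Pc Y z' * (1 - (gl z : ℝ) * (gl (u * z') : ℝ)) *
        Fj K (ang η z - ang η (u * z')) =
    ∑ k ∈ FK K, (1 - |(k : ℝ)| / K) * ((ps η k u).re *
      (‖A1c η Pc Y k‖ ^ 2 - (gl u : ℝ) * ‖GGt η F Y k‖ ^ 2)) := by
  set s := pball η (Real.exp 1 * Y) with hs
  have hs0 : ∀ z ∈ s, tp z := fun z hz => pball_tp U hz
  have h1 := dsum_eq U s hs0 (Ac Pc Y) (Ac Pc Y) hu K
  have h2 := dsum_eq U s hs0 (fun z => (gl z : ℝ) * Ac Pc Y z) (fun z => (gl z : ℝ) * Ac Pc Y z)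
    hu K
  have h3 : ∑ z ∈ s, ∑ z' ∈ s,
      Ac Pc Y z * Ac Pc Y z' * (1 - (gl z : ℝ) * (gl (u * z') : ℝ)) *
        Fj K (ang η z - ang η (u * z')) =
      ∑ z ∈ s, ∑ z' ∈ s, Ac Pc Y z * Ac Pc Y z' * Fj K (ang η z - ang η (u * z')) -
      (gl u : ℝ) * ∑ z ∈ s, ∑ z' ∈ s, ((gl z : ℝ) * Ac Pc Y z) * ((gl z' : ℝ) * Ac Pc Y z') *
        Fj K (ang η z - ang η (u * z')) := by
    rw [mul_sum, ← sum_sub_distrib]
    refine sum_congr rfl fun z hz => ?_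
    rw [mul_sum, ← sum_sub_distrib]
    refine sum_congr rfl fun z' hz' => ?_
    rw [gl_mul U.nsq (tp_ne_zero hu) (tp_ne_zero (hs0 z' hz'))]
    push_cast
    ring
  rw [h3, h1, h2, mul_sum, ← sum_sub_distrib]
  refine sum_congr rfl fun k _ => ?_
  have h4 : ∀ D : ℂ, (D * (starRingEnd ℂ) D * (starRingEnd ℂ) (ps η k u)).re =
      (ps η k u).re * ‖D‖ ^ 2 := by
    intro D
    rw [Complex.mul_conj, Complex.normSq_eq_norm_sq, Complex.re_ofReal_mul, Complex.conj_re]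
    ring
  have h5 : DPG η s (fun z => (((gl z : ℝ) * Ac Pc Y z : ℝ) : ℂ)) k = GGt η F Y k := by
    unfold GGt
    congr 1
    funext z
    rw [hF]
    unfold Ac
    split_ifs <;> push_cast <;> ring
  have h6 : DPG η s (fun z => ((Ac Pc Y z : ℝ) : ℂ)) k = A1c η Pc Y k := rfl
  rw [h4, h4, h5, h6]
  ring

lemma low_bound_c {Pc : Qd t c → Prop} {F : Qd t c → ℤ} (Y : ℝ) {u₀ : Qd t c}
    (hgu : gl u₀ = -1) {K : ℕ} (hKpos : (0 : ℝ) < K) :
    2 * ‖A1c η Pc Y 0‖ ^ 2 ≤ ∑ k ∈ FK K, (1 - |(k : ℝ)| / K) * ((ps η k (1 : Qd t c)).re *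
      (‖A1c η Pc Y k‖ ^ 2 - (gl (1 : Qd t c) : ℝ) * ‖GGt η F Y k‖ ^ 2)) +
      ∑ k ∈ FK K, (1 - |(k : ℝ)| / K) * ((ps η k u₀).re *
      (‖A1c η Pc Y k‖ ^ 2 - (gl u₀ : ℝ) * ‖GGt η F Y k‖ ^ 2)) +
      2 * ∑ k ∈ (FK K).erase 0, ‖GGt η F Y k‖ ^ 2 := by
  have hKn : 1 ≤ K := by exact_mod_cast hKpos
  rw [← sum_add_distrib]
  have h0 : (0 : ℤ) ∈ FK K := by
    rw [FK, Finset.mem_Ioo]
    omega
  rw [← Finset.add_sum_erase _ _ h0, mul_sum, add_assoc, ← sum_add_distrib]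
  have h1 : (1 - |((0 : ℤ) : ℝ)| / K) * ((ps η 0 (1 : Qd t c)).re *
    (‖A1c η Pc Y 0‖ ^ 2 - (gl (1 : Qd t c) : ℝ) * ‖GGt η F Y 0‖ ^ 2)) +
    (1 - |((0 : ℤ) : ℝ)| / K) * ((ps η 0 u₀).re *
    (‖A1c η Pc Y 0‖ ^ 2 - (gl u₀ : ℝ) * ‖GGt η F Y 0‖ ^ 2)) = 2 * ‖A1c η Pc Y 0‖ ^ 2 := by
    rw [gl_one, hgu, ps_zero, ps_zero]
    simp
    ring
  rw [h1]
  refine le_add_of_nonneg_right (sum_nonneg fun k hk => ?_)
  rw [mem_erase, FK, Finset.mem_Ioo] at hk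
  have hw0 : 0 ≤ 1 - |(k : ℝ)| / K := by
    rw [sub_nonneg, div_le_one hKpos]
    rw [abs_le]
    constructor
    · have : ((-(K : ℤ) : ℤ) : ℝ) < (k : ℝ) := by exact_mod_cast hk.2.1
      push_cast at this
      linarith
    · have : (k : ℝ) < ((K : ℤ) : ℝ) := by exact_mod_cast hk.2.2
      push_cast at this
      linarith
  have hw1 : 1 - |(k : ℝ)| / K ≤ 1 := by
    have : 0 ≤ |(k : ℝ)| / K := by positivity
    linarith
  have hps1 : ps η k (1 : Qd t c) = 1 := ps_one k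
  have hc1 : (ps η k u₀).re ≤ 1 := by
    have := (Complex.abs_re_le_norm (ps η k u₀)).trans (norm_ps k _).le
    exact (abs_le.1 this).2
  have hc2 : -1 ≤ (ps η k u₀).re := by
    have := (Complex.abs_re_le_norm (ps η k u₀)).trans (norm_ps k _).le
    exact (abs_le.1 this).1
  rw [gl_one, hgu, hps1]
  push_cast
  rw [Complex.one_re]
  set γ := (ps η k u₀).re
  set W := 1 - |(k : ℝ)| / K
  have hA : 0 ≤ ‖A1c η Pc Y k‖ ^ 2 := by positivity
  have hB : 0 ≤ ‖GGt η F Y k‖ ^ 2 := by positivity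
  have e : W * (1 * (‖A1c η Pc Y k‖ ^ 2 - 1 * ‖GGt η F Y k‖ ^ 2)) +
      W * (γ * (‖A1c η Pc Y k‖ ^ 2 - -1 * ‖GGt η F Y k‖ ^ 2)) + 2 * ‖GGt η F Y k‖ ^ 2 =
      W * (1 + γ) * ‖A1c η Pc Y k‖ ^ 2 + (W * (1 + γ) + 2 * (1 - W)) * ‖GGt η F Y k‖ ^ 2 := by
    ring
  rw [e]
  have : 0 ≤ W * (1 + γ) := mul_nonneg hw0 (by linarith)
  have : 0 ≤ W * (1 + γ) + 2 * (1 - W) := by linarith
  positivity

open scoped Classical in
/-- the near pairs -/
noncomputable def Nr (η : (Qd t c)ˣ) (Pc : Qd t c → Prop) (Y : ℝ) (u : Qd t c) (δ : ℝ) :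
    Finset (Qd t c × Qd t c) :=
  (pball η (Real.exp 1 * Y) ×ˢ pball η (Real.exp 1 * Y)).filter (fun p =>
    (Pc p.1 ∧ bg Y p.1 ≠ 0) ∧ (Pc p.2 ∧ bg Y p.2 ≠ 0) ∧ gl p.1 ≠ gl (u * p.2) ∧
      |rd (ang η p.1 - ang η (u * p.2))| ≤ δ)

/-- from near pairs to good pairs -/
lemma near_count (U : Un t c η) {Pc : Qd t c → Prop}
    (hinv : ∀ (j : ℤ) (z : Qd t c), Pc z → Pc (((η ^ j : (Qd t c)ˣ) : Qd t c) * z))
    {u : Qd t c} (hu : tp u)
    (hcol : ∀ (z y : Qd t c) (n : ℕ), tp z → prim z → Pc z → tp y → prim y → 0 < n →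
      u * z = (n : Qd t c) * y → Pc y)
    {Y : ℝ} (hY : 1 ≤ Y) {N₀ : ℝ} (hN₀ : (nm u : ℝ) ≤ N₀) {δ : ℝ} (hδ0 : 0 ≤ δ)
    (hδ : δ ≤ 1 / 2) (hδ2 : rg η / (2 * Real.pi) * δ ≤ 1) {T : ℕ}
    (hT : N₀ * (Real.exp 1 * Y) * (2 * (rg η / (2 * Real.pi) * δ)) ≤ T) :
    ∃ S : Finset (Qd t c × Qd t c), ((Nr η Pc Y u δ).card : ℝ) ≤ N₀ * S.card ∧
      ∀ e ∈ S, Pq Pc T (1 / (N₀ * Real.exp 1 * s1 (η : Qd t c) ^ 2))
        (N₀ * Real.exp 1 * s1 (η : Qd t c) ^ 2) Y e := by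
  classical
  have hY0 : 0 < Y := by linarith
  -- primitive parts
  have hex : ∀ z' : Qd t c, ∃ (y : Qd t c) (n : ℕ), tp z' → 0 < n ∧ prim y ∧
      u * z' = (n : Qd t c) * y := by
    intro z'
    by_cases h : tp z'
    · obtain ⟨y, n, h1, h2, h3⟩ := exists_primpart (tp_ne_zero (tp_mul U.disc hu h))
      exact ⟨y, n, fun _ => ⟨h1, h2, h3⟩⟩
    · exact ⟨0, 0, fun h' => absurd h' h⟩
  choose yf nf hyn using hex
  set Φ : Qd t c × Qd t c → Qd t c × Qd t c := fun p =>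
    (p.1, ((η ^ rj (ang η p.1 - ang η (u * p.2)) : (Qd t c)ˣ) : Qd t c) * yf p.2) with hΦ
  have hmem : ∀ p ∈ Nr η Pc Y u δ, p.1 ∈ pball η (Real.exp 1 * Y) ∧
      p.2 ∈ pball η (Real.exp 1 * Y) ∧ (Pc p.1 ∧ bg Y p.1 ≠ 0) ∧ (Pc p.2 ∧ bg Y p.2 ≠ 0) ∧
      gl p.1 ≠ gl (u * p.2) ∧ |rd (ang η p.1 - ang η (u * p.2))| ≤ δ := by
    intro p hp
    unfold Nr at hp
    rw [mem_filter, mem_product] at hp
    exact ⟨hp.1.1, hp.1.2, hp.2.1, hp.2.2.1, hp.2.2.2.1, hp.2.2.2.2⟩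
  have htpy : ∀ p ∈ Nr η Pc Y u δ, tp (yf p.2) := by
    intro p hp
    obtain ⟨-, h2, -, -, -, -⟩ := hmem p hp
    have h3 := pball_tp U h2
    obtain ⟨k1, k2, k3⟩ := hyn p.2 h3
    have hnR : (0 : ℝ) < (nf p.2 : ℝ) := by exact_mod_cast k1
    have h1 := tp_mul U.disc hu h3
    rw [k3] at h1
    obtain ⟨h4, h5⟩ := h1
    rw [s1_mul U.disc, s1_natCast] at h4
    rw [s2_mul U.disc, s2_natCast] at h5
    exact ⟨(mul_pos_iff_of_pos_left hnR).1 h4, (mul_pos_iff_of_pos_left hnR).1 h5⟩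
  refine ⟨(Nr η Pc Y u δ).image Φ, ?_, ?_⟩
  · -- counting
    set f : Qd t c × Qd t c → (Qd t c × Qd t c) × ℕ := fun p => (Φ p, nf p.2) with hf
    have hmaps : ∀ p ∈ Nr η Pc Y u δ, f p ∈ ((Nr η Pc Y u δ).image Φ) ×ˢ (Icc 1 (nm u)) := by
      intro p hp
      obtain ⟨-, h2, -, -, -, -⟩ := hmem p hp
      have h3 := pball_tp U h2
      obtain ⟨k1, k2, k3⟩ := hyn p.2 h3
      rw [mem_product, mem_Icc]
      refine ⟨mem_image_of_mem _ hp, k1, ?_⟩
      exact Nat.le_of_dvd (nm_pos U.disc hu)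
        (content_dvd U.disc hu (U.mem_pball.1 h2).2.1 k3)
    have hinj : Set.InjOn f (Nr η Pc Y u δ : Set (Qd t c × Qd t c)) := by
      intro p hp p' hp' hpp
      rw [mem_coe] at hp hp'
      obtain ⟨-, h2, -, -, -, -⟩ := hmem p hp
      obtain ⟨-, h2', -, -, -, -⟩ := hmem p' hp'
      have h3 := pball_tp U h2
      have h3' := pball_tp U h2'
      obtain ⟨k1, k2, k3⟩ := hyn p.2 h3
      obtain ⟨k1', k2', k3'⟩ := hyn p'.2 h3'
      simp only [hf, hΦ, Prod.mk.injEq] at hpp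
      obtain ⟨⟨e1, e2⟩, e3⟩ := hpp
      refine Prod.ext e1 ?_
      set m := rj (ang η p.1 - ang η (u * p.2)) with hm
      set m' := rj (ang η p'.1 - ang η (u * p'.2)) with hm'
      have e4 : yf p'.2 = ((η ^ (m - m') : (Qd t c)ˣ) : Qd t c) * yf p.2 := by
        have h4 : ((η ^ (-m') : (Qd t c)ˣ) : Qd t c) *
            (((η ^ m : (Qd t c)ˣ) : Qd t c) * yf p.2) =
            ((η ^ (-m') : (Qd t c)ˣ) : Qd t c) *
            (((η ^ m' : (Qd t c)ˣ) : Qd t c) * yf p'.2) := by rw [e2]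
        rw [← mul_assoc, ← mul_assoc, ← Units.val_mul, ← Units.val_mul, ← zpow_add, ← zpow_add,
          neg_add_cancel, zpow_zero, Units.val_one, one_mul] at h4
        rw [← h4]
        congr 3
        ring
      have e5 : u * p'.2 = u * (((η ^ (m - m') : (Qd t c)ˣ) : Qd t c) * p.2) := by
        rw [k3', ← e3, e4]
        calc (nf p.2 : Qd t c) * (((η ^ (m - m') : (Qd t c)ˣ) : Qd t c) * yf p.2)
            = ((η ^ (m - m') : (Qd t c)ˣ) : Qd t c) * ((nf p.2 : Qd t c) * yf p.2) := by ring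
          _ = ((η ^ (m - m') : (Qd t c)ˣ) : Qd t c) * (u * p.2) := by rw [← k3]
          _ = _ := by ring
      have e6 := mul_cancel U.nsq (tp_ne_zero hu) e5
      exact (U.eq_of_zpow_mul (U.mem_pball.1 h2).1 (U.mem_pball.1 h2').1 e6).symm
    have hcard := Finset.card_le_card_of_injOn f (fun p hp => hmaps p hp) hinj
    rw [card_product, Nat.card_Icc, Nat.add_sub_cancel] at hcard
    have hcard' : ((Nr η Pc Y u δ).card : ℝ) ≤
        (((Nr η Pc Y u δ).image Φ).card : ℝ) * (nm u : ℝ) := by exact_mod_cast hcard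
    refine hcard'.trans ?_
    rw [mul_comm]
    exact mul_le_mul_of_nonneg_right hN₀ (Nat.cast_nonneg _)
  · intro e he
    rw [mem_image] at he
    obtain ⟨p, hp, rfl⟩ := he
    obtain ⟨h1, h2, h3, h4, h5, h6⟩ := hmem p hp
    have h7 := pball_tp U h2
    obtain ⟨k1, k2, k3⟩ := hyn p.2 h7
    exact near_pair U hinv hY h1 h2 (bg_ne U.disc hY0 (pball_tp U h1) h3.2).1
      (bg_ne U.disc hY0 h7 h4.2).1 h3.1
      (hcol p.2 (yf p.2) (nf p.2) h7 (U.mem_pball.1 h2).2.1 h4.1 (htpy p hp) k2 k1 k3)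
      hu hN₀ h5 hδ0 hδ hδ2 h6 k1 k2 k3 hT

/-- the sum over the pairs in terms of the near pairs -/
lemma rsum_le_c (U : Un t c η) {Pc : Qd t c → Prop} {C CL : ℝ} (hC : 0 < C)
    (hS : ∀ (X δ θ : ℝ), 1 ≤ X → 0 ≤ δ → δ ≤ Real.pi → (open scoped Classical in
      (((pball η X).filter (fun z => ∃ j : ℤ, |ang η z - θ + 2 * Real.pi * j| ≤ δ)).card : ℝ)) ≤
      C * (X * δ + 1))
    (hCL : 0 < CL)
    (hL : ∀ (X : ℝ) (d : ℕ) (r : ℤ), 1 ≤ X → 1 ≤ d → (open scoped Classical in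
      |(((ball η X).filter (lat d r)).card : ℝ) - kap η * X / d| ≤ CL * Real.sqrt X))
    {u : Qd t c} (hu : tp u) {Y T : ℝ} {K : ℕ} (hY : 1 ≤ Y) (hT : 1 ≤ T) (hK : 1 ≤ K) :
    ∑ z ∈ pball η (Real.exp 1 * Y), ∑ z' ∈ pball η (Real.exp 1 * Y),
      Ac Pc Y z * Ac Pc Y z' * (1 - (gl z : ℝ) * (gl (u * z') : ℝ)) *
        Fj K (ang η z - ang η (u * z')) ≤
    2 * (Real.exp 1 / Y) ^ 2 * (K * ((Nr η Pc Y u (T / K)).card : ℝ) +
      (kap η + CL) * (8 * C * Real.pi ^ 2) *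
        ((Real.exp 1 * Y) ^ 2 / T + (Real.exp 1 * Y) * K / T ^ 2)) := by
  classical
  have he1 : 1 ≤ Real.exp 1 := Real.one_le_exp (by norm_num)
  have hX : 1 ≤ Real.exp 1 * Y := by nlinarith
  have hY0 : 0 < Y := by linarith
  have hfar := far_sum U hC hS hCL hL hu hX hT hK
  set s := pball η (Real.exp 1 * Y) with hs
  have hnear : ∑ z ∈ s, ∑ z' ∈ s, (if (Pc z ∧ bg Y z ≠ 0) ∧ (Pc z' ∧ bg Y z' ≠ 0) ∧
      gl z ≠ gl (u * z') ∧ |rd (ang η z - ang η (u * z'))| ≤ T / K then (K : ℝ) else 0) =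
      K * ((Nr η Pc Y u (T / K)).card : ℝ) := by
    rw [← Finset.sum_product', ← Finset.sum_filter, Finset.sum_const, nsmul_eq_mul]
    unfold Nr
    rw [mul_comm]
  have hpt : ∀ z ∈ s, ∀ z' ∈ s,
      Ac Pc Y z * Ac Pc Y z' * (1 - (gl z : ℝ) * (gl (u * z') : ℝ)) *
        Fj K (ang η z - ang η (u * z')) ≤
      2 * (Real.exp 1 / Y) ^ 2 * ((if (Pc z ∧ bg Y z ≠ 0) ∧ (Pc z' ∧ bg Y z' ≠ 0) ∧
      gl z ≠ gl (u * z') ∧ |rd (ang η z - ang η (u * z'))| ≤ T / K then (K : ℝ) else 0) +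
      ∑ j ∈ range (K + 2), (if |rd (ang η z - ang η (u * z'))| ≤ 2 ^ (j + 1) * T / K then
        Real.pi ^ 2 * K / (T ^ 2) * (1 / 4) ^ j else 0)) := by
    intro z hz z' hz'
    have hfn : 0 ≤ ∑ j ∈ range (K + 2), (if |rd (ang η z - ang η (u * z'))| ≤
        2 ^ (j + 1) * T / K then Real.pi ^ 2 * K / (T ^ 2) * (1 / 4) ^ j else 0) := by
      apply Finset.sum_nonneg
      intro j _
      split_ifs
      · positivity
      · exact le_rfl
    have hin : 0 ≤ (if (Pc z ∧ bg Y z ≠ 0) ∧ (Pc z' ∧ bg Y z' ≠ 0) ∧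
      gl z ≠ gl (u * z') ∧ |rd (ang η z - ang η (u * z'))| ≤ T / K then (K : ℝ) else 0) := by
      split_ifs
      · positivity
      · exact le_rfl
    have hrhs : 0 ≤ 2 * (Real.exp 1 / Y) ^ 2 * ((if (Pc z ∧ bg Y z ≠ 0) ∧
      (Pc z' ∧ bg Y z' ≠ 0) ∧
      gl z ≠ gl (u * z') ∧ |rd (ang η z - ang η (u * z'))| ≤ T / K then (K : ℝ) else 0) +
      ∑ j ∈ range (K + 2), (if |rd (ang η z - ang η (u * z'))| ≤ 2 ^ (j + 1) * T / K then
        Real.pi ^ 2 * K / (T ^ 2) * (1 / 4) ^ j else 0)) := by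
      have := add_nonneg hin hfn
      positivity
    by_cases h1 : Pc z ∧ bg Y z ≠ 0
    swap
    · have : Ac Pc Y z = 0 := by
        unfold Ac
        split_ifs with h2
        · by_contra h3
          exact h1 ⟨h2, h3⟩
        · rfl
      rw [this]
      simpa using hrhs
    by_cases h2 : Pc z' ∧ bg Y z' ≠ 0
    swap
    · have : Ac Pc Y z' = 0 := by
        unfold Ac
        split_ifs with h3
        · by_contra h4
          exact h2 ⟨h3, h4⟩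
        · rfl
      rw [this]
      simpa using hrhs
    have hg : gl z = 1 ∨ gl z = -1 := lam_eq _
    have hg' : gl (u * z') = 1 ∨ gl (u * z') = -1 := lam_eq _
    by_cases h3 : gl z ≠ gl (u * z')
    swap
    · have e1 : (1 - (gl z : ℝ) * (gl (u * z') : ℝ)) = 0 := by
        rw [not_not.1 h3]
        rcases hg' with h | h <;> rw [h] <;> norm_num
      rw [e1]
      simpa using hrhs
    have e1 : (1 - (gl z : ℝ) * (gl (u * z') : ℝ)) = 2 := by
      rcases hg with h4 | h4 <;> rcases hg' with h5 | h5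
      · exact absurd (h4.trans h5.symm) h3
      · rw [h4, h5]; norm_num
      · rw [h4, h5]; norm_num
      · exact absurd (h4.trans h5.symm) h3
    rw [e1]
    have hA1 : Ac Pc Y z ≤ Real.exp 1 / Y := by
      unfold Ac
      rw [if_pos h1.1]
      exact bg_le' U.disc hY0 (pball_tp U hz)
    have hA2 : Ac Pc Y z' ≤ Real.exp 1 / Y := by
      unfold Ac
      rw [if_pos h2.1]
      exact bg_le' U.disc hY0 (pball_tp U hz')
    have hA1' := Ac_nonneg Pc Y z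
    have hA2' := Ac_nonneg Pc Y z'
    have hAA : Ac Pc Y z * Ac Pc Y z' ≤ (Real.exp 1 / Y) ^ 2 := by
      rw [pow_two]
      exact mul_le_mul hA1 hA2 hA2' (hA1'.trans hA1)
    have hAA' : 0 ≤ Ac Pc Y z * Ac Pc Y z' := mul_nonneg hA1' hA2'
    have hFj := Fj_nonneg K (ang η z - ang η (u * z'))
    have hb := pt_bound hK hT (abs_rd_le (ang η z - ang η (u * z')))
    rw [← Fj_rd] at hb
    have hb2 : Fj K (ang η z - ang η (u * z')) ≤ (if (Pc z ∧ bg Y z ≠ 0) ∧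
      (Pc z' ∧ bg Y z' ≠ 0) ∧
      gl z ≠ gl (u * z') ∧ |rd (ang η z - ang η (u * z'))| ≤ T / K then (K : ℝ) else 0) +
      ∑ j ∈ range (K + 2), (if |rd (ang η z - ang η (u * z'))| ≤ 2 ^ (j + 1) * T / K then
        Real.pi ^ 2 * K / (T ^ 2) * (1 / 4) ^ j else 0) := by
      refine hb.trans ?_
      apply add_le_add _ le_rfl
      by_cases h6 : |rd (ang η z - ang η (u * z'))| ≤ T / K
      · rw [if_pos h6, if_pos ⟨h1, h2, h3, h6⟩]
      · rw [if_neg h6]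
        exact hin
    calc Ac Pc Y z * Ac Pc Y z' * 2 * Fj K (ang η z - ang η (u * z'))
        ≤ (Real.exp 1 / Y) ^ 2 * 2 * Fj K (ang η z - ang η (u * z')) := by gcongr
      _ = 2 * (Real.exp 1 / Y) ^ 2 * Fj K (ang η z - ang η (u * z')) := by ring
      _ ≤ _ := mul_le_mul_of_nonneg_left hb2 (by positivity)
  refine (Finset.sum_le_sum fun z hz => Finset.sum_le_sum fun z' hz' => hpt z hz z' hz').trans ?_
  simp only [← Finset.mul_sum, Finset.sum_add_distrib]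
  rw [hnear]
  apply mul_le_mul_of_nonneg_left _ (by positivity)
  linarith

/-- **many good pairs** -/
theorem pairs_core (U : Un t c η) {Pc : Qd t c → Prop} {F : Qd t c → ℤ}
    (hF : ∀ z, F z = (open scoped Classical in if Pc z then gl z else 0)) (hMR : S_MRt η F)
    {u₀ : Qd t c} (hu₀ : tp u₀) (hgu : gl u₀ = -1)
    (hcol : ∀ u : Qd t c, (u = 1 ∨ u = u₀) → ∀ (z y : Qd t c) (n : ℕ), tp z → prim z → Pc z →
      tp y → prim y → 0 < n → u * z = (n : Qd t c) * y → Pc y)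
    (hinv : ∀ (j : ℤ) (z : Qd t c), Pc z → Pc (((η ^ j : (Qd t c)ˣ) : Qd t c) * z))
    {c₀ : ℝ} (hc₀ : 0 < c₀) :
    ∃ (T : ℕ) (b B ε Y₀ : ℝ), 0 < b ∧ 0 < ε ∧ ∀ Y : ℝ, Y₀ ≤ Y →
      c₀ ≤ ∑ z ∈ pball η (Real.exp 1 * Y), Ac Pc Y z →
      ∃ S : Finset (Qd t c × Qd t c), ε * Y ≤ (S.card : ℝ) ∧ ∀ e ∈ S, Pq Pc T b B Y e := by
  classical
  obtain ⟨C, hC, hS⟩ := Pool.Agent.W54.GR.sect U
  obtain ⟨CL, hCL, hL, -⟩ := Pool.Agent.W398.GR.lat U
  obtain ⟨h, hh, YM, hmr⟩ := hMR (c₀ ^ 2 / 4) (by positivity)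
  have hkap := kap_pos U
  have hpi := Real.pi_pos
  set C₃ : ℝ := (kap η + CL) * (8 * C * Real.pi ^ 2) with hC₃
  have hC₃0 : 0 < C₃ := by positivity
  set T : ℝ := 16 * Real.exp 4 * C₃ / c₀ ^ 2 + 1 with hT
  have hT1 : 1 ≤ T := by
    rw [hT]
    have : 0 ≤ 16 * Real.exp 4 * C₃ / c₀ ^ 2 := by positivity
    linarith
  have hT0 : 0 < T := by linarith
  have hhp : 0 < h := by linarith
  have he1 : 1 ≤ Real.exp 1 := Real.one_le_exp (by norm_num)
  have hrg := U.rg_pos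
  set ρ : ℝ := rg η / (2 * Real.pi) with hρ
  have hρ0 : 0 < ρ := by positivity
  set N₀ : ℝ := ((nm u₀ : ℕ) : ℝ) with hN₀
  have hN1 : 1 ≤ N₀ := one_le_nmR U.disc hu₀
  set T₁ : ℕ := ⌈N₀ * Real.exp 1 * 2 * ρ * T * (2 * h)⌉₊ with hT₁
  refine ⟨T₁, 1 / (N₀ * Real.exp 1 * s1 (η : Qd t c) ^ 2),
    N₀ * Real.exp 1 * s1 (η : Qd t c) ^ 2, c₀ ^ 2 / (4 * Real.exp 1 ^ 2 * N₀),
    |YM| + 4 * h * T * (1 + ρ) + 2, ?_, by positivity, fun Y hY hA => ?_⟩
  · have := U.s1_gt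
    positivity
  have hYM : YM ≤ Y := by
    have := le_abs_self YM
    have : 0 ≤ 4 * h * T * (1 + ρ) := by positivity
    linarith
  have hY4 : 4 * h * T * (1 + ρ) ≤ Y := by
    have := abs_nonneg YM
    linarith
  have hY1 : 1 ≤ Y := by
    have := abs_nonneg YM
    have : 0 ≤ 4 * h * T * (1 + ρ) := by positivity
    linarith
  have hYpos : 0 < Y := by linarith
  set K : ℕ := ⌊Y / h⌋₊ with hK
  have hYh : 4 * T * (1 + ρ) ≤ Y / h := by
    rw [le_div_iff₀ hhp]; linarith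
  have hK1 : (K : ℝ) ≤ Y / h := Nat.floor_le (by positivity)
  have hK2 : Y / h - 1 < K := Nat.sub_one_lt_floor _
  have hTρ : 0 ≤ T * ρ := by positivity
  have hK3 : Y / (2 * h) ≤ K := by
    have : Y / (2 * h) = (Y / h) / 2 := by field_simp
    rw [this]
    nlinarith
  have hK4 : 2 * T * (1 + ρ) ≤ K := by
    have : 2 * T * (1 + ρ) ≤ (Y / h) / 2 := by linarith
    have e : Y / (2 * h) = (Y / h) / 2 := by field_simp
    linarith
  have hKpos : (0 : ℝ) < K := by nlinarith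
  have hKn : 1 ≤ K := by exact_mod_cast hKpos
  have hKY : (K : ℝ) ≤ Y := hK1.trans (div_le_self hYpos.le hh)
  have hδ0 : 0 ≤ T / K := by positivity
  have hδ1 : T / K ≤ 1 / 2 := by
    rw [div_le_div_iff₀ hKpos (by norm_num)]
    nlinarith
  have hδ2 : ρ * (T / K) ≤ 1 := by
    rw [← mul_div_assoc, div_le_one hKpos]
    nlinarith
  have hTT : N₀ * (Real.exp 1 * Y) * (2 * (ρ * (T / K))) ≤ (T₁ : ℝ) := by
    refine le_trans ?_ (Nat.le_ceil _)
    have h1 : Y * (T / K) ≤ T * (2 * h) := by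
      rw [← mul_div_assoc, div_le_iff₀ hKpos]
      rw [div_le_iff₀ (by positivity)] at hK3
      nlinarith
    calc N₀ * (Real.exp 1 * Y) * (2 * (ρ * (T / K)))
        = N₀ * Real.exp 1 * 2 * ρ * (Y * (T / K)) := by ring
      _ ≤ N₀ * Real.exp 1 * 2 * ρ * (T * (2 * h)) := by gcongr
      _ = _ := by ring
  have hn1 : (nm (1 : Qd t c) : ℝ) ≤ N₀ := by
    rw [nm_one]
    simpa using hN1
  obtain ⟨S₁, hS₁, hP₁⟩ := near_count U hinv tp_one (hcol 1 (Or.inl rfl)) hY1 hn1 hδ0 hδ1 hδ2 hTT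
  obtain ⟨S₂, hS₂, hP₂⟩ := near_count U hinv hu₀ (hcol u₀ (Or.inr rfl)) hY1 le_rfl hδ0 hδ1 hδ2 hTT
  refine ⟨S₁ ∪ S₂, ?_, ?_⟩
  swap
  · intro e he
    rcases mem_union.1 he with h1 | h1
    · exact hP₁ e h1
    · exact hP₂ e h1
  -- the two inequalities
  have hR : ∀ u : Qd t c, tp u →
      ∑ k ∈ FK K, (1 - |(k : ℝ)| / K) * ((ps η k u).re *
      (‖A1c η Pc Y k‖ ^ 2 - (gl u : ℝ) * ‖GGt η F Y k‖ ^ 2)) ≤
      2 * (Real.exp 1 / Y) ^ 2 * (K * ((Nr η Pc Y u (T / K)).card : ℝ)) + c₀ ^ 2 / 4 := by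
    intro u hu
    rw [← rsum_eq_c U hF Y hu K]
    refine (rsum_le_c U hC hS hCL hL hu hY1 hT1 hKn).trans ?_
    rw [mul_add]
    apply add_le_add le_rfl
    rw [← hC₃]
    have e1 : (Real.exp 1 * Y) ^ 2 / T + (Real.exp 1 * Y) * K / T ^ 2 ≤
        2 * (Real.exp 1 ^ 2 * Y ^ 2) / T := by
      have h1 : (Real.exp 1 * Y) * K / T ^ 2 ≤ Real.exp 1 ^ 2 * Y ^ 2 / T := by
        rw [div_le_div_iff₀ (by positivity) hT0]
        have h2 : (Real.exp 1 * Y) * K ≤ Real.exp 1 ^ 2 * Y ^ 2 := by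
          calc (Real.exp 1 * Y) * K ≤ (Real.exp 1 * Y) * (Real.exp 1 * Y) := by
                gcongr
                nlinarith
            _ = _ := by ring
        calc (Real.exp 1 * Y) * K * T ≤ Real.exp 1 ^ 2 * Y ^ 2 * T := by gcongr
          _ ≤ Real.exp 1 ^ 2 * Y ^ 2 * T ^ 2 := by
              gcongr
              nlinarith
      have h3 : (Real.exp 1 * Y) ^ 2 / T = Real.exp 1 ^ 2 * Y ^ 2 / T := by rw [mul_pow]
      rw [h3]
      have : 2 * (Real.exp 1 ^ 2 * Y ^ 2) / T = Real.exp 1 ^ 2 * Y ^ 2 / T +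
          Real.exp 1 ^ 2 * Y ^ 2 / T := by ring
      rw [this]
      linarith
    have e4 : Real.exp 4 = Real.exp 1 ^ 4 := by
      rw [← Real.exp_nat_mul]; norm_num
    calc 2 * (Real.exp 1 / Y) ^ 2 *
          (C₃ * ((Real.exp 1 * Y) ^ 2 / T + (Real.exp 1 * Y) * K / T ^ 2))
        ≤ 2 * (Real.exp 1 / Y) ^ 2 * (C₃ * (2 * (Real.exp 1 ^ 2 * Y ^ 2) / T)) := by gcongr
      _ = 4 * Real.exp 4 * C₃ / T := by
          rw [e4]
          field_simp
          ring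
      _ ≤ c₀ ^ 2 / 4 := by
          rw [div_le_div_iff₀ hT0 (by norm_num)]
          have : c₀ ^ 2 * T = 16 * Real.exp 4 * C₃ + c₀ ^ 2 := by
            rw [hT]; field_simp
          nlinarith [sq_nonneg c₀]
  have hR1 := hR 1 tp_one
  have hR2 := hR u₀ hu₀
  have hG := hmr Y hYM
  rw [← hK] at hG
  have hlow := low_bound_c (η := η) (Pc := Pc) (F := F) Y hgu hKpos
  have hA1 : c₀ ^ 2 ≤ ‖A1c η Pc Y 0‖ ^ 2 := by
    have h1 : A1c η Pc Y 0 = ((∑ z ∈ pball η (Real.exp 1 * Y), Ac Pc Y z : ℝ) : ℂ) := by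
      unfold A1c DPG
      simp
    rw [h1, Complex.norm_real, Real.norm_of_nonneg (by linarith)]
    exact pow_le_pow_left₀ hc₀.le hA 2
  have hcard : (S₁.card : ℝ) + S₂.card ≤ 2 * ((S₁ ∪ S₂).card : ℝ) := by
    have h1 : (S₁.card : ℝ) ≤ ((S₁ ∪ S₂).card : ℝ) := by
      exact_mod_cast card_le_card subset_union_left
    have h2 : (S₂.card : ℝ) ≤ ((S₁ ∪ S₂).card : ℝ) := by
      exact_mod_cast card_le_card subset_union_right
    linarith
  have hfin : c₀ ^ 2 ≤ 2 * (Real.exp 1 / Y) ^ 2 * (K * (N₀ * (2 * ((S₁ ∪ S₂).card : ℝ)))) := by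
    have h1 : 2 * (Real.exp 1 / Y) ^ 2 * (K * ((Nr η Pc Y 1 (T / K)).card : ℝ)) +
        2 * (Real.exp 1 / Y) ^ 2 * (K * ((Nr η Pc Y u₀ (T / K)).card : ℝ)) ≤
        2 * (Real.exp 1 / Y) ^ 2 * (K * (N₀ * (2 * ((S₁ ∪ S₂).card : ℝ)))) := by
      calc _ = 2 * (Real.exp 1 / Y) ^ 2 * (K * (((Nr η Pc Y 1 (T / K)).card : ℝ) +
            ((Nr η Pc Y u₀ (T / K)).card : ℝ))) := by ring
        _ ≤ 2 * (Real.exp 1 / Y) ^ 2 * (K * (N₀ * S₁.card + N₀ * S₂.card)) := by gcongr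
        _ = 2 * (Real.exp 1 / Y) ^ 2 * (K * (N₀ * ((S₁.card : ℝ) + S₂.card))) := by ring
        _ ≤ _ := by gcongr
    linarith
  have h5 : c₀ ^ 2 * Y ≤ 4 * Real.exp 1 ^ 2 * N₀ * ((S₁ ∪ S₂).card : ℝ) := by
    have e5 : 2 * (Real.exp 1 / Y) ^ 2 * (K * (N₀ * (2 * ((S₁ ∪ S₂).card : ℝ)))) =
        4 * Real.exp 1 ^ 2 * N₀ * ((S₁ ∪ S₂).card : ℝ) * (K / Y ^ 2) := by
      field_simp
      ring
    rw [e5] at hfin
    have e6 : (K : ℝ) / Y ^ 2 ≤ 1 / Y := by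
      rw [div_le_div_iff₀ (by positivity) hYpos]
      nlinarith
    have e7 : c₀ ^ 2 ≤ 4 * Real.exp 1 ^ 2 * N₀ * ((S₁ ∪ S₂).card : ℝ) * (1 / Y) :=
      hfin.trans (mul_le_mul_of_nonneg_left e6 (by positivity))
    rw [mul_one_div, le_div_iff₀ hYpos] at e7
    exact e7
  rw [div_mul_eq_mul_div, div_le_iff₀ (by positivity)]
  linarith

end Pool.Agent.L5helper2.TW
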