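import Pool.Agent.L5helper2.TW.Chv
import Pool.Agent.L5helper2.TW.All
import Pool.Agent.L5helper2.TW.Pairs

/-!
Project TW (helper2): the Matomaki-Radziwill theorem for the Liouville function of the norm
restricted to a colour.
-/

set_option autoImplicit false

namespace Pool.Agent.L5helper2.TW

open Finset
open Pool.Agent.H376R2.MR (FK Fj)
open Pool.Agent.W78.GR hiding GG PE S_MOM0 S_MOMP S_MOM S_CELLE S_DEC S_MR
open Pool.Agent.W84.G (Nz)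

variable {t c D : ℤ} {q : ℕ} {η₀ : (Qd t c)ˣ}

/-- the functions `λ(N z) χ(z)^k` -/
def Gk (D : ℤ) (q k : ℕ) (z : Qd t c) : ℤ := gl z * co D q z ^ k

/-- the colour class `s` -/
def Cl (D : ℤ) (q : ℕ) (s : ℤ) (z : Qd t c) : Prop := co D q z = s

open scoped Classical in
/-- the Liouville function on the colour class `s` -/
noncomputable def Fs (D : ℤ) (q : ℕ) (s : ℤ) (z : Qd t c) : ℤ := if Cl D q s z then gl z else 0

lemma nm_unit (v : (Qd t c)ˣ) : nm (v : Qd t c) = 1 := by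
  have h : nm (v : Qd t c) * nm ((v⁻¹ : (Qd t c)ˣ) : Qd t c) = 1 := by
    rw [← nm_mul, Units.mul_inv, nm_one]
  exact Nat.eq_one_of_mul_eq_one_right h

lemma Un.sq (U : Un t c η₀) : Un t c (η₀ ^ 2) := by
  have h1 : s1 ((η₀ ^ 2 : (Qd t c)ˣ) : Qd t c) = s1 (η₀ : Qd t c) ^ 2 := by
    rw [Units.val_pow_eq_pow_val, pow_two, s1_mul U.disc, pow_two]
  refine ⟨U.disc, U.nsq, ?_, ?_⟩
  · rw [Units.val_pow_eq_pow_val, pow_two]
    exact tp_mul U.disc U.pos U.pos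
  · rw [h1]
    have := U.big
    have hd : (0 : ℝ) < (t : ℝ) ^ 2 - 4 * c := by
      have := U.disc
      have : (4 : ℝ) * c < t ^ 2 := by exact_mod_cast this
      linarith
    nlinarith

lemma Lv.co_sq_unit (L : Lv t c D q) (v : (Qd t c)ˣ) :
    co D q ((v ^ 2 : (Qd t c)ˣ) : Qd t c) = 1 := by
  rw [Units.val_pow_eq_pow_val, pow_two, L.co_mul]
  have h : Nat.Coprime (nm (v : Qd t c)) q := by
    rw [nm_unit]
    exact Nat.coprime_one_left q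
  rcases L.co_eq h with h | h <;> rw [h] <;> norm_num

lemma gl_mul_tp (hd : 4 * c < t ^ 2) {z w : Qd t c} (hz : tp z) (hw : tp w) :
    gl (z * w) = gl z * gl w := by
  unfold gl
  rw [nm_mul]
  exact lam_mul (nm_pos hd hz).ne' (nm_pos hd hw).ne'

lemma gl_one' : gl (1 : Qd t c) = 1 := by
  unfold gl
  rw [nm_one]
  unfold Pool.Agent.H376R2.MR.lam
  simp

lemma tc_Gk (L : Lv t c D q) (hd : 4 * c < t ^ 2) (k : ℕ) (hk : k = 1 ∨ k = 2) :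
    Tc (η₀ ^ 2) (Gk D q k : Qd t c → ℤ) where
  bd z := by
    unfold Gk
    have h1 : |gl z| = 1 := by
      rcases gl_eq z with h | h <;> rw [h] <;> norm_num
    rw [abs_mul, h1, one_mul, abs_pow]
    exact pow_le_one₀ (abs_nonneg _) (L.co_abs z)
  mul z w hz hw := by
    unfold Gk
    rw [gl_mul_tp hd hz hw, L.co_mul, mul_pow]
    ring
  one := by
    unfold Gk
    rw [gl_one', L.co_one, one_pow, mul_one]
  unit := by
    unfold Gk
    rw [L.co_sq_unit, one_pow, mul_one]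
    unfold gl
    rw [nm_unit]
    unfold Pool.Agent.H376R2.MR.lam
    simp

lemma Fs_eq (L : Lv t c D q) {s : ℤ} (hs : s = 1 ∨ s = -1) (z : Qd t c) :
    2 * Fs D q s z = Gk D q 2 z + s * Gk D q 1 z := by
  unfold Fs Gk Cl
  by_cases h : Nat.Coprime (nm z) q
  · rcases L.co_eq h with h1 | h1 <;> rcases hs with rfl | rfl <;> rw [h1] <;> norm_num
    ring
    ring
  · have h1 : co D q z = 0 := by
      by_contra h2
      exact h ((L.co_ne z).1 h2)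
    rw [h1]
    rcases hs with rfl | rfl <;> norm_num

lemma GGt_Fs (L : Lv t c D q) {η : (Qd t c)ˣ} {s : ℤ} (hs : s = 1 ∨ s = -1) (Y : ℝ) (k : ℤ) :
    ‖GGt η (Fs D q s) Y k‖ ^ 2 ≤ ‖GGt η (Gk D q 2) Y k‖ ^ 2 + ‖GGt η (Gk D q 1) Y k‖ ^ 2 := by
  have e : (2 : ℂ) * GGt η (Fs D q s) Y k = GGt η (Gk D q 2) Y k + (s : ℂ) * GGt η (Gk D q 1) Y k := by
    unfold GGt DPG
    rw [Finset.mul_sum, Finset.mul_sum, ← Finset.sum_add_distrib]
    apply Finset.sum_congr rfl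
    intro z _
    have h : (2 : ℂ) * (Fs D q s z : ℤ) = (Gk D q 2 z : ℤ) + (s : ℂ) * (Gk D q 1 z : ℤ) := by
      exact_mod_cast congrArg (Int.cast : ℤ → ℂ) (Fs_eq L hs z)
    linear_combination (((bg Y z : ℝ) : ℂ) * ps η k z) * h
  have h1 : 2 * ‖GGt η (Fs D q s) Y k‖ ≤ ‖GGt η (Gk D q 2) Y k‖ + ‖GGt η (Gk D q 1) Y k‖ := by
    have h2 : ‖(2 : ℂ) * GGt η (Fs D q s) Y k‖ = 2 * ‖GGt η (Fs D q s) Y k‖ := by
      rw [norm_mul]; norm_num
    rw [← h2, e]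
    refine (norm_add_le _ _).trans ?_
    rw [norm_mul]
    have h3 : ‖(s : ℂ)‖ = 1 := by
      rcases hs with rfl | rfl <;> simp
    rw [h3, one_mul]
  have h3 := norm_nonneg (GGt η (Fs D q s) Y k)
  have h4 := norm_nonneg (GGt η (Gk D q 2 : Qd t c → ℤ) Y k)
  have h5 := norm_nonneg (GGt η (Gk D q 1 : Qd t c → ℤ) Y k)
  nlinarith [sq_nonneg (‖GGt η (Gk D q 2 : Qd t c → ℤ) Y k‖ - ‖GGt η (Gk D q 1 : Qd t c → ℤ) Y k‖)]

/-- **MR in a colour** -/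
theorem mr_col (L : Lv t c D q) (U : Un t c η₀) {s : ℤ} (hs : s = 1 ∨ s = -1) :
    S_MRt (η₀ ^ 2) (Fs D q s : Qd t c → ℤ) := by
  have h2 := mrt (Un.sq U) (tc_Gk (η₀ := η₀) L U.disc 2 (Or.inr rfl))
  have h1 := mrt (Un.sq U) (tc_Gk (η₀ := η₀) L U.disc 1 (Or.inl rfl))
  intro δ hδ
  obtain ⟨a₂, ha₂, Y₂, hY₂⟩ := h2 (δ / 2) (by positivity)
  obtain ⟨a₁, ha₁, Y₁, hY₁⟩ := h1 (δ / 2) (by positivity)
  refine ⟨max a₁ a₂, ha₁.trans (le_max_left _ _), max (max Y₁ Y₂) 0, fun Y hY => ?_⟩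
  have g1 : Y₁ ≤ Y := (le_max_left _ _).trans ((le_max_left _ _).trans hY)
  have g2 : Y₂ ≤ Y := (le_max_right _ _).trans ((le_max_left _ _).trans hY)
  have g0 : 0 ≤ Y := (le_max_right _ _).trans hY
  have hsub : ∀ a : ℝ, 1 ≤ a → a ≤ max a₁ a₂ → (FK ⌊Y / max a₁ a₂⌋₊).erase 0 ⊆
      (FK ⌊Y / a⌋₊).erase 0 := by
    intro a ha ham
    apply Finset.erase_subset_erase
    have h3 : ⌊Y / max a₁ a₂⌋₊ ≤ ⌊Y / a⌋₊ := by
      apply Nat.floor_le_floor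
      exact div_le_div_of_nonneg_left g0 (by linarith) ham
    intro k hk
    unfold FK at hk ⊢
    rw [Finset.mem_Ioo] at hk ⊢
    have : ((⌊Y / max a₁ a₂⌋₊ : ℕ) : ℤ) ≤ (⌊Y / a⌋₊ : ℕ) := by exact_mod_cast h3
    constructor <;> linarith
  calc ∑ k ∈ (FK ⌊Y / max a₁ a₂⌋₊).erase 0, ‖GGt (η₀ ^ 2) (Fs D q s : Qd t c → ℤ) Y k‖ ^ 2
      ≤ ∑ k ∈ (FK ⌊Y / max a₁ a₂⌋₊).erase 0, (‖GGt (η₀ ^ 2) (Gk D q 2 : Qd t c → ℤ) Y k‖ ^ 2 +
        ‖GGt (η₀ ^ 2) (Gk D q 1 : Qd t c → ℤ) Y k‖ ^ 2) :=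
        Finset.sum_le_sum fun k _ => GGt_Fs L hs Y k
    _ = ∑ k ∈ (FK ⌊Y / max a₁ a₂⌋₊).erase 0, ‖GGt (η₀ ^ 2) (Gk D q 2 : Qd t c → ℤ) Y k‖ ^ 2 +
        ∑ k ∈ (FK ⌊Y / max a₁ a₂⌋₊).erase 0,
          ‖GGt (η₀ ^ 2) (Gk D q 1 : Qd t c → ℤ) Y k‖ ^ 2 := Finset.sum_add_distrib
    _ ≤ δ / 2 + δ / 2 := by
        apply add_le_add
        · exact (Finset.sum_le_sum_of_subset_of_nonneg (hsub a₂ ha₂ (le_max_right _ _))
            fun _ _ _ => by positivity).trans (hY₂ Y g2)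
        · exact (Finset.sum_le_sum_of_subset_of_nonneg (hsub a₁ ha₁ (le_max_left _ _))
            fun _ _ _ => by positivity).trans (hY₁ Y g1)
    _ = δ := by ring

lemma Lv.co_zpow (L : Lv t c D q) (j : ℤ) :
    co D q ((((η₀ ^ 2) ^ j : (Qd t c)ˣ)) : Qd t c) = 1 := by
  have e : ((η₀ ^ 2) ^ j : (Qd t c)ˣ) = (η₀ ^ j) ^ 2 := by
    rw [← zpow_natCast, ← zpow_natCast, ← zpow_mul, ← zpow_mul, mul_comm]
  rw [e]
  exact L.co_sq_unit _

lemma Lv.hinv (L : Lv t c D q) (s : ℤ) (j : ℤ) (z : Qd t c) (h : Cl D q s z) :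
    Cl D q s (((((η₀ ^ 2) ^ j : (Qd t c)ˣ)) : Qd t c) * z) := by
  unfold Cl at h ⊢
  rw [L.co_mul, L.co_zpow, one_mul, h]

/-- the colour of the primitive part of a product -/
lemma Lv.hcol (L : Lv t c D q) (hd : 4 * c < t ^ 2) {u z y : Qd t c} {n : ℕ} (hu : tp u)
    (pu : prim u) (cu : Nat.Coprime (nm u) q) (hz : prim z) (cz : Nat.Coprime (nm z) q)
    (hn : 0 < n) (h : u * z = (n : Qd t c) * y) : co D q y = co D q u * co D q z := by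
  have h1 : n ∣ nm u := content_dvd hd hu hz h
  have h2 : Nat.Coprime n q := Nat.Coprime.coprime_dvd_left h1 cu
  have h3 : jacobiSym D n = 1 := jac_one_of hn.ne' fun p hp hpn => L.spl pu cu hp (hpn.trans h1)
  have h4 : co D q (u * z) = co D q ((n : Qd t c) * y) := by rw [h]
  rw [L.co_mul, L.co_mul, L.co_nat h2, h3, one_mul] at h4
  exact h4.symm

/-- **pairs in a colour**, given an element `u₀` of the colour `1` with `λ = -1` and mass -/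
theorem pairs_col (L : Lv t c D q) (U : Un t c η₀) {u₀ : Qd t c} (hu₀ : tp u₀) (pu₀ : prim u₀)
    (hgu : gl u₀ = -1) (hcu : co D q u₀ = 1) {c₀ : ℝ} (hc₀ : 0 < c₀) {s : ℤ}
    (hs : s = 1 ∨ s = -1) :
    ∃ (T : ℕ) (b B ε Y₀ : ℝ), 0 < b ∧ 0 < ε ∧ ∀ Y : ℝ, Y₀ ≤ Y →
      c₀ ≤ ∑ z ∈ pball (η₀ ^ 2) (Real.exp 1 * Y), Ac (Cl D q s) Y z →
      ∃ S : Finset (Qd t c × Qd t c), ε * Y ≤ (S.card : ℝ) ∧
        ∀ e ∈ S, Pq (Cl D q s) T b B Y e := by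
  have hcu' : Nat.Coprime (nm u₀) q := by
    rw [← L.co_ne, hcu]
    norm_num
  refine pairs_core (Un.sq U) (F := Fs D q s) (fun z => rfl) (mr_col L U hs) hu₀ hgu ?_
    (fun j z hz => L.hinv s j z hz) hc₀
  intro u hu z y n tz pz cz _ py hn h
  unfold Cl at cz ⊢
  have cz' : Nat.Coprime (nm z) q := by
    rw [← L.co_ne, cz]
    rcases hs with rfl | rfl <;> norm_num
  rcases hu with rfl | rfl
  · rw [L.hcol U.disc (u := 1) ⟨by rw [s1_one]; norm_num, by rw [s2_one]; norm_num⟩ ?_ ?_ pz cz' hn h,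
      L.co_one, one_mul, cz]
    · unfold prim
      simp [QuadraticAlgebra.re_one]
    · rw [nm_one]
      exact Nat.coprime_one_left q
  · rw [L.hcol U.disc hu₀ pu₀ hcu' pz cz' hn h, hcu, one_mul, cz]

end Pool.Agent.L5helper2.TW
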