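import Pool.Agent.L5helper2.TW.Box
import Pool.Agent.W78.GT.Basic

/-!
Project TW (helper2): few pairs with the same invariants.
-/

set_option autoImplicit false

namespace Pool.Agent.L5helper2.TW

open Finset
open Pool.Agent.W78.GR hiding GG PE S_MOM0 S_MOMP S_MOM S_CELLE S_DEC S_MR
open Pool.Agent.W84.G (Nz Ri Bf)

variable {t c : ℤ} {q : ℕ}

lemma Bf_eq (hd : 4 * c < t ^ 2) (v u : Qd t c) :
    (Bf v u : ℝ) = s1 v * s2 u + s2 v * s1 u := by
  have hR : (0 : ℝ) ≤ (t : ℝ) ^ 2 - 4 * c := by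
    have : (4 : ℝ) * c < t ^ 2 := by exact_mod_cast hd
    linarith
  have hsq := Real.mul_self_sqrt hR
  unfold Bf ip dt s1 s2
  push_cast
  linear_combination ((v.im : ℝ) * u.im / 2) * hsq

lemma Bf_pos (hd : 4 * c < t ^ 2) {v u : Qd t c} (hv : tp v) (hu : tp u) : 0 < Bf v u := by
  have h := Bf_eq hd v u
  have h1 : (0 : ℝ) < (Bf v u : ℝ) := by
    rw [h]
    exact add_pos (mul_pos hv.1 hu.2) (mul_pos hv.2 hu.1)
  exact_mod_cast h1

lemma Nz_tp (hd : 4 * c < t ^ 2) {z : Qd t c} (hz : tp z) : Nz z = nm z := by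
  rw [nm_tp_int hd hz]
  rfl

/-- **few pairs** `(v, w)` with the same determinant, the same `ip` and the same first norm -/
lemma fib (hd : 4 * c < t ^ 2) (hns : ¬ IsSquare (t ^ 2 - 4 * c)) (m : ℕ) (hm : 0 < m) (M : ℝ) :
    ∃ W : ℕ, ∀ (n : ℤ) (N₁ : ℕ) (S : Finset (Qd t c × Qd t c)),
    (∀ e ∈ S, tp e.1 ∧ dt e.1 e.2 = m ∧ ip e.1 e.2 = n ∧ nm e.1 = N₁) →
    (∀ e ∈ S, ∀ f ∈ S, s1 e.1 ≤ M * s1 f.1 ∧ s2 e.1 ≤ M * s2 f.1) → S.card ≤ W := by
  classical
  obtain ⟨W, hW⟩ := fin_box (t := t) (c := c) hd (m * M)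
  refine ⟨W, fun n N₁ S hS hM => ?_⟩
  rcases S.eq_empty_or_nonempty with rfl | ⟨f₀, hf₀⟩
  · simp
  obtain ⟨tv₀, hd₀, hi₀, hn₀⟩ := hS f₀ hf₀
  set v₀ := f₀.1 with hv₀
  set w₀ := f₀.2 with hw₀
  have hmR : (0 : ℝ) < m := by exact_mod_cast hm
  set γ : Qd t c × Qd t c → Qd t c := fun e =>
    ((w₀.im : ℤ) : Qd t c) * e.1 - ((v₀.im : ℤ) : Qd t c) * e.2 with hγ
  have hv₀0 : v₀ ≠ 0 := tp_ne_zero tv₀
  have hnat0 : ∀ k : ℕ, 0 < k → ((k : ℕ) : Qd t c) ≠ 0 := by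
    intro k hk h
    have := congrArg QuadraticAlgebra.re h
    rw [QuadraticAlgebra.re_natCast, QuadraticAlgebra.re_zero] at this
    have : k = 0 := by exact_mod_cast this
    omega
  have key : ∀ e ∈ S, γ e * v₀ = (m : Qd t c) * e.1 := by
    intro e he
    obtain ⟨tv, hde, hie, hne⟩ := hS e he
    have h1 : star e.1 * e.2 = star v₀ * w₀ := by
      rw [star_mul_eq, star_mul_eq, hie, hde, hi₀, hd₀]
    have h2 : e.2 * v₀ = e.1 * w₀ := by
      have h3 : ((N₁ : ℕ) : Qd t c) * (e.2 * v₀) = ((N₁ : ℕ) : Qd t c) * (e.1 * w₀) := by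
        calc ((N₁ : ℕ) : Qd t c) * (e.2 * v₀) = (star e.1 * e.1) * (e.2 * v₀) := by
              rw [star_mul_self_tp hd tv, hne]
          _ = (star e.1 * e.2) * (e.1 * v₀) := by ring
          _ = (star v₀ * w₀) * (e.1 * v₀) := by rw [h1]
          _ = (star v₀ * v₀) * (e.1 * w₀) := by ring
          _ = ((N₁ : ℕ) : Qd t c) * (e.1 * w₀) := by rw [star_mul_self_tp hd tv₀, hn₀]
      refine mul_cancel hns (hnat0 N₁ ?_) h3
      rw [← hne]
      exact nm_pos hd tv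
    have h4 : ((w₀.im : ℤ) : Qd t c) * v₀ - ((v₀.im : ℤ) : Qd t c) * w₀ = (m : Qd t c) := by
      have h5 : v₀.re * w₀.im - v₀.im * w₀.re = m := hd₀
      apply QuadraticAlgebra.ext
      · rw [QuadraticAlgebra.re_sub, QuadraticAlgebra.re_mul, QuadraticAlgebra.re_mul,
          QuadraticAlgebra.re_intCast, QuadraticAlgebra.im_intCast, QuadraticAlgebra.re_intCast,
          QuadraticAlgebra.im_intCast, QuadraticAlgebra.re_natCast]
        simp only [Int.cast_id]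
        rw [← h5]
        ring
      · rw [QuadraticAlgebra.im_sub, QuadraticAlgebra.im_mul, QuadraticAlgebra.im_mul,
          QuadraticAlgebra.re_intCast, QuadraticAlgebra.im_intCast, QuadraticAlgebra.re_intCast,
          QuadraticAlgebra.im_intCast, QuadraticAlgebra.im_natCast]
        simp only [Int.cast_id]
        ring
    calc γ e * v₀ = ((w₀.im : ℤ) : Qd t c) * (e.1 * v₀) -
        ((v₀.im : ℤ) : Qd t c) * (e.2 * v₀) := by rw [hγ]; ring
      _ = e.1 * (((w₀.im : ℤ) : Qd t c) * v₀ - ((v₀.im : ℤ) : Qd t c) * w₀) := by rw [h2]; ring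
      _ = (m : Qd t c) * e.1 := by rw [h4]; ring
  have hinj : Set.InjOn γ (S : Set (Qd t c × Qd t c)) := by
    intro e he f hf h
    rw [mem_coe] at he hf
    have h1 := key e he
    have h2 := key f hf
    rw [h, h2] at h1
    have h3 : f.1 = e.1 := mul_cancel hns (hnat0 m hm) h1
    obtain ⟨tv, hde, hie, hne⟩ := hS e he
    obtain ⟨tf, hdf, hif, hnf⟩ := hS f hf
    have h5 : star e.1 * e.2 = star e.1 * f.2 := by
      rw [star_mul_eq, hie, hde]
      rw [← h3, star_mul_eq, hif, hdf]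
    have h6 : star e.1 ≠ 0 := by
      intro h6
      exact tp_ne_zero tv (star_eq_zero.1 h6)
    exact Prod.ext h3.symm (mul_cancel hns h6 h5)
  rw [← card_image_of_injOn hinj]
  apply hW
  intro z hz
  obtain ⟨e, he, rfl⟩ := mem_image.1 hz
  obtain ⟨tv, -, -, -⟩ := hS e he
  obtain ⟨b1, b2⟩ := hM e he f₀ hf₀
  have h1 := key e he
  have e1 := congrArg s1 h1
  have e2 := congrArg s2 h1
  rw [s1_mul hd, s1_mul hd, s1_natCast] at e1
  rw [s2_mul hd, s2_mul hd, s2_natCast] at e2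
  have k1 : s1 (γ e) = m * s1 e.1 / s1 v₀ := by
    rw [eq_div_iff tv₀.1.ne', e1]
  have k2 : s2 (γ e) = m * s2 e.1 / s2 v₀ := by
    rw [eq_div_iff tv₀.2.ne', e2]
  constructor
  · rw [k1, abs_of_pos (div_pos (mul_pos hmR tv.1) tv₀.1), div_le_iff₀ tv₀.1, mul_assoc]
    exact mul_le_mul_of_nonneg_left b1 hmR.le
  · rw [k2, abs_of_pos (div_pos (mul_pos hmR tv.2) tv₀.2), div_le_iff₀ tv₀.2, mul_assoc]
    exact mul_le_mul_of_nonneg_left b2 hmR.le

end Pool.Agent.L5helper2.TW
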