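import Pool.Agent.W583.GT.Sq
import Pool.Agent.W578.GT.Equt
import Pool.Agent.W591.GT.Large
import Pool.Agent.W571.GT.Rep
import Pool.Agent.W29.GT.Ve
import Pool.Agent.W29.GT.Box
import Pool.Agent.W84.G.Defs

/-!
Project TW (helper2): few triples with a large square divisor, for every nonsquare discriminant
(part SQBT of project G of helper84).
-/

set_option autoImplicit false

namespace Pool.Agent.L5helper2.TW

open Finset
open Pool.Agent.W78.GT
open Pool.Agent.W583.GT (toZ toZ_mem wt_sq occ_sq wt)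
open Pool.Agent.W880.GM (tail_all)
open Pool.Agent.W84.G (S_SQBT)

variable {t c : ℤ}

/-- squares of large primes, any nonsquare discriminant -/
theorem sqt' (hns : ¬ IsSquare (t ^ 2 - 4 * c)) : ∃ C : ℝ, 0 < C ∧ ∀ z : ℕ, 2 ≤ z →
    (2 * (t ^ 2 - 4 * c)).natAbs ≤ z → ∃ X₀ : ℝ, ∀ X : ℝ, X₀ ≤ X →
    (open scoped Classical in
    (((tri t c X X).filter (fun e => ∃ l : ℕ, l.Prime ∧ z < l ∧ l ^ 2 ∣ NT e)).card : ℝ)) ≤
    C / z * X := by
  classical
  have hrep := Pool.Agent.W571.GT.rep hns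
  obtain ⟨C, hC, hE⟩ := Pool.Agent.W578.GT.equt_of hrep
  obtain ⟨A, hL⟩ := Pool.Agent.W591.GT.larget hns
  refine ⟨6 * C + 1, by positivity, fun z hz hzD => ?_⟩
  have hzR : (2 : ℝ) ≤ z := by exact_mod_cast hz
  obtain ⟨X₁, hX₁⟩ := hL (1 / (z : ℝ)) (by positivity)
  obtain ⟨X₂, hX₂⟩ := hE (2 * A)
  refine ⟨max (Real.exp 1) (max X₁ X₂), fun X hX => ?_⟩
  have hXe : Real.exp 1 ≤ X := (le_max_left _ _).trans hX
  have hXX1 : X₁ ≤ X := ((le_max_left _ _).trans (le_max_right _ _)).trans hX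
  have hXX2 : X₂ ≤ X := ((le_max_right _ _).trans (le_max_right _ _)).trans hX
  have hX1 : 1 ≤ X := by
    have := Real.add_one_le_exp (1 : ℝ)
    linarith
  have hlog : 1 ≤ Real.log X := by
    rw [Real.le_log_iff_exp_le (by linarith)]
    exact hXe
  have hlogpow : ∀ k : ℕ, 1 ≤ Real.log X ^ k := fun k => one_le_pow₀ hlog
  set N : ℕ := ⌊Real.log X ^ A⌋₊ with hN
  set L : Finset ℕ := (Ioc z N).filter (fun l => Spl t c l) with hLdef
  set BL := (tri t c X X).filter (fun e => ∃ l : ℕ, l.Prime ∧ Real.log X ^ A < (l : ℝ) ∧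
      l ^ 2 ∣ NT e) with hBL
  set B : ℕ → Finset Tr := fun l => (tri t c X X).filter (fun e => l ^ 2 ∣ NT e) with hB
  have hD0 : 2 * (t ^ 2 - 4 * c) ≠ 0 := by
    intro h
    apply hns
    have : t ^ 2 - 4 * c = 0 := by omega
    rw [this]
    exact ⟨0, by ring⟩
  have hsub : (tri t c X X).filter (fun e => ∃ l : ℕ, l.Prime ∧ z < l ∧ l ^ 2 ∣ NT e) ⊆
      BL ∪ L.biUnion B := by
    intro e he
    rw [mem_filter] at he
    obtain ⟨he1, l, hl, hzl, hle⟩ := he
    rw [mem_union]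
    by_cases hlg : Real.log X ^ A < (l : ℝ)
    · left
      rw [hBL, mem_filter]
      exact ⟨he1, l, hl, hlg, hle⟩
    · right
      rw [mem_biUnion]
      refine ⟨l, ?_, ?_⟩
      · rw [hLdef, mem_filter, mem_Ioc]
        refine ⟨⟨hzl, Nat.le_floor (not_lt.1 hlg)⟩, hl, ?_, e.2.1, ?_⟩
        · intro h
          have h1 := Int.natAbs_dvd_natAbs.2 h
          rw [Int.natAbs_natCast] at h1
          have h2 := Nat.le_of_dvd (Int.natAbs_pos.2 hD0) h1
          omega
        · have h5 := (mem_tri.1 he1).2.2.2.2.1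
          rw [← h5]
          unfold NT at hle
          have h6 : l ∣ e.1 * e.2.2 := (dvd_pow_self l two_ne_zero).trans hle
          exact_mod_cast h6
      · rw [hB, mem_filter]
        exact ⟨he1, hle⟩
  have hcardBL : (BL.card : ℝ) ≤ 1 / (z : ℝ) * X := hX₁ X hXX1
  have hcardB : ∀ l ∈ L, ((B l).card : ℝ) ≤ 6 * C * X * (1 / (l : ℝ) ^ 2) := by
    intro l hl
    rw [hLdef, mem_filter, mem_Ioc] at hl
    obtain ⟨⟨hzl, hlN⟩, hls⟩ := hl
    have hlp := hls.1
    have hlpos : (0 : ℝ) < l := by exact_mod_cast hlp.pos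
    have hlR : (l : ℝ) ≤ Real.log X ^ A :=
      (Nat.cast_le.2 hlN).trans (Nat.floor_le (by positivity))
    have hB1 : ∀ f ∈ B l, (((tri t c X X).filter (fun e => Cg (l ^ 2) e f)).card : ℝ) ≤
        C * X * (Nat.totient (l ^ 2) : ℝ) / ((l ^ 2 : ℕ) : ℝ) ^ 3 := by
      intro f _
      refine hX₂ X X X (l ^ 2) f hXX2 hX1 hX1 (by rw [pow_two]) ?_ ?_ ?_ ?_ ?_
      · have := hlogpow (2 * A); nlinarith
      · have := hlogpow (2 * A); nlinarith
      · exact Nat.one_le_pow _ _ hlp.pos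
      · push_cast
        rw [mul_comm 2 A, pow_mul]
        exact pow_le_pow_left₀ hlpos.le hlR 2
      · intro p hp hpl
        rw [(Nat.prime_dvd_prime_iff_eq hp hlp).1 (hp.dvd_of_dvd_pow hpl)]
        exact hls
    have h1 := (occ_sq hls).card_le (B l) (tri t c X X) (by
      intro e he
      rw [hB, mem_filter] at he
      exact he.1) (by
      intro e he
      rw [hB, mem_filter] at he
      refine ⟨toZ_mem he.1, ?_⟩
      have h2 := he.2
      unfold NT at h2
      show ((l ^ 2 : ℕ) : ℤ) ∣ (e.1 : ℤ) * (e.2.2 : ℤ)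
      exact_mod_cast h2) _ (by positivity) hB1
    refine h1.trans ?_
    have h2 := wt_sq hlp.pos 6
    unfold wt at h2
    calc ((6 * l ^ 2 : ℕ) : ℝ) * (C * X * (Nat.totient (l ^ 2) : ℝ) / ((l ^ 2 : ℕ) : ℝ) ^ 3)
        = C * X * (((6 * l ^ 2 : ℕ) : ℝ) * (Nat.totient (l ^ 2) : ℝ) / ((l ^ 2 : ℕ) : ℝ) ^ 3) := by
          ring
      _ ≤ C * X * ((6 : ℕ) / (l : ℝ) ^ 2) := mul_le_mul_of_nonneg_left h2 (by positivity)
      _ = 6 * C * X * (1 / (l : ℝ) ^ 2) := by push_cast; ring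
  have hsum : ∑ l ∈ L, 1 / (l : ℝ) ^ 2 ≤ 1 / (z : ℝ) := by
    refine tail_all z (by omega) L fun l hl => ?_
    rw [hLdef, mem_filter, mem_Ioc] at hl
    exact hl.1.1
  have hcard := (Finset.card_le_card hsub).trans (card_union_le _ _)
  have hcard2 : (((tri t c X X).filter
      (fun e => ∃ l : ℕ, l.Prime ∧ z < l ∧ l ^ 2 ∣ NT e)).card : ℝ) ≤
      (BL.card : ℝ) + ((L.biUnion B).card : ℝ) := by exact_mod_cast hcard
  have hcard3 : ((L.biUnion B).card : ℝ) ≤ ∑ l ∈ L, ((B l).card : ℝ) := by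
    exact_mod_cast card_biUnion_le
  refine hcard2.trans ?_
  calc (BL.card : ℝ) + ((L.biUnion B).card : ℝ)
      ≤ 1 / (z : ℝ) * X + ∑ l ∈ L, 6 * C * X * (1 / (l : ℝ) ^ 2) :=
        add_le_add hcardBL (hcard3.trans (sum_le_sum hcardB))
    _ = 1 / (z : ℝ) * X + 6 * C * X * ∑ l ∈ L, (1 / (l : ℝ) ^ 2) := by rw [mul_sum]
    _ ≤ 1 / (z : ℝ) * X + 6 * C * X * (1 / (z : ℝ)) := by
        have : 0 ≤ 6 * C * X := by positivity
        have := mul_le_mul_of_nonneg_left hsum this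
        linarith
    _ = (6 * C + 1) / z * X := by ring

/-! ### powers of a small prime -/

lemma dvd_of_mul {l : ℕ} (hl : l.Prime) {b v : ℕ} {x y : ℤ} (h : (l : ℤ) ^ b ∣ x * y)
    (hx : ¬ (l : ℤ) ^ (v + 1) ∣ x) : (l : ℤ) ^ (b - v) ∣ y := by
  have hp : Prime (l : ℤ) := Nat.prime_iff_prime_int.1 hl
  have hx0 : x ≠ 0 := by
    rintro rfl
    exact hx (dvd_zero _)
  have hfin : FiniteMultiplicity (l : ℤ) x := FiniteMultiplicity.of_prime_left hp hx0
  obtain ⟨x', hx', hnd⟩ := hfin.exists_eq_pow_mul_and_not_dvd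
  set i := multiplicity (l : ℤ) x with hi
  have hiv : i ≤ v := by
    by_contra hcon
    push Not at hcon
    apply hx
    rw [hx']
    exact (pow_dvd_pow (l : ℤ) hcon).mul_right _
  rcases le_or_gt b i with hb | hb
  · have : b - v = 0 := by omega
    rw [this, pow_zero]
    exact one_dvd _
  have h1 : (l : ℤ) ^ b ∣ (l : ℤ) ^ i * (x' * y) := by
    rw [hx', mul_assoc] at h
    exact h
  have h2 : (l : ℤ) ^ (b - i) ∣ x' * y := by
    have e : (l : ℤ) ^ b = (l : ℤ) ^ i * (l : ℤ) ^ (b - i) := by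
      rw [← pow_add]
      congr 1
      omega
    rw [e] at h1
    exact (mul_dvd_mul_iff_left (pow_ne_zero i hp.ne_zero)).1 h1
  have h3 := hp.pow_dvd_of_dvd_mul_left (b - i) hnd h2
  exact (pow_dvd_pow (l : ℤ) (by omega)).trans h3

/-- the roots modulo `l ^ b` -/
noncomputable def Rl (t c : ℤ) (l b : ℕ) : Finset ℤ :=
  (Ico (0 : ℤ) ((l : ℤ) ^ b)).filter (fun r => (l : ℤ) ^ b ∣ Qp t c r)

/-- the number of roots modulo `l ^ b` is bounded -/
lemma Rl_card {l : ℕ} (hl : l.Prime) {v : ℕ} (hv : ¬ (l : ℤ) ^ (v + 1) ∣ t ^ 2 - 4 * c) (b : ℕ) :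
    (Rl t c l b).card ≤ 2 * l ^ v := by
  classical
  have hp : Prime (l : ℤ) := Nat.prime_iff_prime_int.1 hl
  have hl0 : (0 : ℤ) < l := by exact_mod_cast hl.pos
  rcases le_or_gt b v with hbv | hbv
  · have h1 : (Rl t c l b).card ≤ (Ico (0 : ℤ) ((l : ℤ) ^ b)).card := card_filter_le _ _
    rw [Int.card_Ico, sub_zero] at h1
    have h2 : ((l : ℤ) ^ b).toNat = l ^ b := by
      rw [← Nat.cast_pow, Int.toNat_natCast]
    rw [h2] at h1
    have h3 : l ^ b ≤ l ^ v := Nat.pow_le_pow_right hl.pos hbv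
    omega
  rcases (Rl t c l b).eq_empty_or_nonempty with h0 | ⟨r₀, hr₀⟩
  · rw [h0]; simp
  have hmem : ∀ r ∈ Rl t c l b, 0 ≤ r ∧ r < (l : ℤ) ^ b ∧ (l : ℤ) ^ b ∣ Qp t c r := by
    intro r hr
    unfold Rl at hr
    rw [mem_filter, mem_Ico] at hr
    exact ⟨hr.1.1, hr.1.2, hr.2⟩
  set m : ℤ := (l : ℤ) ^ (b - v) with hm
  have hm0 : 0 < m := by positivity
  have hbm : (l : ℤ) ^ b = m * (l : ℤ) ^ v := by
    rw [hm, ← pow_add]
    congr 1
    omega
  have hcls : ∀ r ∈ Rl t c l b, m ∣ r - r₀ ∨ m ∣ r - (-r₀ - t) := by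
    intro r hr
    have h1 := (hmem r hr).2.2
    have h2 := (hmem r₀ hr₀).2.2
    have h3 : (l : ℤ) ^ b ∣ (r - r₀) * (r + r₀ + t) := by
      have e : (r - r₀) * (r + r₀ + t) = Qp t c r - Qp t c r₀ := by unfold Qp; ring
      rw [e]
      exact dvd_sub h1 h2
    by_cases h4 : (l : ℤ) ^ (v + 1) ∣ r - r₀
    · left
      have h5 : ¬ (l : ℤ) ^ (v + 1) ∣ r + r₀ + t := by
        intro h5
        apply hv
        have h6 := dvd_add h4 h5
        have e : t ^ 2 - 4 * c = ((r - r₀) + (r + r₀ + t)) * (2 * r + t) - 4 * Qp t c r := by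
          unfold Qp; ring
        rw [e]
        refine dvd_sub (h6.mul_right _) ?_
        exact ((pow_dvd_pow (l : ℤ) (by omega : v + 1 ≤ b)).trans h1).mul_left 4
      rw [mul_comm] at h3
      exact dvd_of_mul hl h3 h5
    · right
      have h5 := dvd_of_mul hl h3 h4
      have e : r - (-r₀ - t) = r + r₀ + t := by ring
      rw [e]
      exact h5
  have hcard : (Rl t c l b).card ≤ ((univ : Finset Bool) ×ˢ (Ico (0 : ℤ) ((l : ℤ) ^ v))).card := by
    apply card_le_card_of_injOn (fun r => (decide (m ∣ r - r₀), r / m))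
    · intro r hr
      obtain ⟨h1, h2, -⟩ := hmem r hr
      rw [mem_coe, mem_product, mem_Ico]
      refine ⟨mem_univ _, Int.ediv_nonneg h1 hm0.le, ?_⟩
      simp only
      rw [Int.ediv_lt_iff_lt_mul hm0]
      rw [hbm] at h2
      linarith
    · intro r hr r' hr' h
      rw [mem_coe] at hr hr'
      simp only [Prod.mk.injEq, decide_eq_decide] at h
      obtain ⟨h1, h2⟩ := h
      have h3 : m ∣ r - r' := by
        by_cases h4 : m ∣ r - r₀
        · have := dvd_sub h4 (h1.1 h4)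
          rwa [sub_sub_sub_cancel_right] at this
        · have h5 := (hcls r hr).resolve_left h4
          have h6 := (hcls r' hr').resolve_left (fun h => h4 (h1.2 h))
          have := dvd_sub h5 h6
          rwa [sub_sub_sub_cancel_right] at this
      have h4 : r % m = r' % m := 
        Int.emod_eq_emod_iff_emod_sub_eq_zero.2 (Int.emod_eq_zero_of_dvd h3)
      have h5 := Int.emod_add_mul_ediv r m
      have h6 := Int.emod_add_mul_ediv r' m
      rw [← h5, ← h6, h4, h2]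
  rw [card_product, Finset.card_univ, Fintype.card_bool, Int.card_Ico, sub_zero] at hcard
  have h2 : ((l : ℤ) ^ v).toNat = l ^ v := by
    rw [← Nat.cast_pow, Int.toNat_natCast]
  rw [h2] at hcard
  exact hcard

/-- the roots `(d, r)` with `l ^ b` exactly dividing `d` -/
lemma exact_card {l : ℕ} (hl : l.Prime) (b : ℕ) (Y : ℝ) :
    ((rts t c Y).filter (fun e => l ^ b ∣ e.1 ∧ ¬ l ^ (b + 1) ∣ e.1)).card ≤
      (rts t c (Y / (l : ℝ) ^ b)).card * (Rl t c l b).card := by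
  classical
  rw [← card_product]
  have hlb : 0 < l ^ b := pow_pos hl.pos b
  have hlbZ : (0 : ℤ) < (l : ℤ) ^ b := by exact_mod_cast hlb
  have hdata : ∀ e ∈ (rts t c Y).filter (fun e => l ^ b ∣ e.1 ∧ ¬ l ^ (b + 1) ∣ e.1),
      e.1 = l ^ b * (e.1 / l ^ b) ∧ 1 ≤ e.1 / l ^ b ∧ Nat.Coprime (e.1 / l ^ b) (l ^ b) ∧
      e ∈ rts t c Y := by
    intro e he
    rw [mem_filter] at he
    obtain ⟨he, h1, h2⟩ := he
    have h3 : e.1 = l ^ b * (e.1 / l ^ b) := (Nat.mul_div_cancel' h1).symm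
    have he1 := (mem_rts.1 he).1
    refine ⟨h3, ?_, ?_, he⟩
    · by_contra h4
      have h5 : e.1 / l ^ b = 0 := Nat.lt_one_iff.1 (not_le.1 h4)
      rw [h5, mul_zero] at h3
      rw [h3] at he1
      exact absurd he1 (by norm_num)
    · apply Nat.Coprime.pow_right
      rw [Nat.coprime_comm, hl.coprime_iff_not_dvd]
      intro h4
      apply h2
      rw [h3, pow_succ]
      exact Nat.mul_dvd_mul_left _ h4
  apply card_le_card_of_injOn
    (fun e => ((e.1 / l ^ b, e.2 % ((e.1 / l ^ b : ℕ) : ℤ)), e.2 % ((l : ℤ) ^ b)))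
  · intro e he
    rw [mem_coe] at he
    obtain ⟨h1, h2, h3, h4⟩ := hdata e he
    obtain ⟨k1, k2, k3, k4, k5⟩ := mem_rts.1 h4
    rw [mem_coe, mem_product]
    constructor
    · apply root_mem h2
      · rw [le_div_iff₀ (by have := hl.pos; positivity)]
        calc ((e.1 / l ^ b : ℕ) : ℝ) * (l : ℝ) ^ b = ((l ^ b * (e.1 / l ^ b) : ℕ) : ℝ) := by
              push_cast; ring
          _ = (e.1 : ℝ) := by rw [← h1]
          _ ≤ Y := k2
      · refine dvd_trans ?_ k3
        exact Int.natCast_dvd_natCast.2 ⟨l ^ b, by rw [mul_comm]; exact h1⟩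
    · unfold Rl
      rw [mem_filter, mem_Ico]
      refine ⟨⟨Int.emod_nonneg _ hlbZ.ne', Int.emod_lt_of_pos _ hlbZ⟩, ?_⟩
      have h5 : (l : ℤ) ^ b ∣ Qp t c e.2 := by
        refine dvd_trans ?_ k3
        have : l ^ b ∣ e.1 := ⟨_, h1⟩
        exact_mod_cast this
      have h6 := Qp_congr (t := t) (c := c) (Int.dvd_self_sub_emod (x := e.2) (m := (l : ℤ) ^ b))
      have := dvd_sub h5 h6
      simpa using this
  · intro e he f hf h
    rw [mem_coe] at he hf
    simp only [Prod.mk.injEq] at h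
    obtain ⟨⟨g1, g2⟩, g3⟩ := h
    obtain ⟨h1, h2, h3, h4⟩ := hdata e he
    obtain ⟨h1', h2', h3', h4'⟩ := hdata f hf
    obtain ⟨k1, k2, k3, k4, k5⟩ := mem_rts.1 h4
    obtain ⟨k1', k2', k3', k4', k5'⟩ := mem_rts.1 h4'
    have e1 : e.1 = f.1 := by rw [h1, h1', g1]
    have d1 : ((e.1 / l ^ b : ℕ) : ℤ) ∣ e.2 - f.2 := by
      rw [g1] at g2 ⊢
      exact Int.ModEq.dvd (Int.ModEq.symm g2)
    have d2 : (l : ℤ) ^ b ∣ e.2 - f.2 := Int.ModEq.dvd (Int.ModEq.symm g3)
    have d3 : (e.1 : ℤ) ∣ e.2 - f.2 := by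
      have hc : IsCoprime ((l : ℤ) ^ b) ((e.1 / l ^ b : ℕ) : ℤ) := by
        have := (Nat.isCoprime_iff_coprime.2 h3).symm
        exact_mod_cast this
      have h5 := IsCoprime.mul_dvd hc d2 d1
      have h6 : ((e.1 : ℕ) : ℤ) = (l : ℤ) ^ b * ((e.1 / l ^ b : ℕ) : ℤ) := by exact_mod_cast h1
      rw [h6]
      exact h5
    have e2 : e.2 = f.2 := by
      have h5 : |e.2 - f.2| < e.1 := by
        rw [abs_lt]
        rw [← e1] at k5'
        constructor <;> linarith
      have h6 := Int.eq_zero_of_abs_lt_dvd d3 h5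
      linarith
    exact Prod.ext e1 e2

/-- few roots `(d, r)` with `d` divisible by a large power of `l` -/
lemma pow_card (hroot : S_ROOT t c) (hD : t ^ 2 - 4 * c ≠ 0) {l : ℕ} (hl : l.Prime) :
    ∃ K : ℝ, 0 < K ∧ ∀ (a : ℕ) (X : ℝ), 0 ≤ X →
    (((rts t c X).filter (fun e => l ^ a ∣ e.1)).card : ℝ) ≤ K * X / (l : ℝ) ^ a := by
  classical
  obtain ⟨C, hC, hr⟩ := hroot
  obtain ⟨v, hv⟩ : ∃ v : ℕ, ¬ (l : ℤ) ^ (v + 1) ∣ t ^ 2 - 4 * c := by
    have hp : Prime (l : ℤ) := Nat.prime_iff_prime_int.1 hl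
    have hfin : FiniteMultiplicity (l : ℤ) (t ^ 2 - 4 * c) := FiniteMultiplicity.of_prime_left hp hD
    exact ⟨_, hfin.not_pow_dvd_of_multiplicity_lt (Nat.lt_succ_self _)⟩
  have hl1 : (1 : ℝ) < l := by exact_mod_cast hl.one_lt
  have hl2 : (2 : ℝ) ≤ l := by exact_mod_cast hl.two_le
  have hl0 : (0 : ℝ) < l := by linarith
  refine ⟨C * (2 * (l : ℝ) ^ v) * 2, by positivity, fun a X hX => ?_⟩
  set N : ℕ := ⌊X⌋₊ with hN
  have hsub : (rts t c X).filter (fun e => l ^ a ∣ e.1) ⊆ (Ico a (N + a + 1)).biUnion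
      (fun b => (rts t c X).filter (fun e => l ^ b ∣ e.1 ∧ ¬ l ^ (b + 1) ∣ e.1)) := by
    intro e he
    rw [mem_filter] at he
    obtain ⟨he, h1⟩ := he
    obtain ⟨k1, k2, -, -, -⟩ := mem_rts.1 he
    have hfin : FiniteMultiplicity l e.1 := Nat.finiteMultiplicity_iff.2 ⟨hl.one_lt.ne', k1⟩
    obtain ⟨m, hm, hnd⟩ := hfin.exists_eq_pow_mul_and_not_dvd
    set b := multiplicity l e.1 with hb
    rw [mem_biUnion]
    have hbe : l ^ b ∣ e.1 := ⟨m, hm⟩
    have hbn : ¬ l ^ (b + 1) ∣ e.1 := by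
      intro h
      rw [hm, pow_succ] at h
      exact hnd (Nat.dvd_of_mul_dvd_mul_left (pow_pos hl.pos b) h)
    refine ⟨b, ?_, mem_filter.2 ⟨he, hbe, hbn⟩⟩
    rw [mem_Ico]
    constructor
    · by_contra hcon
      push Not at hcon
      exact hbn ((pow_dvd_pow l hcon).trans h1)
    · have h3 : b < l ^ b := Nat.lt_pow_self hl.one_lt
      have h4 : l ^ b ≤ e.1 := Nat.le_of_dvd k1 hbe
      have h5 : e.1 ≤ N := Nat.le_floor k2
      omega
  have h1 : (((rts t c X).filter (fun e => l ^ a ∣ e.1)).card : ℝ) ≤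
      ∑ b ∈ Ico a (N + a + 1), C * (2 * (l : ℝ) ^ v) * X * ((1 / (l : ℝ)) ^ b) := by
    have h2 := (card_le_card hsub).trans card_biUnion_le
    have h3 : (((rts t c X).filter (fun e => l ^ a ∣ e.1)).card : ℝ) ≤
        ∑ b ∈ Ico a (N + a + 1), (((rts t c X).filter
          (fun e => l ^ b ∣ e.1 ∧ ¬ l ^ (b + 1) ∣ e.1)).card : ℝ) := by exact_mod_cast h2
    refine h3.trans (sum_le_sum fun b _ => ?_)
    have h4 : (((rts t c X).filter (fun e => l ^ b ∣ e.1 ∧ ¬ l ^ (b + 1) ∣ e.1)).card : ℝ) ≤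
        ((rts t c (X / (l : ℝ) ^ b)).card : ℝ) * ((Rl t c l b).card : ℝ) := by
      exact_mod_cast exact_card hl b X
    refine h4.trans ?_
    have h5 := hr (X / (l : ℝ) ^ b) (by positivity)
    have h6 : ((Rl t c l b).card : ℝ) ≤ 2 * (l : ℝ) ^ v := by exact_mod_cast Rl_card hl hv b
    calc ((rts t c (X / (l : ℝ) ^ b)).card : ℝ) * ((Rl t c l b).card : ℝ)
        ≤ (C * (X / (l : ℝ) ^ b)) * (2 * (l : ℝ) ^ v) :=
          mul_le_mul h5 h6 (by positivity) (by positivity)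
      _ = _ := by
          rw [one_div, inv_pow]
          ring
  refine h1.trans ?_
  rw [← mul_sum]
  have hgeo : ∑ b ∈ Ico a (N + a + 1), (1 / (l : ℝ)) ^ b ≤ 2 / (l : ℝ) ^ a := by
    have h2 : ∑ b ∈ Ico a (N + a + 1), (1 / (l : ℝ)) ^ b =
        (1 / (l : ℝ)) ^ a * ∑ b ∈ range (N + 1), (1 / (l : ℝ)) ^ b := by
      rw [sum_Ico_eq_sum_range, mul_sum]
      have : N + a + 1 - a = N + 1 := by omega
      rw [this]
      exact sum_congr rfl fun b _ => pow_add _ _ _
    rw [h2]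
    have h3 : ∑ b ∈ range (N + 1), (1 / (l : ℝ)) ^ b ≤ 2 := by
      calc ∑ b ∈ range (N + 1), (1 / (l : ℝ)) ^ b ≤ ∑ b ∈ range (N + 1), (1 / (2 : ℝ)) ^ b := by
            apply sum_le_sum
            intro b _
            apply pow_le_pow_left₀ (by positivity)
            exact one_div_le_one_div_of_le two_pos hl2
        _ ≤ 2 := sum_geometric_two_le _
    calc (1 / (l : ℝ)) ^ a * ∑ b ∈ range (N + 1), (1 / (l : ℝ)) ^ b ≤ (1 / (l : ℝ)) ^ a * 2 :=
          mul_le_mul_of_nonneg_left h3 (by positivity)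
      _ = 2 / (l : ℝ) ^ a := by
          rw [one_div, inv_pow]
          ring
  calc C * (2 * (l : ℝ) ^ v) * X * ∑ b ∈ Ico a (N + a + 1), (1 / (l : ℝ)) ^ b
      ≤ C * (2 * (l : ℝ) ^ v) * X * (2 / (l : ℝ) ^ a) :=
        mul_le_mul_of_nonneg_left hgeo (by positivity)
    _ = _ := by ring

/-- few triples with `NT e` divisible by a large power of `l` -/
lemma pow_tri (hroot : S_ROOT t c) (hve : S_VET t c) (hD : t ^ 2 - 4 * c ≠ 0) {l : ℕ}
    (hl : l.Prime) {δ : ℝ} (hδ : 0 < δ) : ∃ a : ℕ, ∀ X : ℝ, 1 ≤ X →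
    (open scoped Classical in
    (((tri t c X X).filter (fun e => l ^ (2 * a) ∣ NT e)).card : ℝ)) ≤ δ * X := by
  classical
  obtain ⟨K, hK, hKc⟩ := pow_card hroot hD hl
  obtain ⟨C, hC, hV⟩ := hve
  set κ : ℝ := min 1 (δ / (2 * C)) with hκ
  have hκ0 : 0 < κ := lt_min one_pos (by positivity)
  have hl2 : (2 : ℝ) ≤ l := by exact_mod_cast hl.two_le
  obtain ⟨a, ha⟩ : ∃ a : ℕ, 2 * C * K / (κ * δ) ≤ (l : ℝ) ^ a := by
    obtain ⟨a, ha⟩ := pow_unbounded_of_one_lt (2 * C * K / (κ * δ)) (by linarith : (1 : ℝ) < l)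
    exact ⟨a, ha.le⟩
  have hla : 0 < (l : ℝ) ^ a := by positivity
  refine ⟨a, fun X hX => ?_⟩
  set V := (rts t c X).filter (fun e => l ^ a ∣ e.1) with hVd
  have hVs : V ⊆ rts t c X := filter_subset _ _
  have h1 := hV κ X V hκ0 (min_le_left _ _) hX hVs
  have hsub : (tri t c X X).filter (fun e => l ^ (2 * a) ∣ NT e) ⊆
      (tri t c X X).filter (fun e => vx e ∈ V ∨ vy e ∈ V) := by
    intro e he
    rw [mem_filter] at he ⊢
    refine ⟨he.1, ?_⟩
    have h2 := he.2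
    unfold NT at h2
    have h3 : l ^ a ∣ e.1 ∨ l ^ a ∣ e.2.2 := by
      by_contra hcon
      push Not at hcon
      have hn1 : e.1 ≠ 0 := by
        have := (mem_tri.1 he.1).1
        omega
      have hn2 : e.2.2 ≠ 0 := by
        have := (mem_tri.1 he.1).2.2.1
        omega
      rw [hl.pow_dvd_iff_le_factorization (mul_ne_zero hn1 hn2), Nat.factorization_mul hn1 hn2,
        Finsupp.add_apply] at h2
      have h4 : ¬ a ≤ e.1.factorization l := fun h =>
        hcon.1 ((hl.pow_dvd_iff_le_factorization hn1).2 h)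
      have h5 : ¬ a ≤ e.2.2.factorization l := fun h =>
        hcon.2 ((hl.pow_dvd_iff_le_factorization hn2).2 h)
      omega
    rcases h3 with h3 | h3
    · left
      rw [hVd, mem_filter]
      exact ⟨vx_mem he.1, h3⟩
    · right
      rw [hVd, mem_filter]
      exact ⟨vy_mem he.1, h3⟩
  have h2 : (((tri t c X X).filter (fun e => l ^ (2 * a) ∣ NT e)).card : ℝ) ≤
      (((tri t c X X).filter (fun e => vx e ∈ V ∨ vy e ∈ V)).card : ℝ) := by
    exact_mod_cast card_le_card hsub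
  have hX0 : 0 ≤ X := by linarith
  have h3 : (V.card : ℝ) ≤ K * X / (l : ℝ) ^ a := hKc a X hX0
  have h4 : C * (κ * X) ≤ δ / 2 * X := by
    have : C * κ ≤ δ / 2 := by
      have h5 : κ ≤ δ / (2 * C) := min_le_right _ _
      calc C * κ ≤ C * (δ / (2 * C)) := mul_le_mul_of_nonneg_left h5 hC.le
        _ = δ / 2 := by field_simp
    nlinarith
  have h5 : C * ((V.card : ℝ) / κ) ≤ δ / 2 * X := by
    have h6 : C * ((V.card : ℝ) / κ) ≤ C * ((K * X / (l : ℝ) ^ a) / κ) := by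
      apply mul_le_mul_of_nonneg_left _ hC.le
      exact div_le_div_of_nonneg_right h3 hκ0.le
    refine h6.trans ?_
    rw [div_le_iff₀ (by positivity)] at ha
    have e : C * ((K * X / (l : ℝ) ^ a) / κ) = (C * K) * X / ((l : ℝ) ^ a * κ) := by
      field_simp
    rw [e, div_le_iff₀ (by positivity)]
    nlinarith
  calc _ ≤ _ := h2
    _ ≤ C * (κ * X + (V.card : ℝ) / κ) := h1
    _ = C * (κ * X) + C * ((V.card : ℝ) / κ) := by ring
    _ ≤ δ * X := by linarith

/-- **SQBT** -/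
theorem sqbt (hns : ¬ IsSquare (t ^ 2 - 4 * c)) : S_SQBT t c := by
  classical
  intro δ hδ
  have hrep := Pool.Agent.W571.GT.rep hns
  have hroot := Pool.Agent.W29.GT.root_of hrep
  have hve := Pool.Agent.W29.GT.vet_of hroot
  have hD : t ^ 2 - 4 * c ≠ 0 := by
    intro h
    apply hns
    rw [h]
    exact ⟨0, by ring⟩
  obtain ⟨C, hC, hsq⟩ := sqt' hns
  obtain ⟨z₀, hz₀⟩ := exists_nat_ge (2 * C / δ)
  set z : ℕ := max (max 2 (2 * (t ^ 2 - 4 * c)).natAbs) z₀ with hz
  have hz2 : 2 ≤ z := (le_max_left _ _).trans (le_max_left _ _)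
  have hzD : (2 * (t ^ 2 - 4 * c)).natAbs ≤ z := (le_max_right _ _).trans (le_max_left _ _)
  have hz0 : (z₀ : ℝ) ≤ z := by exact_mod_cast le_max_right _ _
  have hzR : (2 : ℝ) ≤ z := by exact_mod_cast hz2
  obtain ⟨X₁, hX₁⟩ := hsq z hz2 hzD
  have hex : ∀ l : ℕ, ∃ a : ℕ, l.Prime → ∀ X : ℝ, 1 ≤ X →
      (((tri t c X X).filter (fun e => l ^ (2 * a) ∣ NT e)).card : ℝ) ≤
        δ / (2 * (z + 1)) * X := by
    intro l
    by_cases hl : l.Prime
    · obtain ⟨a, ha⟩ := pow_tri hroot hve hD hl (δ := δ / (2 * (z + 1))) (by positivity)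
      exact ⟨a, fun _ X hX => by convert ha X hX⟩
    · exact ⟨0, fun h => absurd h hl⟩
  choose a ha using hex
  set S : ℕ := ∏ l ∈ (range (z + 1)).filter Nat.Prime, l ^ (a l) with hS
  refine ⟨S, max 1 X₁, fun X hX => ?_⟩
  have hX1 : 1 ≤ X := (le_max_left _ _).trans hX
  have hX0 : 0 ≤ X := by linarith
  set BL := (tri t c X X).filter (fun e => ∃ l : ℕ, l.Prime ∧ z < l ∧ l ^ 2 ∣ NT e) with hBL
  set B : ℕ → Finset Tr := fun l => (tri t c X X).filter (fun e => l ^ (2 * a l) ∣ NT e) with hB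
  have hsub : (tri t c X X).filter (fun e => ∃ k : ℕ, S < k ∧ k ^ 2 ∣ NT e) ⊆
      BL ∪ ((range (z + 1)).filter Nat.Prime).biUnion B := by
    intro e he
    rw [mem_filter] at he
    obtain ⟨he1, k, hk, hke⟩ := he
    have hk0 : k ≠ 0 := by omega
    rw [mem_union]
    by_cases h1 : ∃ l : ℕ, l.Prime ∧ z < l ∧ l ∣ k
    · obtain ⟨l, hl, hzl, hlk⟩ := h1
      left
      rw [hBL, mem_filter]
      exact ⟨he1, l, hl, hzl, (pow_dvd_pow_of_dvd hlk 2).trans hke⟩
    · push Not at h1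
      right
      have h2 : ∃ l ∈ (range (z + 1)).filter Nat.Prime, l ^ (a l) ∣ k := by
        by_contra hcon
        push Not at hcon
        have hS0 : S ≠ 0 := by
          rw [hS]
          apply prod_ne_zero_iff.2
          intro l hl
          rw [mem_filter] at hl
          exact pow_ne_zero _ hl.2.ne_zero
        have h3 : k ∣ S := by
          rw [← Nat.factorization_prime_le_iff_dvd hk0 hS0]
          intro p hp
          by_cases hpk : p ∣ k
          · have hpz : p ≤ z := by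
              by_contra h4
              exact h1 p hp (by omega) hpk
            have hpm : p ∈ (range (z + 1)).filter Nat.Prime :=
              mem_filter.2 ⟨mem_range.2 (by omega), hp⟩
            have h4 := hcon p hpm
            rw [hp.pow_dvd_iff_le_factorization hk0] at h4
            have h5 : p ^ (a p) ∣ S := dvd_prod_of_mem _ hpm
            rw [hp.pow_dvd_iff_le_factorization hS0] at h5
            omega
          · rw [Nat.factorization_eq_zero_of_not_dvd hpk]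
            exact Nat.zero_le _
        have := Nat.le_of_dvd (Nat.pos_of_ne_zero hS0) h3
        omega
      obtain ⟨l, hl, hlk⟩ := h2
      rw [mem_biUnion]
      refine ⟨l, hl, ?_⟩
      rw [hB, mem_filter]
      refine ⟨he1, dvd_trans ?_ hke⟩
      have := pow_dvd_pow_of_dvd hlk 2
      rwa [← pow_mul, mul_comm (a l) 2] at this
  have h1 : (BL.card : ℝ) ≤ δ / 2 * X := by
    have h2 := hX₁ X ((le_max_right _ _).trans hX)
    refine (le_trans (le_of_eq ?_) h2).trans ?_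
    · rw [hBL]
    · apply mul_le_mul_of_nonneg_right _ hX0
      rw [div_le_iff₀ (by positivity)]
      rw [div_le_iff₀ hδ] at hz₀
      nlinarith
  have h2 : ∀ l ∈ (range (z + 1)).filter Nat.Prime, ((B l).card : ℝ) ≤ δ / (2 * (z + 1)) * X := by
    intro l hl
    rw [mem_filter] at hl
    exact ha l hl.2 X hX1
  have h3 : (((range (z + 1)).filter Nat.Prime).biUnion B).card ≤
      ∑ l ∈ (range (z + 1)).filter Nat.Prime, (B l).card := card_biUnion_le
  have h4 : ((((range (z + 1)).filter Nat.Prime).biUnion B).card : ℝ) ≤ δ / 2 * X := by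
    have h5 : ((((range (z + 1)).filter Nat.Prime).biUnion B).card : ℝ) ≤
        ∑ l ∈ (range (z + 1)).filter Nat.Prime, ((B l).card : ℝ) := by exact_mod_cast h3
    refine h5.trans ((sum_le_sum h2).trans ?_)
    rw [sum_const, nsmul_eq_mul]
    have h6 : (((range (z + 1)).filter Nat.Prime).card : ℝ) ≤ z + 1 := by
      have := card_filter_le (range (z + 1)) Nat.Prime
      rw [card_range] at this
      exact_mod_cast this
    calc (((range (z + 1)).filter Nat.Prime).card : ℝ) * (δ / (2 * (z + 1)) * X)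
        ≤ (z + 1) * (δ / (2 * (z + 1)) * X) := mul_le_mul_of_nonneg_right h6 (by positivity)
      _ = δ / 2 * X := by field_simp
  have h5 := (card_le_card hsub).trans (card_union_le _ _)
  have h6 : (((tri t c X X).filter (fun e => ∃ k : ℕ, S < k ∧ k ^ 2 ∣ NT e)).card : ℝ) ≤
      (BL.card : ℝ) + ((((range (z + 1)).filter Nat.Prime).biUnion B).card : ℝ) := by
    exact_mod_cast h5
  linarith

end Pool.Agent.L5helper2.TW
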