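import Pool.Agent.L5helper2.TW.Post
import Pool.Agent.L5helper2.TW.Sqb
import Pool.Agent.W672.G.Cont
import Pool.Agent.W193.G.Final
import Pool.Agent.W29.GT.Typ

/-!
Project TW (helper2): the four sign patterns at the pairs `d d' = a n^2 + b n + c`, for every
quadratic polynomial of positive nonsquare discriminant.
-/

set_option autoImplicit false

namespace Pool.Agent.L5helper2.TW

open Pool.Agent.W84.G

/-- **the final theorem** -/
theorem final_pos {a b c : ℤ} (ha : 0 < a) (hd : 0 < b ^ 2 - 4 * a * c)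
    (hns : ¬ IsSquare (b ^ 2 - 4 * a * c)) : FinalG a b c := by
  have e : b ^ 2 - 4 * (a * c) = b ^ 2 - 4 * a * c := by ring
  have hns' : ¬ IsSquare (b ^ 2 - 4 * (a * c)) := by rw [e]; exact hns
  have hd' : 4 * (a * c) < b ^ 2 := by linarith
  have hrep := Pool.Agent.W571.GT.rep hns'
  have hroot := Pool.Agent.W29.GT.root_of hrep
  have hve := Pool.Agent.W29.GT.vet_of hroot
  have htyp := Pool.Agent.W29.GT.typt hns'
  have hD0 : 0 < b ^ 2 - 4 * (a * c) := by linarith
  set q : ℕ := (4 * (b ^ 2 - 4 * (a * c)) * a).toNat with hq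
  have hqz : (q : ℤ) = 4 * (b ^ 2 - 4 * (a * c)) * a := Int.toNat_of_nonneg (by positivity)
  have hq1 : 1 ≤ q := by
    have : (0 : ℤ) < q := by rw [hqz]; positivity
    exact_mod_cast this
  have h4 : 4 * (b ^ 2 - 4 * (a * c)) ∣ (q : ℤ) := by rw [hqz]; exact Dvd.intro _ rfl
  have haq : a ∣ (q : ℤ) := by rw [hqz]; exact Dvd.intro_left _ rfl
  exact Pool.Agent.W193.G.finalg a b c ha q hq1 haq (post hd' hns' hq1 h4) (sqbt hns')
    (Pool.Agent.W672.G.cont hns' hroot hve htyp)

end Pool.Agent.L5helper2.TW
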