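import Pool.Agent.W54.GR.Pair
import Pool.Agent.L5helper2.TW.Defs

/-!
Project TW (helper2): close directions give pairs of small determinant.
-/

set_option autoImplicit false

namespace Pool.Agent.L5helper2.TW

open Finset Filter
open Pool.Agent.H376R2.MR (Fj FK)
open Pool.Agent.W78.GR hiding GG PE S_MOM0 S_MOMP S_MOM S_CELLE S_DEC S_MR
open Pool.Agent.W54.GR (rj rd abs_rd_le Fj_rd exists_primpart dt_zero_tp sd_two abs_sinh_le
  geom_half geom_quarter pt_bound kap_pos)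

variable {t c : ℤ} {η : (Qd t c)ˣ}

/-- both embeddings of `z` are of the size of `√X` -/
def Bx (b B X : ℝ) (z : Qd t c) : Prop :=
  b * Real.sqrt X ≤ s1 z ∧ s1 z ≤ B * Real.sqrt X ∧ b * Real.sqrt X ≤ s2 z ∧
    s2 z ≤ B * Real.sqrt X

/-- a good pair -/
structure Pq (Pc : Qd t c → Prop) (T : ℕ) (b B X : ℝ) (e : Qd t c × Qd t c) : Prop where
  pr1 : prim e.1
  pr2 : prim e.2
  c1 : Pc e.1
  c2 : Pc e.2
  b1 : Bx b B X e.1
  b2 : Bx b B X e.2
  dt0 : dt e.1 e.2 ≠ 0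
  dt1 : |dt e.1 e.2| ≤ T
  ne : gl e.1 ≠ gl e.2

lemma Un.box (U : Un t c η) {z : Qd t c} (hz : tp z) (ha : |ang η z| ≤ 4 * Real.pi) {lo hi : ℝ}
    (hlo : 0 ≤ lo) (h1 : lo ≤ nm z) (h2 : (nm z : ℝ) ≤ hi) :
    Real.sqrt lo / s1 (η : Qd t c) ^ 2 ≤ s1 z ∧ s1 z ≤ s1 (η : Qd t c) ^ 2 * Real.sqrt hi ∧
      Real.sqrt lo / s1 (η : Qd t c) ^ 2 ≤ s2 z ∧ s2 z ≤ s1 (η : Qd t c) ^ 2 * Real.sqrt hi := by
  have hR := U.rg_pos
  have hpi := Real.pi_pos
  have hg := U.s1_gt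
  obtain ⟨a1, a2⟩ := U.s1_polar hz
  have hs : s1 (η : Qd t c) ^ 2 = Real.exp (2 * rg η) := by
    unfold rg
    rw [two_mul, Real.exp_add, Real.exp_log (by linarith), pow_two]
  have hb : |rg η / (2 * Real.pi) * ang η z| ≤ 2 * rg η := by
    rw [abs_mul, abs_of_pos (by positivity : 0 < rg η / (2 * Real.pi))]
    calc rg η / (2 * Real.pi) * |ang η z| ≤ rg η / (2 * Real.pi) * (4 * Real.pi) := by gcongr
      _ = 2 * rg η := by field_simp; ring
  obtain ⟨hb1, hb2⟩ := abs_le.1 hb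
  have hn1 := Real.sqrt_le_sqrt h1
  have hn2 := Real.sqrt_le_sqrt h2
  have hn0 := Real.sqrt_nonneg (nm z : ℝ)
  have hl0 := Real.sqrt_nonneg lo
  have e1 : ∀ θ : ℝ, -(2 * rg η) ≤ θ → θ ≤ 2 * rg η →
      Real.sqrt lo / s1 (η : Qd t c) ^ 2 ≤ Real.sqrt (nm z) * Real.exp θ ∧
      Real.sqrt (nm z) * Real.exp θ ≤ s1 (η : Qd t c) ^ 2 * Real.sqrt hi := by
    intro θ k1 k2
    constructor
    · rw [hs, div_eq_mul_inv, ← Real.exp_neg]
      exact mul_le_mul hn1 (Real.exp_le_exp.2 k1) (Real.exp_pos _).le hn0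
    · rw [hs, mul_comm]
      exact mul_le_mul (Real.exp_le_exp.2 k2) hn2 hn0 (Real.exp_pos _).le
  have f1 := e1 _ hb1 hb2
  have f2 := e1 (-(rg η / (2 * Real.pi) * ang η z)) (by linarith) (by linarith)
  rw [← a1] at f1
  rw [← a2] at f2
  exact ⟨f1.1, f1.2, f2.1, f2.2⟩

/-- the content of a multiple of a primitive element -/
lemma content_dvd (hd : 4 * c < t ^ 2) {u z y : Qd t c} {n : ℕ} (hu : tp u) (hz : prim z)
    (h : u * z = (n : Qd t c) * y) : n ∣ nm u := by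
  have h1 : ((nm u : ℕ) : Qd t c) * z = (n : Qd t c) * (star u * y) := by
    rw [← star_mul_self_tp hd hu]
    calc star u * u * z = star u * (u * z) := by ring
      _ = (n : Qd t c) * (star u * y) := by rw [h]; ring
  have h2 : (n : Qd t c) ∣ ((nm u : ℕ) : Qd t c) * z := ⟨_, h1⟩
  rw [natCast_dvd] at h2
  have e1 : (((nm u : ℕ) : Qd t c) * z).re = (nm u : ℤ) * z.re := by simp
  have e2 : (((nm u : ℕ) : Qd t c) * z).im = (nm u : ℤ) * z.im := by simp
  rw [e1, e2] at h2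
  have hb := Int.gcd_eq_gcd_ab z.re z.im
  unfold prim at hz
  rw [hz] at hb
  have h3 : (n : ℤ) ∣ (nm u : ℤ) := by
    have e : (nm u : ℤ) = (nm u : ℤ) * z.re * Int.gcdA z.re z.im +
        (nm u : ℤ) * z.im * Int.gcdB z.re z.im := by
      push_cast at hb
      linear_combination (nm u : ℤ) * hb
    rw [e]
    exact dvd_add (h2.1.mul_right _) (h2.2.mul_right _)
  exact Int.natCast_dvd_natCast.1 h3

/-- a pair of close directions gives a good pair -/
lemma near_pair (U : Un t c η) {Pc : Qd t c → Prop}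
    (hinv : ∀ (j : ℤ) (z : Qd t c), Pc z → Pc (((η ^ j : (Qd t c)ˣ) : Qd t c) * z))
    {Y : ℝ} (hY : 1 ≤ Y) {z z' u y : Qd t c} {n : ℕ}
    (hz : z ∈ pball η (Real.exp 1 * Y)) (hz' : z' ∈ pball η (Real.exp 1 * Y))
    (nz : Y / Real.exp 1 ≤ nm z) (nz' : Y / Real.exp 1 ≤ nm z')
    (cz : Pc z) (cy : Pc y) (hu : tp u) {N₀ : ℝ} (hN₀ : (nm u : ℝ) ≤ N₀)
    (hgl : gl z ≠ gl (u * z')) {δ : ℝ} (hδ0 : 0 ≤ δ)
    (hδ : δ ≤ 1 / 2) (hδ2 : rg η / (2 * Real.pi) * δ ≤ 1)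
    (hr : |rd (ang η z - ang η (u * z'))| ≤ δ) (hn : 0 < n) (hy : prim y)
    (hwy : u * z' = (n : Qd t c) * y) {T : ℕ}
    (hT : N₀ * (Real.exp 1 * Y) * (2 * (rg η / (2 * Real.pi) * δ)) ≤ T) :
    Pq Pc T (1 / (N₀ * Real.exp 1 * s1 (η : Qd t c) ^ 2))
      (N₀ * Real.exp 1 * s1 (η : Qd t c) ^ 2) Y
      (z, ((η ^ rj (ang η z - ang η (u * z')) : (Qd t c)ˣ) : Qd t c) * y) := by
  obtain ⟨hz1, hz2, hz3⟩ := U.mem_pball.1 hz
  obtain ⟨hz1', hz2', hz3'⟩ := U.mem_pball.1 hz'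
  have hpi := Real.pi_gt_three
  have hpi0 := Real.pi_pos
  have hX0 : 0 ≤ Real.exp 1 * Y := (Nat.cast_nonneg _).trans hz3
  have hnR : (0 : ℝ) < n := by exact_mod_cast hn
  have hnR1 : (1 : ℝ) ≤ n := by exact_mod_cast hn
  have hty : tp y := by
    have h1 := tp_mul U.disc hu hz1'.1
    rw [hwy] at h1
    obtain ⟨h2, h3⟩ := h1
    rw [s1_mul U.disc, s1_natCast] at h2
    rw [s2_mul U.disc, s2_natCast] at h3
    exact ⟨(mul_pos_iff_of_pos_left hnR).1 h2, (mul_pos_iff_of_pos_left hnR).1 h3⟩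
  have hangy : ang η (u * z') = ang η y := by
    rw [hwy, ang_mul U.disc (tp_natCast hn) hty, ang_natCast hn, zero_add]
  have hgly : gl (u * z') = gl y := by
    rw [hwy]
    unfold gl
    rw [nm_mul, nm_natCast, lam_sq_mul]
    all_goals first | exact hn.ne' | exact (nm_pos U.disc hty).ne'
  have hnn : n ∣ nm u := content_dvd U.disc hu hz2' hwy
  have hNu : (1 : ℝ) ≤ nm u := one_le_nmR U.disc hu
  have hnu : (n : ℝ) ≤ nm u := by exact_mod_cast Nat.le_of_dvd (nm_pos U.disc hu) hnn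
  have hid : (nm u : ℝ) * nm z' = (n : ℝ) ^ 2 * nm y := by
    have h1 : nm (u * z') = n ^ 2 * nm y := by rw [hwy, nm_mul, nm_natCast]
    rw [nm_mul] at h1
    exact_mod_cast h1
  have hny0 : (0 : ℝ) ≤ nm y := Nat.cast_nonneg _
  have hN1 : 1 ≤ N₀ := hNu.trans hN₀
  have he0 : 0 < Real.exp 1 := Real.exp_pos 1
  have he1 : 1 ≤ Real.exp 1 := Real.one_le_exp (by norm_num)
  have hyX : (nm y : ℝ) ≤ N₀ * (Real.exp 1 * Y) := by
    have h2 : (nm y : ℝ) ≤ (n : ℝ) ^ 2 * nm y :=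
      le_mul_of_one_le_left hny0 (one_le_pow₀ hnR1)
    rw [← hid] at h2
    refine h2.trans ?_
    exact mul_le_mul hN₀ hz3' (Nat.cast_nonneg _) (by linarith)
  have hyL : Y / Real.exp 1 / N₀ ≤ nm y := by
    rw [div_le_iff₀ (by linarith)]
    have h3 : (nm u : ℝ) * (Y / Real.exp 1) ≤ nm u * (nm u * nm y) := by
      calc (nm u : ℝ) * (Y / Real.exp 1) ≤ nm u * nm z' := by gcongr
        _ = (n : ℝ) ^ 2 * nm y := hid
        _ = n * (n * nm y) := by ring
        _ ≤ nm u * (nm u * nm y) := by gcongr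
    have h4 : Y / Real.exp 1 ≤ nm u * nm y := le_of_mul_le_mul_left h3 (by linarith)
    calc Y / Real.exp 1 ≤ nm u * nm y := h4
      _ ≤ N₀ * nm y := by gcongr
      _ = nm y * N₀ := by ring
  rw [hgly] at hgl
  set m : ℤ := rj (ang η z - ang η (u * z')) with hm
  set y' : Qd t c := ((η ^ m : (Qd t c)ˣ) : Qd t c) * y with hy'
  have ty' : tp y' := (U.tp_zpow_mul m).2 hty
  have py' : prim y' := (prim_zpow_mul m).2 hy
  have ny' : nm y' = nm y := Un.nm_zpow_mul m y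
  have ay' : ang η y' = ang η y + 2 * Real.pi * m := U.ang_zpow_mul m hty
  have hr' : |ang η z - ang η y'| ≤ δ := by
    have : ang η z - ang η y' = rd (ang η z - ang η (u * z')) := by
      unfold rd
      rw [ay', ← hm, hangy]
      ring
    rw [this]
    exact hr
  have hgl' : gl z ≠ gl y' := by
    have : gl y' = gl y := by
      unfold gl
      rw [ny']
    rw [this]
    exact hgl
  have hdt : dt z y' ≠ 0 := by
    intro h0
    have h1 := dt_zero_tp hz2 py' hz1.1 ty' h0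
    apply hgl'
    rw [h1]
  have haz : |ang η z| ≤ 4 * Real.pi := by
    rw [abs_of_nonneg hz1.2.1]
    have := hz1.2.2
    linarith
  have hay : |ang η y'| ≤ 4 * Real.pi := by
    have h1 := abs_le.1 hr'
    have h2 := hz1.2.1
    have h3 := hz1.2.2
    rw [abs_le]
    constructor <;> linarith
  have hs0 : 0 < s1 (η : Qd t c) ^ 2 := by
    have := U.s1_gt
    positivity
  have hA : 1 ≤ N₀ * Real.exp 1 := by nlinarith
  have hsqA : Real.sqrt (N₀ * Real.exp 1) ≤ N₀ * Real.exp 1 := by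
    rw [Real.sqrt_le_left (by linarith)]
    nlinarith
  -- the boxes
  have hbox : ∀ x : Qd t c, tp x → |ang η x| ≤ 4 * Real.pi → Y / Real.exp 1 / N₀ ≤ nm x →
      (nm x : ℝ) ≤ N₀ * (Real.exp 1 * Y) →
      Bx (1 / (N₀ * Real.exp 1 * s1 (η : Qd t c) ^ 2))
        (N₀ * Real.exp 1 * s1 (η : Qd t c) ^ 2) Y x := by
    intro x k1 k2 k3 k4
    obtain ⟨g1, g2, g3, g4⟩ := Un.box U k1 k2 (by positivity) k3 k4
    have e1 : 1 / (N₀ * Real.exp 1 * s1 (η : Qd t c) ^ 2) * Real.sqrt Y ≤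
        Real.sqrt (Y / Real.exp 1 / N₀) / s1 (η : Qd t c) ^ 2 := by
      have h1 : Y / Real.exp 1 / N₀ = Y / (N₀ * Real.exp 1) := by
        rw [div_div, mul_comm]
      rw [h1, Real.sqrt_div (by linarith), div_div, one_div, inv_mul_eq_div]
      apply div_le_div_of_nonneg_left (Real.sqrt_nonneg _) (by positivity)
      exact mul_le_mul_of_nonneg_right hsqA hs0.le
    have e2 : s1 (η : Qd t c) ^ 2 * Real.sqrt (N₀ * (Real.exp 1 * Y)) ≤
        N₀ * Real.exp 1 * s1 (η : Qd t c) ^ 2 * Real.sqrt Y := by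
      rw [← mul_assoc N₀, Real.sqrt_mul (by linarith)]
      calc s1 (η : Qd t c) ^ 2 * (Real.sqrt (N₀ * Real.exp 1) * Real.sqrt Y)
          ≤ s1 (η : Qd t c) ^ 2 * ((N₀ * Real.exp 1) * Real.sqrt Y) := by gcongr
        _ = _ := by ring
    exact ⟨e1.trans g1, g2.trans e2, e1.trans g3, g4.trans e2⟩
  have hY0 : 0 < Y := by linarith
  refine ⟨hz2, py', cz, hinv m y cy, hbox z hz1.1 haz ?_ ?_, hbox y' ty' hay ?_ ?_, hdt, ?_, hgl'⟩
  · exact (div_le_self (by positivity) hN1).trans nz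
  · exact hz3.trans (le_mul_of_one_le_left hX0 hN1)
  · rw [ny']; exact hyL
  · rw [ny']; exact hyX
  · -- the determinant
    have h1 := U.dt_sinh hz1.1 ty'
    have h2 := sd_two U
    have hb0 : 0 < rg η / (2 * Real.pi) := by
      have := U.rg_pos
      positivity
    have h3 : |rg η / (2 * Real.pi) * (ang η y' - ang η z)| ≤ rg η / (2 * Real.pi) * δ := by
      rw [abs_mul, abs_of_pos hb0, abs_sub_comm]
      exact mul_le_mul_of_nonneg_left hr' hb0.le
    have h4 := abs_sinh_le (h3.trans hδ2)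
    have h5 : Real.sqrt ((nm z : ℝ) * nm y') ≤ N₀ * (Real.exp 1 * Y) := by
      rw [Real.sqrt_le_left (by positivity), ny', pow_two]
      refine mul_le_mul (hz3.trans (le_mul_of_one_le_left hX0 hN1)) hyX hny0 (by positivity)
    have h6 : |(dt z y' : ℝ)| ≤ T := by
      have e1 : 2 * |(dt z y' : ℝ)| ≤ |Real.sqrt ((t : ℝ) ^ 2 - 4 * c) * (dt z y' : ℝ)| := by
        rw [abs_mul, abs_of_nonneg (by linarith : (0 : ℝ) ≤ Real.sqrt ((t : ℝ) ^ 2 - 4 * c))]
        exact mul_le_mul_of_nonneg_right h2 (abs_nonneg _)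
      rw [h1, abs_mul (2 * Real.sqrt ((nm z : ℝ) * nm y')),
        abs_of_nonneg (by positivity : (0 : ℝ) ≤ 2 * Real.sqrt ((nm z : ℝ) * nm y'))] at e1
      have e2 : 2 * Real.sqrt ((nm z : ℝ) * nm y') *
          |Real.sinh (rg η / (2 * Real.pi) * (ang η y' - ang η z))| ≤
          2 * (N₀ * (Real.exp 1 * Y)) * (2 * (rg η / (2 * Real.pi) * δ)) := by
        apply mul_le_mul _ _ (abs_nonneg _) (by positivity)
        · linarith
        · linarith
      linarith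
    exact_mod_cast h6

end Pool.Agent.L5helper2.TW
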