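import Pool.Agent.L5helper2.TW.Chv
import Pool.Agent.L5helper2.TW.Near

/-!
Project TW (helper2): the order of index `q` in the quadratic order.
-/

set_option autoImplicit false

namespace Pool.Agent.L5helper2.TW

open Pool.Agent.W78.GR hiding GG PE S_MOM0 S_MOMP S_MOM S_CELLE S_DEC S_MR
open Pool.Agent.W84.G (Nz)

variable {t c : ℤ} {q : ℕ}

/-- the order of index `q` -/
abbrev Oq (t c : ℤ) (q : ℕ) := Qd ((q : ℤ) * t) ((q : ℤ) ^ 2 * c)

/-- the inclusion of the order of index `q` -/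
def io (z : Oq t c q) : Qd t c := ⟨z.re, (q : ℤ) * z.im⟩

@[simp] lemma io_re (z : Oq t c q) : (io z).re = z.re := rfl
@[simp] lemma io_im (z : Oq t c q) : (io z).im = (q : ℤ) * z.im := rfl

lemma io_Nz (z : Oq t c q) : Nz (io z) = Nz z := by
  unfold Nz io
  ring

lemma io_nm (z : Oq t c q) : nm (io z) = nm z := by
  rw [nm_Nz, nm_Nz, io_Nz]

lemma io_gl (z : Oq t c q) : gl (io z) = gl z := by
  unfold gl
  rw [io_nm]

lemma io_mul (z w : Oq t c q) : io (z * w) = io z * io w := by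
  apply QuadraticAlgebra.ext
  · simp only [QuadraticAlgebra.re_mul, io_re, io_im]
    ring
  · simp only [QuadraticAlgebra.im_mul, io_re, io_im]
    ring

lemma io_one : io (1 : Oq t c q) = 1 := by
  apply QuadraticAlgebra.ext
  · simp [QuadraticAlgebra.re_one]
  · simp [QuadraticAlgebra.im_one]

lemma io_inj (hq : 1 ≤ q) : Function.Injective (io : Oq t c q → Qd t c) := by
  intro z w h
  have h1 := congrArg QuadraticAlgebra.re h
  have h2 := congrArg QuadraticAlgebra.im h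
  simp only [io_re, io_im] at h1 h2
  have hq0 : (q : ℤ) ≠ 0 := by
    have : q ≠ 0 := by omega
    exact_mod_cast this
  exact QuadraticAlgebra.ext h1 (mul_left_cancel₀ hq0 h2)

lemma io_dt (z w : Oq t c q) : dt (io z) (io w) = (q : ℤ) * dt z w := by
  unfold dt
  simp only [io_re, io_im]
  ring

lemma sqrt_q : Real.sqrt ((((q : ℤ) * t : ℤ) : ℝ) ^ 2 - 4 * (((q : ℤ) ^ 2 * c : ℤ) : ℝ)) =
    (q : ℝ) * Real.sqrt ((t : ℝ) ^ 2 - 4 * c) := by
  have e : (((q : ℤ) * t : ℤ) : ℝ) ^ 2 - 4 * (((q : ℤ) ^ 2 * c : ℤ) : ℝ) =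
      (q : ℝ) ^ 2 * ((t : ℝ) ^ 2 - 4 * c) := by
    push_cast
    ring
  rw [e, Real.sqrt_mul (by positivity), Real.sqrt_sq (Nat.cast_nonneg q)]

lemma io_s1 (z : Oq t c q) : s1 (io z) = s1 z := by
  unfold s1
  rw [sqrt_q]
  simp only [io_re, io_im]
  push_cast
  ring

lemma io_s2 (z : Oq t c q) : s2 (io z) = s2 z := by
  unfold s2
  rw [sqrt_q]
  simp only [io_re, io_im]
  push_cast
  ring

lemma io_tp (z : Oq t c q) : tp (io z) ↔ tp z := by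
  unfold tp
  rw [io_s1, io_s2]

lemma lv (hq : 1 ≤ q) (h4 : 4 * (t ^ 2 - 4 * c) ∣ (q : ℤ)) :
    Lv ((q : ℤ) * t) ((q : ℤ) ^ 2 * c) (t ^ 2 - 4 * c) q where
  q1 := hq
  h4 := h4
  tq := Dvd.intro _ rfl
  cq := (Dvd.intro_left (q : ℤ) (by ring) : (q : ℤ) ∣ (q : ℤ) ^ 2).mul_right _
  dd := by ring

lemma io_prim {z : Oq t c q} (hz : prim z) (hc : IsCoprime z.re (q : ℤ)) : prim (io z) := by
  unfold prim at hz ⊢
  rw [← Int.isCoprime_iff_gcd_eq_one] at hz ⊢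
  rw [io_re, io_im]
  exact IsCoprime.mul_right hc hz

lemma disc_q (hq : 1 ≤ q) (hd : 4 * c < t ^ 2) : 4 * ((q : ℤ) ^ 2 * c) < ((q : ℤ) * t) ^ 2 := by
  have hq0 : (0 : ℤ) < (q : ℤ) ^ 2 := by
    have : (0 : ℤ) < q := by exact_mod_cast hq
    positivity
  nlinarith

lemma nsq_q (hq : 1 ≤ q) (hns : ¬ IsSquare (t ^ 2 - 4 * c)) :
    ¬ IsSquare (((q : ℤ) * t) ^ 2 - 4 * ((q : ℤ) ^ 2 * c)) := by
  rintro ⟨m, hm⟩
  apply hns
  have hq0 : (q : ℤ) ≠ 0 := by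
    have : q ≠ 0 := by omega
    exact_mod_cast this
  have e : (q : ℤ) ^ 2 * (t ^ 2 - 4 * c) = m ^ 2 := by linarith
  have h1 : (q : ℤ) ∣ m := by
    have : (q : ℤ) ^ 2 ∣ m ^ 2 := ⟨_, e.symm⟩
    exact (Int.pow_dvd_pow_iff two_ne_zero).1 this
  obtain ⟨k, rfl⟩ := h1
  refine ⟨k, ?_⟩
  have hq2 : (q : ℤ) ^ 2 ≠ 0 := pow_ne_zero 2 hq0
  apply mul_left_cancel₀ hq2
  linarith

end Pool.Agent.L5helper2.TW
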