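import Pool.Agent.L5helper2.TW.U0
import Pool.Agent.L5helper2.TW.A0q
import Pool.Agent.L5helper2.TW.Path2

/-!
Project TW (helper2): many pairs of small positive determinant and of opposite sign, both members
in the same colour, in the order itself.
-/

set_option autoImplicit false

namespace Pool.Agent.L5helper2.TW

open Finset
open Pool.Agent.W78.GR hiding GG PE S_MOM0 S_MOMP S_MOM S_CELLE S_DEC S_MR
open Pool.Agent.W84.G (Nz)

variable {t c : ℤ} {q : ℕ}

lemma Bx.mono {b B b' B' X : ℝ} {z : Qd t c} (h : Bx b B X z) (hb : b' ≤ b) (hB : B ≤ B') :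
    Bx b' B' X z := by
  have h0 := Real.sqrt_nonneg X
  obtain ⟨h1, h2, h3, h4⟩ := h
  exact ⟨(mul_le_mul_of_nonneg_right hb h0).trans h1,
    h2.trans (mul_le_mul_of_nonneg_right hB h0), (mul_le_mul_of_nonneg_right hb h0).trans h3,
    h4.trans (mul_le_mul_of_nonneg_right hB h0)⟩

lemma Pq.mono {Pc : Qd t c → Prop} {T T' : ℕ} {b B b' B' X : ℝ} {e : Qd t c × Qd t c}
    (h : Pq Pc T b B X e) (hT : T ≤ T') (hb : b' ≤ b) (hB : B ≤ B') : Pq Pc T' b' B' X e :=
  ⟨h.pr1, h.pr2, h.c1, h.c2, h.b1.mono hb hB, h.b2.mono hb hB, h.dt0,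
    h.dt1.trans (by exact_mod_cast hT), h.ne⟩

/-- pairs in one of the two colours, in the order of index `q` -/
theorem pairs_q (hd : 4 * c < t ^ 2) (hns : ¬ IsSquare (t ^ 2 - 4 * c)) (hq : 1 ≤ q)
    (h4 : 4 * (t ^ 2 - 4 * c) ∣ (q : ℤ)) :
    ∃ (T : ℕ) (b B ε Y₀ : ℝ), 0 < b ∧ 0 < ε ∧ ∀ Y : ℝ, Y₀ ≤ Y → ∃ s : ℤ, (s = 1 ∨ s = -1) ∧
      ∃ S : Finset (Oq t c q × Oq t c q), ε * Y ≤ (S.card : ℝ) ∧
        ∀ e ∈ S, Pq (Cl (t ^ 2 - 4 * c) q s) T b B Y e := by
  classical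
  have L := lv (t := t) (c := c) hq h4
  have hdq := disc_q (t := t) (c := c) hq hd
  have hnq := nsq_q (t := t) (c := c) hq hns
  obtain ⟨η₀, U⟩ := Pool.Agent.W376.GR.unit hdq hnq
  obtain ⟨u₀, tu, pu, gu, cu⟩ := u0_col hd hns hq h4
  obtain ⟨c₀, hc₀, Y₀, hmass⟩ := a0q L (Un.sq U) (Pool.Agent.W398.GR.lat (Un.sq U))
  obtain ⟨T₁, b₁, B₁, ε₁, Y₁, hb₁, hε₁, h₁⟩ := pairs_col L U tu pu gu cu
    (c₀ := c₀ / 2) (by positivity) (s := 1) (Or.inl rfl)
  obtain ⟨T₂, b₂, B₂, ε₂, Y₂, hb₂, hε₂, h₂⟩ := pairs_col L U tu pu gu cu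
    (c₀ := c₀ / 2) (by positivity) (s := -1) (Or.inr rfl)
  refine ⟨max T₁ T₂, min b₁ b₂, max B₁ B₂, min ε₁ ε₂, max (max Y₁ Y₂) (max Y₀ 0),
    lt_min hb₁ hb₂, lt_min hε₁ hε₂, fun Y hY => ?_⟩
  have g1 : Y₁ ≤ Y := (le_max_left _ _).trans ((le_max_left _ _).trans hY)
  have g2 : Y₂ ≤ Y := (le_max_right _ _).trans ((le_max_left _ _).trans hY)
  have g0 : Y₀ ≤ Y := (le_max_left _ _).trans ((le_max_right _ _).trans hY)
  have gp : 0 ≤ Y := (le_max_right _ _).trans ((le_max_right _ _).trans hY)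
  have hm := hmass Y g0
  have hsplit : ∑ z ∈ (bq (η₀ ^ 2) q (Real.exp 1 * Y)).filter prim, bg Y z ≤
      ∑ z ∈ pball (η₀ ^ 2) (Real.exp 1 * Y), Ac (Cl (t ^ 2 - 4 * c) q 1) Y z +
      ∑ z ∈ pball (η₀ ^ 2) (Real.exp 1 * Y), Ac (Cl (t ^ 2 - 4 * c) q (-1)) Y z := by
    rw [← sum_add_distrib]
    have e1 : (bq (η₀ ^ 2) q (Real.exp 1 * Y)).filter prim =
        (pball (η₀ ^ 2) (Real.exp 1 * Y)).filter (fun z : Oq t c q => Nat.Coprime (nm z) q) := by
      unfold bq pball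
      rw [filter_comm]
    rw [e1, sum_filter]
    apply sum_le_sum
    intro z hz
    have hb := Pool.Agent.W78.GA.bg_nonneg Y z
    unfold Ac Cl
    by_cases h : Nat.Coprime (nm z) q
    · rw [if_pos h]
      rcases L.co_eq h with h3 | h3
      · rw [h3, if_pos rfl, if_neg (by norm_num), add_zero]
      · rw [h3, if_pos rfl, if_neg (by norm_num), zero_add]
    · rw [if_neg h]
      apply add_nonneg <;> split_ifs <;> first | exact hb | exact le_rfl
  rcases le_or_gt (c₀ / 2) (∑ z ∈ pball (η₀ ^ 2) (Real.exp 1 * Y),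
    Ac (Cl (t ^ 2 - 4 * c) q 1) Y z) with h | h
  · obtain ⟨S, hS1, hS2⟩ := h₁ Y g1 h
    refine ⟨1, Or.inl rfl, S, le_trans ?_ hS1, fun e he => (hS2 e he).mono (le_max_left _ _)
      (min_le_left _ _) (le_max_left _ _)⟩
    exact mul_le_mul_of_nonneg_right (min_le_left _ _) gp
  · obtain ⟨S, hS1, hS2⟩ := h₂ Y g2 (by linarith)
    refine ⟨-1, Or.inr rfl, S, le_trans ?_ hS1, fun e he => (hS2 e he).mono (le_max_right _ _)
      (min_le_right _ _) (le_max_right _ _)⟩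
    exact mul_le_mul_of_nonneg_right (min_le_right _ _) gp

/-- a good pair in the order: same colour, small positive determinant, `λ(N x) = g = -λ(N y)` -/
structure Pr (q : ℕ) (g : ℤ) (T : ℕ) (b B X : ℝ) (e : Qd t c × Qd t c) : Prop where
  pr1 : prim e.1
  pr2 : prim e.2
  q1 : (q : ℤ) ∣ e.1.im
  q2 : (q : ℤ) ∣ e.2.im
  c1 : IsCoprime e.1.re (q : ℤ)
  c2 : IsCoprime e.2.re (q : ℤ)
  cc : chv (t ^ 2 - 4 * c) q e.1.re = chv (t ^ 2 - 4 * c) q e.2.re
  b1 : Bx b B X e.1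
  b2 : Bx b B X e.2
  dt0 : 0 < dt e.1 e.2
  dt1 : dt e.1 e.2 ≤ T
  g1 : gl e.1 = g
  g2 : gl e.2 = -g

lemma s1_star' (z : Qd t c) : s1 (star z) = s2 z := by
  unfold s1 s2
  simp only [QuadraticAlgebra.re_star, QuadraticAlgebra.im_star]
  push_cast
  ring

lemma s2_star' (z : Qd t c) : s2 (star z) = s1 z := by
  unfold s1 s2
  simp only [QuadraticAlgebra.re_star, QuadraticAlgebra.im_star]
  push_cast
  ring

lemma Bx.star {b B X : ℝ} {z : Qd t c} (h : Bx b B X z) : Bx b B X (star z) := by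
  unfold Bx at h ⊢
  rw [s1_star', s2_star']
  exact ⟨h.2.2.1, h.2.2.2, h.1, h.2.1⟩

lemma dt_star_swap (z w : Qd t c) : dt (star w) (star z) = dt z w := by
  unfold dt
  simp only [QuadraticAlgebra.re_star, QuadraticAlgebra.im_star]
  ring

/-- conjugation and exchange -/
lemma Pr.flip {g : ℤ} {T : ℕ} {b B X : ℝ} {x y : Qd t c} (hq : 1 ≤ q)
    (h4 : 4 * (t ^ 2 - 4 * c) ∣ (q : ℤ)) (h : Pr q g T b B X (x, y)) :
    Pr q (-g) T b B X (star y, star x) := by
  have hre : ∀ z : Qd t c, (q : ℤ) ∣ z.im → (q : ℤ) ∣ (star z).re - z.re := by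
    intro z hz
    rw [QuadraticAlgebra.re_star]
    have e : z.re + t * z.im - z.re = z.im * t := by ring
    rw [e]
    exact hz.mul_right _
  have hcop : ∀ z : Qd t c, (q : ℤ) ∣ z.im → IsCoprime z.re (q : ℤ) →
      IsCoprime (star z).re (q : ℤ) := by
    intro z hz hc
    obtain ⟨k, hk⟩ := hre z hz
    have e : (star z).re = z.re + q * k := by linarith
    rw [e]
    exact (IsCoprime.add_mul_left_left_iff).2 hc
  refine ⟨prim_star.2 h.pr2, prim_star.2 h.pr1, ?_, ?_, hcop y h.q2 h.c2, hcop x h.q1 h.c1, ?_,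
    h.b2.star, h.b1.star, ?_, ?_, ?_, ?_⟩
  · rw [QuadraticAlgebra.im_star]; exact h.q2.neg_right
  · rw [QuadraticAlgebra.im_star]; exact h.q1.neg_right
  · rw [chv_congr hq h4 (hre y h.q2), chv_congr hq h4 (hre x h.q1)]
    exact h.cc.symm
  · rw [dt_star_swap]; exact h.dt0
  · rw [dt_star_swap]; exact h.dt1
  · rw [gl_star]; exact h.g2
  · rw [gl_star, neg_neg]; exact h.g1

open scoped Classical in
/-- order the pair -/
noncomputable def ord1 (e : Oq t c q × Oq t c q) : Oq t c q × Oq t c q :=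
  if 0 < dt e.1 e.2 then e else (e.2, e.1)

open scoped Classical in
/-- the map to the order -/
noncomputable def Psi (g : ℤ) (e : Oq t c q × Oq t c q) : Qd t c × Qd t c :=
  if gl (ord1 e).1 = g then (io (ord1 e).1, io (ord1 e).2)
  else (star (io (ord1 e).2), star (io (ord1 e).1))

lemma psi_inj (hq : 1 ≤ q) {g : ℤ} {e f : Oq t c q × Oq t c q}
    (h1 : (0 < dt e.1 e.2) ↔ (0 < dt f.1 f.2)) (h2 : (gl (ord1 e).1 = g) ↔ (gl (ord1 f).1 = g))
    (h : Psi g e = Psi g f) : e = f := by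
  have hord : ord1 e = ord1 f := by
    unfold Psi at h
    by_cases h3 : gl (ord1 e).1 = g
    · rw [if_pos h3, if_pos (h2.1 h3)] at h
      simp only [Prod.mk.injEq] at h
      exact Prod.ext (io_inj hq h.1) (io_inj hq h.2)
    · rw [if_neg h3, if_neg (fun h4 => h3 (h2.2 h4))] at h
      simp only [Prod.mk.injEq] at h
      exact Prod.ext (io_inj hq (star_injective h.2)) (io_inj hq (star_injective h.1))
  unfold ord1 at hord
  by_cases h3 : 0 < dt e.1 e.2
  · rw [if_pos h3, if_pos (h1.1 h3)] at hord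
    exact hord
  · rw [if_neg h3, if_neg (fun h4 => h3 (h1.2 h4))] at hord
    simp only [Prod.mk.injEq] at hord
    exact Prod.ext hord.2 hord.1

lemma psi_Pr (hq : 1 ≤ q) (h4 : 4 * (t ^ 2 - 4 * c) ∣ (q : ℤ)) {g s : ℤ} (hg : g = 1 ∨ g = -1)
    (hs : s = 1 ∨ s = -1) {T : ℕ} {b B X : ℝ} {e : Oq t c q × Oq t c q}
    (h : Pq (Cl (t ^ 2 - 4 * c) q s) T b B X e) : Pr q g (q * T) b B X (Psi g e) := by
  have L := lv (t := t) (c := c) hq h4
  -- ordered
  have h' : Pq (Cl (t ^ 2 - 4 * c) q s) T b B X (ord1 e) ∧ 0 < dt (ord1 e).1 (ord1 e).2 := by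
    unfold ord1
    split_ifs with h1
    · exact ⟨h, h1⟩
    · have h2 : dt e.2 e.1 = -dt e.1 e.2 := by unfold dt; ring
      refine ⟨⟨h.pr2, h.pr1, h.c2, h.c1, h.b2, h.b1, ?_, ?_, h.ne.symm⟩, ?_⟩
      · simp only
        rw [h2]
        exact neg_ne_zero.2 h.dt0
      · simp only
        rw [h2, abs_neg]
        exact h.dt1
      · simp only
        rw [h2]
        have := h.dt0
        omega
  obtain ⟨k, hk⟩ := h'
  set w := ord1 e with hw
  have hcop : ∀ z : Oq t c q, Cl (t ^ 2 - 4 * c) q s z → IsCoprime z.re (q : ℤ) := by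
    intro z hz
    rw [← chv_ne hq h4 (x := z.re)]
    unfold Cl co at hz
    rw [hz]
    rcases hs with h | h <;> rw [h] <;> norm_num
  have key : Pr q (gl w.1) (q * T) b B X (io w.1, io w.2) := by
    refine ⟨io_prim k.pr1 (hcop _ k.c1), io_prim k.pr2 (hcop _ k.c2), Dvd.intro _ rfl,
      Dvd.intro _ rfl, hcop _ k.c1, hcop _ k.c2, ?_, ?_, ?_, ?_, ?_, ?_, ?_⟩
    · have h1 := k.c1
      have h2 := k.c2
      unfold Cl co at h1 h2
      simp only [io_re]
      rw [h1, h2]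
    · have := k.b1
      unfold Bx at this ⊢
      rw [io_s1, io_s2]
      exact this
    · have := k.b2
      unfold Bx at this ⊢
      rw [io_s1, io_s2]
      exact this
    · simp only
      rw [io_dt]
      have : (0 : ℤ) < q := by exact_mod_cast hq
      positivity
    · simp only
      rw [io_dt]
      push_cast
      have h1 := k.dt1
      have h2 := (le_abs_self _).trans h1
      exact mul_le_mul_of_nonneg_left h2 (by positivity)
    · exact io_gl _
    · simp only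
      rw [io_gl]
      have := k.ne
      rcases gl_eq w.1 with h1 | h1 <;> rcases gl_eq w.2 with h2 | h2 <;> rw [h1, h2] at this ⊢
      · exact absurd rfl this
      · norm_num
      · exact absurd rfl this
  unfold Psi
  rw [← hw]
  split_ifs with h1
  · rw [← h1]
    exact key
  · have h2 : g = -gl w.1 := by
      rcases gl_eq w.1 with h3 | h3 <;> rcases hg with h5 | h5 <;> rw [h3, h5] at h1 ⊢
      · exact absurd rfl h1
      · norm_num
      · exact absurd rfl h1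
    rw [h2]
    exact key.flip hq h4

/-- **many pairs** in the order with prescribed sign -/
theorem pairs_g (hd : 4 * c < t ^ 2) (hns : ¬ IsSquare (t ^ 2 - 4 * c)) (hq : 1 ≤ q)
    (h4 : 4 * (t ^ 2 - 4 * c) ∣ (q : ℤ)) {g : ℤ} (hg : g = 1 ∨ g = -1) :
    ∃ (T : ℕ) (b B ε Y₀ : ℝ), 0 < b ∧ 0 < ε ∧ ∀ Y : ℝ, Y₀ ≤ Y →
      ∃ S : Finset (Qd t c × Qd t c), ε * Y ≤ (S.card : ℝ) ∧ ∀ e ∈ S, Pr q g T b B Y e := by
  classical
  obtain ⟨T, b, B, ε, Y₀, hb, hε, h⟩ := pairs_q hd hns hq h4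
  refine ⟨q * T, b, B, ε / 4, Y₀, hb, by positivity, fun Y hY => ?_⟩
  obtain ⟨s, hs, S, hS1, hS2⟩ := h Y hY
  refine ⟨S.image (Psi g), ?_, ?_⟩
  · have h1 : S.card ≤ 4 * (S.image (Psi g)).card := by
      apply Finset.card_le_mul_card_image
      intro f _
      have h2 : (S.filter (fun x => Psi g x = f)).card ≤
          (Finset.univ : Finset (Bool × Bool)).card := by
        apply Finset.card_le_card_of_injOn
          (fun e => (decide (0 < dt e.1 e.2), decide (gl (ord1 e).1 = g)))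
          (fun _ _ => Finset.mem_coe.2 (Finset.mem_univ _))
        intro e he e' he' hee
        rw [mem_coe, mem_filter] at he he'
        simp only [Prod.mk.injEq, decide_eq_decide] at hee
        exact psi_inj hq hee.1 hee.2 (he.2.trans he'.2.symm)
      simpa using h2
    have h2 : (S.card : ℝ) ≤ 4 * ((S.image (Psi g)).card : ℝ) := by exact_mod_cast h1
    linarith
  · intro f hf
    obtain ⟨e, he, rfl⟩ := mem_image.1 hf
    exact psi_Pr hq h4 hg hs (hS2 e he)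

end Pool.Agent.L5helper2.TW
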