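import Pool.Agent.W84.G.Defs

/-!
Project TW (helper2): the path lemma (part PATHG of project G of helper84).
-/

set_option autoImplicit false

namespace Pool.Agent.L5helper2.TW

open Pool.Agent.W78.GA (Qd nm prim dt ip)
open Pool.Agent.W84.G (cg Nz S_PATHG)

variable {t c : ℤ}

/-- the product formula for the signed norm -/
lemma Nz_mul_eq (v u : Qd t c) :
    Nz v * Nz u = ip v u ^ 2 + t * ip v u * dt v u + c * dt v u ^ 2 := by
  unfold Nz ip dt
  ring

lemma nm_dvd_iff (p : ℕ) (z : Qd t c) : p ∣ nm z ↔ (p : ℤ) ∣ Nz z := by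
  unfold nm Nz
  rw [Int.natCast_dvd]

lemma jac_congr {D : ℤ} {q : ℕ} (hq : 4 * D ∣ (q : ℤ)) {a b : ℕ} (ha : Odd a) (hb : Odd b)
    (h : (q : ℤ) ∣ (a : ℤ) - b) : jacobiSym D a = jacobiSym D b := by
  rw [jacobiSym.mod_right D ha, jacobiSym.mod_right D hb]
  congr 1
  have h1 : ((4 * D.natAbs : ℕ) : ℤ) ∣ (a : ℤ) - b := by
    refine dvd_trans ?_ h
    refine dvd_trans ?_ hq
    push_cast
    exact mul_dvd_mul_left 4 ((abs_dvd D D).2 dvd_rfl)
  exact ((Nat.modEq_iff_dvd.2 h1).symm : a % (4 * D.natAbs) = b % (4 * D.natAbs))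

lemma odd_of_inv {q : ℕ} (hq : (2 : ℤ) ∣ (q : ℤ)) {m : ℕ} {x : ℤ} (h : (q : ℤ) ∣ (m : ℤ) * x - 1) :
    Odd m := by
  by_contra hm
  rw [Nat.not_odd_iff_even] at hm
  obtain ⟨k, hk⟩ := hm
  obtain ⟨a, ha⟩ := hq.trans h
  have : (m : ℤ) = k + k := by exact_mod_cast hk
  rw [this] at ha
  have h2 : (2 : ℤ) ∣ 1 := ⟨k * x - a, by linarith⟩
  norm_num at h2

theorem pathg : S_PATHG t c := by
  intro q T x y hq h4 hx hy hcx hcy hd0 hdT
  obtain ⟨hxi, mx, hmx, hmx1⟩ := hcx
  obtain ⟨hyi, my, hmy, hmy1⟩ := hcy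
  set D₁ : ℤ := dt x y with hD₁
  have hq2 : (2 : ℤ) ∣ (q : ℤ) := 
    (Dvd.intro (2 * (t ^ 2 - 4 * c)) (by ring) : (2 : ℤ) ∣ 4 * (t ^ 2 - 4 * c)).trans h4
  have hqD : (q : ℤ) ∣ D₁ := by
    rw [hD₁]
    unfold dt
    exact dvd_sub (hyi.mul_left _) (hxi.mul_right _)
  obtain ⟨a, b, hab⟩ : ∃ a b : ℤ, a * x.re + b * x.im = 1 := by
    have h1 := Int.gcd_eq_gcd_ab x.re x.im
    unfold prim at hx
    rw [hx] at h1
    exact ⟨Int.gcdA x.re x.im, Int.gcdB x.re x.im, by push_cast at h1; linarith⟩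
  set μ : ℤ := a * y.re + b * y.im with hμ
  have h1 : μ * x.re - y.re = b * D₁ := by
    rw [hμ, hD₁]
    unfold dt
    linear_combination (y.re) * hab
  have h2 : μ * x.im - y.im = -a * D₁ := by
    rw [hμ, hD₁]
    unfold dt
    linear_combination (y.im) * hab
  -- the shift
  have hN : (q : ℤ) ∣ (mx : ℤ) ^ 2 * Nz x - 1 := by
    have e : (mx : ℤ) ^ 2 * Nz x - 1 = ((mx : ℤ) * x.re - 1) * ((mx : ℤ) * x.re + 1) +
        x.im * ((mx : ℤ) ^ 2 * (t * x.re + c * x.im)) := by
      unfold Nz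
      ring
    rw [e]
    exact dvd_add (hmx1.mul_right _) (hxi.mul_right _)
  set i₀ : ℤ := b * x.re + t * (-a) * x.re + c * (-a) * x.im with hi₀
  set k : ℤ := -i₀ * (mx : ℤ) ^ 2 with hk
  have hk1 : (q : ℤ) ∣ i₀ + k * Nz x := by
    have e : i₀ + k * Nz x = -i₀ * ((mx : ℤ) ^ 2 * Nz x - 1) := by rw [hk]; ring
    rw [e]
    exact hN.mul_left _
  set μ' : ℤ := μ + k * D₁ with hμ'
  -- coprimality
  have hD1pos : 0 < D₁ := hd0
  have hD1nat : ((D₁.toNat : ℕ) : ℤ) = D₁ := Int.toNat_of_nonneg hd0.le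
  have hcop : IsCoprime μ' ((q : ℤ) * D₁) := by
    have hc1 : IsCoprime μ' D₁ := by
      rw [hμ']
      have : IsCoprime μ D₁ := by
        rw [Int.isCoprime_iff_gcd_eq_one]
        by_contra hne
        obtain ⟨p, hp, hpd⟩ := Nat.exists_prime_and_dvd hne
        have hp1 : (p : ℤ) ∣ μ := (Int.natCast_dvd_natCast.2 hpd).trans (Int.gcd_dvd_left _ _)
        have hp2 : (p : ℤ) ∣ D₁ := (Int.natCast_dvd_natCast.2 hpd).trans (Int.gcd_dvd_right _ _)
        have hp3 : (p : ℤ) ∣ y.re := by
          have e : y.re = μ * x.re - b * D₁ := by linarith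
          rw [e]
          exact dvd_sub (hp1.mul_right _) (hp2.mul_left _)
        have hp4 : (p : ℤ) ∣ y.im := by
          have e : y.im = μ * x.im - -a * D₁ := by linarith
          rw [e]
          exact dvd_sub (hp1.mul_right _) (hp2.mul_left _)
        have hp5 : (p : ℤ) ∣ ((Int.gcd y.re y.im : ℕ) : ℤ) := Int.dvd_coe_gcd hp3 hp4
        unfold prim at hy
        rw [hy] at hp5
        exact hp.one_lt.ne' (Nat.dvd_one.1 (Int.natCast_dvd_natCast.1 hp5))
      exact (IsCoprime.add_mul_right_left_iff).2 this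
    exact IsCoprime.mul_right (hc1.of_isCoprime_of_dvd_right hqD) hc1
  -- the residue class
  have hTD : D₁.toNat ∣ T.factorial := by
    apply Nat.dvd_factorial
    · omega
    · omega
  have hT0 : T.factorial ≠ 0 := Nat.factorial_ne_zero T
  have hdvd : q * D₁.toNat ∣ q * T.factorial := Nat.mul_dvd_mul_left q hTD
  haveI : NeZero (q * T.factorial) := ⟨by positivity⟩
  have hcopN : IsUnit ((μ' : ℤ) : ZMod (q * D₁.toNat)) := by
    rw [ZMod.coe_int_isUnit_iff_isCoprime]
    push_cast
    rw [hD1nat]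
    exact hcop.symm
  obtain ⟨u, hu⟩ := ZMod.unitsMap_surjective hdvd hcopN.unit
  set r : ℕ := (u : ZMod (q * T.factorial)).val with hr
  have hrc : Nat.Coprime r (q * T.factorial) := ZMod.val_coe_unit_coprime u
  have hrμ : ((q : ℤ) * D₁) ∣ (r : ℤ) - μ' := by
    have h3 : (((r : ℕ) : ℤ) : ZMod (q * D₁.toNat)) = ((μ' : ℤ) : ZMod (q * D₁.toNat)) := by
      have h4 := congrArg Units.val hu
      rw [ZMod.unitsMap_val, IsUnit.unit_spec] at h4
      rw [← h4, hr, Int.cast_natCast, ZMod.natCast_val]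
    rw [ZMod.intCast_eq_intCast_iff_dvd_sub] at h3
    push_cast at h3
    rw [hD1nat] at h3
    have := (dvd_neg.2 h3)
    rwa [neg_sub] at this
  have hqr : Nat.Coprime r q := Nat.Coprime.coprime_mul_right_right hrc
  have hrodd : Odd r := by
    rw [← Nat.not_even_iff_odd]
    intro he
    have h3 : (2 : ℕ) ∣ q := by exact_mod_cast hq2
    have h5 := Nat.dvd_gcd (even_iff_two_dvd.1 he) h3
    rw [hqr] at h5
    norm_num at h5
  have hmxo : Odd mx := odd_of_inv hq2 hmx1
  have hmyo : Odd my := odd_of_inv hq2 hmy1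
  refine ⟨r, hrc, ?_, ?_⟩
  · -- the Jacobi symbol
    have h3 : jacobiSym (t ^ 2 - 4 * c) (r * my) = jacobiSym (t ^ 2 - 4 * c) mx := by
      apply jac_congr h4 (hrodd.mul hmyo) hmxo
      have e : ((r * my : ℕ) : ℤ) - mx = ((r : ℤ) - μ') * my + k * D₁ * my +
          mx * ((my : ℤ) * y.re - 1) - μ * my * ((mx : ℤ) * x.re - 1) +
          b * D₁ * (mx * my) := by
        rw [hμ']
        push_cast
        linear_combination ((mx : ℤ) * my) * h1
      rw [e]
      refine dvd_add (dvd_sub (dvd_add (dvd_add ?_ ?_) ?_) ?_) ?_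
      · exact ((Dvd.intro _ rfl).trans hrμ).mul_right _
      · exact (hqD.mul_left _).mul_right _
      · exact hmy1.mul_left _
      · exact hmx1.mul_left _
      · exact (hqD.mul_left _).mul_right _
    rw [jacobiSym.mul_right' _ (by intro h; rw [h] at hrodd; simp at hrodd) (by intro h; rw [h] at hmyo; simp at hmyo),
      hmy, mul_one, hmx] at h3
    exact h3
  · intro p hp hpr hpy
    have hpdvd : ((q : ℤ) * D₁) ∣ (p : ℤ) - μ' := by
      have h3 : ((q : ℤ) * D₁) ∣ ((q * T.factorial : ℕ) : ℤ) := by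
        have := Int.natCast_dvd_natCast.2 hdvd
        push_cast at this ⊢
        rwa [hD1nat] at this
      have := dvd_add (h3.trans hpr) hrμ
      rwa [sub_add_sub_cancel] at this
    obtain ⟨j, hj⟩ := hpdvd
    set w : ℤ := k + (q : ℤ) * j with hw
    have hpw : (p : ℤ) = μ + w * D₁ := by
      rw [hw]
      have : (p : ℤ) = μ' + (q : ℤ) * D₁ * j := by linarith
      rw [this, hμ']
      ring
    set v : Qd t c := ⟨b + w * x.re, -a + w * x.im⟩ with hv
    have hvx : dt v x = 1 := by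
      rw [hv]
      unfold dt
      simp only
      linear_combination hab
    have hDv : ((D₁ : ℤ) : Qd t c) * v = (p : Qd t c) * x - y := by
      have hp' : (p : Qd t c) = ((p : ℤ) : Qd t c) := by push_cast; rfl
      rw [hp']
      apply QuadraticAlgebra.ext
      · simp only [QuadraticAlgebra.re_mul, QuadraticAlgebra.re_sub, QuadraticAlgebra.re_intCast,
          QuadraticAlgebra.im_intCast, hv, hpw, Int.cast_id]
        linear_combination -h1
      · simp only [QuadraticAlgebra.im_mul, QuadraticAlgebra.im_sub, QuadraticAlgebra.re_intCast,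
          QuadraticAlgebra.im_intCast, hv, hpw, Int.cast_id]
        linear_combination -h2
    have hre : D₁ * v.re = p * x.re - y.re := by
      rw [hv, hpw]
      simp only
      linear_combination -h1
    have him : D₁ * v.im = p * x.im - y.im := by
      rw [hv, hpw]
      simp only
      linear_combination -h2
    have hvy : dt v y = p := by
      have h3 : D₁ * dt v y = D₁ * p := by
        unfold dt
        have e : D₁ * (v.re * y.im - v.im * y.re) = (D₁ * v.re) * y.im - (D₁ * v.im) * y.re := by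
          ring
        rw [e, hre, him, hD₁]
        unfold dt
        ring
      exact mul_left_cancel₀ hd0.ne' h3
    have hipx : (q : ℤ) ∣ ip v x := by
      have e : ip v x = (i₀ + k * Nz x) + q * (j * Nz x) := by
        rw [hv, hw, hi₀]
        unfold ip Nz
        simp only
        ring
      rw [e]
      exact dvd_add hk1 (Dvd.intro _ rfl)
    have hpc : Nat.Coprime p (q * T.factorial) := by
      have h3 : (p : ℤ) = r + ((q * T.factorial : ℕ) : ℤ) * ((p - r) / ((q * T.factorial : ℕ) : ℤ)) := by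
        rw [Int.mul_ediv_cancel' hpr]
        ring
      have h5 : IsCoprime (r : ℤ) ((q * T.factorial : ℕ) : ℤ) := Nat.isCoprime_iff_coprime.2 hrc
      have h6 : IsCoprime (p : ℤ) ((q * T.factorial : ℕ) : ℤ) := by
        rw [h3]
        exact (IsCoprime.add_mul_left_left_iff).2 h5
      exact Nat.isCoprime_iff_coprime.1 h6
    have hpI : Prime (p : ℤ) := Nat.prime_iff_prime_int.1 hp
    have hpD : ¬ (p : ℤ) ∣ D₁ := by
      intro h
      rw [← hD1nat] at h
      have h3 : p ∣ D₁.toNat := Int.natCast_dvd_natCast.1 h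
      have h5 : p ∣ q * T.factorial := (h3.trans hTD).mul_left q
      have h6 := Nat.dvd_gcd dvd_rfl h5
      rw [hpc] at h6
      exact hp.one_lt.ne' (Nat.dvd_one.1 h6)
    have hpy' : (p : ℤ) ∣ Nz y := (nm_dvd_iff p y).1 hpy
    have hpipy : (p : ℤ) ∣ ip v y := by
      have h3 := Nz_mul_eq v y
      rw [hvy] at h3
      have h5 : (p : ℤ) ∣ ip v y ^ 2 := by
        have e : ip v y ^ 2 = Nz v * Nz y - p * (t * ip v y + c * p) := by
          rw [h3]; ring
        rw [e]
        exact dvd_sub (hpy'.mul_left _) (Dvd.intro _ rfl)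
      exact hpI.dvd_of_dvd_pow h5
    obtain ⟨n₂, hn₂⟩ := hpipy
    refine ⟨v, n₂, hvx, hvy, hDv, hipx, hn₂, ?_, ?_⟩
    · have h3 : (q : ℤ) ∣ ip v y := by
        have e : ip v y = p * ip v x - D₁ * Nz v := by
          have h5 : D₁ * Nz v = p * ip v x - ip v y := by
            have e2 : D₁ * Nz v = (v.re + t * v.im) * (D₁ * v.re) + c * v.im * (D₁ * v.im) := by
              unfold Nz
              ring
            rw [e2, hre, him]
            unfold ip
            ring
          linarith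
        rw [e]
        exact dvd_sub (hipx.mul_left _) (hqD.mul_right _)
      rw [hn₂] at h3
      have h5 : IsCoprime (q : ℤ) (p : ℤ) :=
        (Nat.isCoprime_iff_coprime.2 (Nat.Coprime.coprime_mul_right_right hpc)).symm
      exact h5.dvd_of_dvd_mul_left h3
    · rw [nm_dvd_iff]
      have e : D₁ ^ 2 * Nz v = p * (p * Nz x - (2 * x.re * y.re + t * (x.re * y.im + x.im * y.re) +
          2 * c * x.im * y.im)) + Nz y := by
        have e2 : D₁ ^ 2 * Nz v = (D₁ * v.re) ^ 2 + t * (D₁ * v.re) * (D₁ * v.im) +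
            c * (D₁ * v.im) ^ 2 := by
          unfold Nz
          ring
        rw [e2, hre, him]
        unfold Nz
        ring
      have h3 : (p : ℤ) ∣ D₁ ^ 2 * Nz v := by
        rw [e]
        exact dvd_add (Dvd.intro _ rfl) hpy'
      rcases hpI.dvd_or_dvd h3 with h5 | h5
      · exact absurd (hpI.dvd_of_dvd_pow h5) hpD
      · exact h5

end Pool.Agent.L5helper2.TW
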