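import Pool.Agent.L5helper2.TW.Fib

/-!
Project TW (helper2): a positive proportion of the triples has the given signs (part POST of
project G of helper84, positive discriminant).
-/

set_option autoImplicit false

namespace Pool.Agent.L5helper2.TW

open Finset
open Pool.Agent.H376R2.MR (lam)
open Pool.Agent.W78.GR hiding GG PE S_MOM0 S_MOMP S_MOM S_CELLE S_DEC S_MR
open Pool.Agent.W78.GT (Qp Tr NT tri mem_tri)
open Pool.Agent.W84.G (Nz Ri Bf R4 PosT S_POST)

variable {t c : ℤ} {q : ℕ}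

/-- the data of the path attached to a pair -/
structure Pa (q T P : ℕ) (b B X : ℝ) (e : Qd t c × Qd t c) (p : ℕ) (v : Qd t c) (n₂ : ℤ) :
    Prop where
  pp : p.Prime
  pP : p ≤ P
  vx : dt v e.1 = 1
  vy : dt v e.2 = p
  eq : ((dt e.1 e.2 : ℤ) : Qd t c) * v = (p : Qd t c) * e.1 - e.2
  ix : (q : ℤ) ∣ ip v e.1
  iy : ip v e.2 = p * n₂
  qn : (q : ℤ) ∣ n₂
  pv : p ∣ nm v
  py : p ∣ nm e.2
  lo : b / T * Real.sqrt X ≤ s1 v ∧ b / T * Real.sqrt X ≤ s2 v
  hi : s1 v ≤ P * B * Real.sqrt X ∧ s2 v ≤ P * B * Real.sqrt X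

lemma s1_of_eq (hd : 4 * c < t ^ 2) {D₁ : ℤ} {p : ℕ} {v x y : Qd t c}
    (h : ((D₁ : ℤ) : Qd t c) * v = (p : Qd t c) * x - y) :
    (D₁ : ℝ) * s1 v = p * s1 x - s1 y ∧ (D₁ : ℝ) * s2 v = p * s2 x - s2 y := by
  have h1 := congrArg QuadraticAlgebra.re h
  have h2 := congrArg QuadraticAlgebra.im h
  rw [QuadraticAlgebra.re_sub, QuadraticAlgebra.re_mul, QuadraticAlgebra.re_mul,
    QuadraticAlgebra.re_intCast, QuadraticAlgebra.im_intCast, QuadraticAlgebra.re_natCast,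
    QuadraticAlgebra.im_natCast] at h1
  rw [QuadraticAlgebra.im_sub, QuadraticAlgebra.im_mul, QuadraticAlgebra.im_mul,
    QuadraticAlgebra.re_intCast, QuadraticAlgebra.im_intCast, QuadraticAlgebra.re_natCast,
    QuadraticAlgebra.im_natCast] at h2
  simp only [Int.cast_id] at h1 h2
  have h1' : (D₁ : ℝ) * v.re = p * x.re - y.re := by
    have : D₁ * v.re = p * x.re - y.re := by linarith
    exact_mod_cast congrArg (Int.cast : ℤ → ℝ) this
  have h2' : (D₁ : ℝ) * v.im = p * x.im - y.im := by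
    have : D₁ * v.im = p * x.im - y.im := by linarith
    exact_mod_cast congrArg (Int.cast : ℤ → ℝ) this
  unfold s1 s2
  constructor
  · linear_combination h1' + ((t : ℝ) / 2 + Real.sqrt ((t : ℝ) ^ 2 - 4 * c) / 2) * h2'
  · linear_combination h1' + ((t : ℝ) / 2 - Real.sqrt ((t : ℝ) ^ 2 - 4 * c) / 2) * h2'

/-- every good rich pair has a path -/
lemma exists_Pa (hd : 4 * c < t ^ 2) (hq : 1 ≤ q) (h4 : 4 * (t ^ 2 - 4 * c) ∣ (q : ℤ)) {g : ℤ}
    {T P P₀ : ℕ} {b B X : ℝ} (hb : 0 < b) (hX : 0 < X) (hP₀ : B + b ≤ b * P₀)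
    {e : Qd t c × Qd t c} (h : Pr q g T b B X e) (hr : Ri (q * T.factorial) P₀ P e.2) :
    ∃ (p : ℕ) (v : Qd t c) (n₂ : ℤ), Pa q T P b B X e p v n₂ := by
  obtain ⟨r, hr1, hr2, hr3⟩ := path_s h4 hq h.pr1 h.pr2 h.q1 h.q2 h.c1 h.c2 h.cc h.dt0 h.dt1
  obtain ⟨p, hp, hp1, hp2, hp3, hp4⟩ := hr r hr1 hr2
  obtain ⟨v, n₂, k1, k2, k3, k4, k5, k6, k7⟩ := hr3 p hp hp4 hp3
  have hs : 0 < Real.sqrt X := Real.sqrt_pos.2 hX
  obtain ⟨e1, e2⟩ := s1_of_eq hd k3
  have hD1 : (1 : ℝ) ≤ (dt e.1 e.2 : ℝ) := by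
    have := h.dt0
    exact_mod_cast this
  have hDT : (dt e.1 e.2 : ℝ) ≤ T := by exact_mod_cast h.dt1
  have hT0 : (0 : ℝ) < T := by linarith
  have hD0 : (0 : ℝ) < (dt e.1 e.2 : ℝ) := by linarith
  have hpR : (P₀ : ℝ) ≤ p := by exact_mod_cast hp1.le
  have hpP : (p : ℝ) ≤ P := by exact_mod_cast hp2
  have hp0 : (0 : ℝ) < p := by exact_mod_cast hp.pos
  have hB : b ≤ B := h.b1.B_pos hb hX
  have hpb : B + b ≤ b * p := hP₀.trans (mul_le_mul_of_nonneg_left hpR hb.le)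
  have key : ∀ sv sx sy : ℝ, (dt e.1 e.2 : ℝ) * sv = p * sx - sy → b * Real.sqrt X ≤ sx →
      sx ≤ B * Real.sqrt X → b * Real.sqrt X ≤ sy → sy ≤ B * Real.sqrt X →
      b / T * Real.sqrt X ≤ sv ∧ sv ≤ P * B * Real.sqrt X := by
    intro sv sx sy h1 h2 h3 h5 h6
    have h7 : b * Real.sqrt X ≤ (dt e.1 e.2 : ℝ) * sv := by
      rw [h1]
      calc b * Real.sqrt X = (B + b) * Real.sqrt X - B * Real.sqrt X := by ring
        _ ≤ (b * p) * Real.sqrt X - B * Real.sqrt X := by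
            have := mul_le_mul_of_nonneg_right hpb hs.le
            linarith
        _ ≤ p * sx - sy := by
            have := mul_le_mul_of_nonneg_left h2 hp0.le
            linarith
    have h8 : 0 < sv := by
      by_contra h9
      push Not at h9
      have : (dt e.1 e.2 : ℝ) * sv ≤ 0 := mul_nonpos_of_nonneg_of_nonpos hD0.le h9
      have : 0 < b * Real.sqrt X := mul_pos hb hs
      linarith
    constructor
    · rw [div_mul_eq_mul_div, div_le_iff₀ hT0]
      calc b * Real.sqrt X ≤ (dt e.1 e.2 : ℝ) * sv := h7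
        _ ≤ T * sv := mul_le_mul_of_nonneg_right hDT h8.le
        _ = sv * T := by ring
    · have h9 : sv ≤ (dt e.1 e.2 : ℝ) * sv := le_mul_of_one_le_left h8.le hD1
      have h10 : 0 ≤ sy := (mul_pos hb hs).le.trans h5
      calc sv ≤ p * sx - sy := by rw [← h1]; exact h9
        _ ≤ p * sx := by linarith
        _ ≤ P * (B * Real.sqrt X) := mul_le_mul hpP h3 ((mul_pos hb hs).le.trans h2)
            (by positivity)
        _ = P * B * Real.sqrt X := by ring
  have a1 := key _ _ _ e1 h.b1.1 h.b1.2.1 h.b2.1 h.b2.2.1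
  have a2 := key _ _ _ e2 h.b1.2.2.1 h.b1.2.2.2 h.b2.2.2.1 h.b2.2.2.2
  exact ⟨p, v, n₂, hp, hp2, k1, k2, k3, k4, k5, k6, k7, hp3, ⟨a1.1, a2.1⟩, ⟨a1.2, a2.2⟩⟩

/-- the triple attached to a pair with a path -/
def Th (e₁ : ℤ) (e : Qd t c × Qd t c) (p : ℕ) (v : Qd t c) (n₂ : ℤ) : Tr :=
  if gl v = e₁ then (nm v, ip v e.1, nm e.1) else (nm v / p, n₂, nm e.2 / p)

lemma cop_nm {z : Qd t c} (h1 : (q : ℤ) ∣ z.im) (h2 : IsCoprime z.re (q : ℤ)) :
    Nat.Coprime (nm z) q := by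
  have h3 : Nat.Coprime (nm z) q ↔ IsCoprime (Nz z) (q : ℤ) := by
    rw [nm_Nz, Int.isCoprime_iff_gcd_eq_one]
    rfl
  rw [h3]
  obtain ⟨k, hk⟩ := h1
  have e : Nz z = z.re ^ 2 + q * (k * (t * z.re + c * z.im)) := by
    unfold Nz
    rw [show t * z.re * z.im = z.im * (t * z.re) by ring,
      show c * z.im ^ 2 = z.im * (c * z.im) by ring, hk]
    ring
  rw [e, IsCoprime.add_mul_left_left_iff, IsCoprime.pow_left_iff (by norm_num)]
  exact h2

/-- the triple is good -/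
lemma Th_mem (hd : 4 * c < t ^ 2) {e₁ e₂ : ℤ} (he₁ : e₁ = 1 ∨ e₁ = -1) {T P : ℕ} {b B X Y : ℝ}
    (hb : 0 < b) (hT : 0 < T) (hX : 0 < X) (hP : 1 ≤ P) (hB : 0 ≤ B)
    (hY : (P : ℝ) ^ 2 * B ^ 2 * X ≤ Y)
    {e : Qd t c × Qd t c} {p : ℕ} {v : Qd t c} {n₂ : ℤ} (h : Pr q e₂ T b B X e)
    (k : Pa q T P b B X e p v n₂) :
    Th e₁ e p v n₂ ∈ tri t c Y Y ∧ R4 q e₁ e₂ (Th e₁ e p v n₂) := by
  have hs : 0 < Real.sqrt X := Real.sqrt_pos.2 hX
  have hss := Real.mul_self_sqrt hX.le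
  have hTR : (0 : ℝ) < T := by exact_mod_cast hT
  have hbT : 0 < b / T * Real.sqrt X := by positivity
  have tv : tp v := ⟨hbT.trans_le k.lo.1, hbT.trans_le k.lo.2⟩
  have tx : tp e.1 := h.b1.tp hb hX
  have ty : tp e.2 := h.b2.tp hb hX
  have hPR : (1 : ℝ) ≤ P := by exact_mod_cast hP
  have hp0 : (p : ℤ) ≠ 0 := by exact_mod_cast k.pp.ne_zero
  have nv : (nm v : ℝ) ≤ Y := by
    rw [nm_tp hd tv]
    calc s1 v * s2 v ≤ (P * B * Real.sqrt X) * (P * B * Real.sqrt X) :=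
          mul_le_mul k.hi.1 k.hi.2 tv.2.le (by positivity)
      _ = (P : ℝ) ^ 2 * B ^ 2 * (Real.sqrt X * Real.sqrt X) := by ring
      _ ≤ Y := by rw [hss]; exact hY
  have hsm : B ^ 2 * X ≤ Y := by
    refine le_trans ?_ hY
    have h1 : 1 ≤ (P : ℝ) ^ 2 := one_le_pow₀ hPR
    have h2 : 0 ≤ B ^ 2 * X := by positivity
    nlinarith
  have nx : (nm e.1 : ℝ) ≤ Y := (h.b1.nm_le hd hb hX).trans hsm
  have ny : (nm e.2 : ℝ) ≤ Y := (h.b2.nm_le hd hb hX).trans hsm
  have pv := nm_pos hd tv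
  have px := nm_pos hd tx
  have py := nm_pos hd ty
  unfold Th
  by_cases hg : gl v = e₁
  · rw [if_pos hg]
    refine ⟨mem_tri.2 ⟨pv, nv, px, nx, ?_, ?_⟩, k.ix, cop_nm h.q1 h.c1, hg, h.g1⟩
    · have h1 := Nz_mul_eq v e.1
      rw [k.vx, Nz_tp hd tv, Nz_tp hd tx] at h1
      simp only
      rw [h1]
      unfold Qp
      ring
    · have h1 := Bf_pos hd tv tx
      unfold Bf at h1
      rw [k.vx] at h1
      simp only
      linarith
  · rw [if_neg hg]
    obtain ⟨a, ha⟩ := k.pv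
    obtain ⟨a', ha'⟩ := k.py
    have ea : nm v / p = a := by rw [ha, Nat.mul_div_cancel_left _ k.pp.pos]
    have ea' : nm e.2 / p = a' := by rw [ha', Nat.mul_div_cancel_left _ k.pp.pos]
    have ha0 : 0 < a := by
      rcases Nat.eq_zero_or_pos a with h | h
      · rw [h, mul_zero] at ha; omega
      · exact h
    have ha0' : 0 < a' := by
      rcases Nat.eq_zero_or_pos a' with h | h
      · rw [h, mul_zero] at ha'; omega
      · exact h
    have hav : a ≤ nm v := by rw [ha]; exact Nat.le_mul_of_pos_left _ k.pp.pos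
    have hay : a' ≤ nm e.2 := by rw [ha']; exact Nat.le_mul_of_pos_left _ k.pp.pos
    rw [ea, ea']
    have lv' : lam (nm v) = -lam a := by
      rw [ha, lam_mul k.pp.ne_zero ha0.ne', lam_prime k.pp]
      ring
    have ly' : lam (nm e.2) = -lam a' := by
      rw [ha', lam_mul k.pp.ne_zero ha0'.ne', lam_prime k.pp]
      ring
    refine ⟨mem_tri.2 ⟨ha0, ?_, ha0', ?_, ?_, ?_⟩, k.qn, ?_, ?_, ?_⟩
    · exact (by exact_mod_cast hav : (a : ℝ) ≤ nm v).trans nv
    · exact (by exact_mod_cast hay : (a' : ℝ) ≤ nm e.2).trans ny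
    · have h1 := Nz_mul_eq v e.2
      rw [k.vy, k.iy, Nz_tp hd tv, Nz_tp hd ty, ha, ha'] at h1
      push_cast at h1
      simp only
      have h2 : (p : ℤ) ^ 2 * ((a : ℤ) * a') = (p : ℤ) ^ 2 * (n₂ ^ 2 + t * n₂ + c) := by
        linear_combination h1
      exact mul_left_cancel₀ (pow_ne_zero 2 hp0) h2
    · have h1 := Bf_pos hd tv ty
      unfold Bf at h1
      rw [k.vy, k.iy] at h1
      simp only
      have h2 : 0 < (p : ℤ) * (2 * n₂ + t) := by linarith
      have hpp : (0 : ℤ) < p := by exact_mod_cast k.pp.pos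
      exact ((mul_pos_iff_of_pos_left hpp).1 h2).le
    · exact Nat.Coprime.coprime_dvd_left ⟨p, by rw [ha']; ring⟩ (cop_nm h.q2 h.c2)
    · have h1 : gl v = 1 ∨ gl v = -1 := gl_eq v
      unfold gl at h1 hg
      rw [lv'] at h1 hg
      simp only
      rcases he₁ with h2 | h2 <;> rcases h1 with h1 | h1 <;> rw [h2] at hg ⊢
      · exact absurd h1 hg
      · linarith
      · linarith
      · exact absurd h1 hg
    · have h1 := h.g2
      unfold gl at h1
      rw [ly'] at h1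
      simp only
      linarith

lemma Ri.mono {A P₀ P P' : ℕ} {z : Qd t c} (h : Ri A P₀ P z) (hP : P ≤ P') : Ri A P₀ P' z := by
  intro r h1 h2
  obtain ⟨p, k1, k2, k3, k4, k5⟩ := h r h1 h2
  exact ⟨p, k1, k2, k3.trans hP, k4, k5⟩

/-- few pairs with the same triple and the same parameters -/
lemma fibre_le (hd : 4 * c < t ^ 2) (hns : ¬ IsSquare (t ^ 2 - 4 * c)) {g e₁ : ℤ} {T P : ℕ}
    {b B : ℝ} (hb : 0 < b) (hT : 0 < T) (hP : 1 ≤ P) (hB : 0 ≤ B) : ∃ W : ℕ, ∀ (X : ℝ)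
    (S : Finset (Qd t c × Qd t c)) (pf : Qd t c × Qd t c → ℕ) (vf : Qd t c × Qd t c → Qd t c)
    (nf : Qd t c × Qd t c → ℤ), 0 < X → (∀ e ∈ S, Pr q g T b B X e ∧
      Pa q T P b B X e (pf e) (vf e) (nf e)) → ∀ (τ : Tr) (β : Bool) (p D₁ : ℕ),
    (open scoped Classical in
      (S.filter (fun e => (Th e₁ e (pf e) (vf e) (nf e), decide (gl (vf e) = e₁), pf e,
        (dt e.1 e.2).toNat) = (τ, β, p, D₁))).card ≤ W) := by
  classical
  have hex : ∀ m : ℕ, ∃ W : ℕ, 0 < m → ∀ (n : ℤ) (N₁ : ℕ) (S : Finset (Qd t c × Qd t c)),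
      (∀ e ∈ S, tp e.1 ∧ dt e.1 e.2 = m ∧ ip e.1 e.2 = n ∧ nm e.1 = N₁) →
      (∀ e ∈ S, ∀ f ∈ S, s1 e.1 ≤ (P * B * T / b) * s1 f.1 ∧ s2 e.1 ≤ (P * B * T / b) * s2 f.1) →
      S.card ≤ W := by
    intro m
    rcases Nat.eq_zero_or_pos m with h | h
    · exact ⟨0, fun h' => absurd h' (by omega)⟩
    · obtain ⟨W, hW⟩ := fib hd hns m h (P * B * T / b)
      exact ⟨W, fun _ => hW⟩
  choose Wf hWf using hex
  refine ⟨∑ m ∈ range (P + 1), Wf m, fun X S pf vf nf hX hS τ β p D₁ => ?_⟩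
  have hs : 0 < Real.sqrt X := Real.sqrt_pos.2 hX
  have hTR : (0 : ℝ) < T := by exact_mod_cast hT
  have hPR : (1 : ℝ) ≤ P := by exact_mod_cast hP
  set F := S.filter (fun e => (Th e₁ e (pf e) (vf e) (nf e), decide (gl (vf e) = e₁), pf e,
        (dt e.1 e.2).toNat) = (τ, β, p, D₁)) with hF
  rcases F.eq_empty_or_nonempty with hF0 | ⟨f₀, hf₀⟩
  · rw [hF0]; simp
  have hmem : ∀ e ∈ F, e ∈ S ∧ Th e₁ e (pf e) (vf e) (nf e) = τ ∧
      decide (gl (vf e) = e₁) = β ∧ pf e = p ∧ (dt e.1 e.2).toNat = D₁ := by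
    intro e he
    rw [hF, mem_filter] at he
    simp only [Prod.mk.injEq] at he
    exact he
  have hpS := (hS f₀ (hmem f₀ hf₀).1).2
  have hpp : p.Prime := by
    have := hpS.pp
    rwa [(hmem f₀ hf₀).2.2.2.1] at this
  have hpP : p ≤ P := by
    have := hpS.pP
    rwa [(hmem f₀ hf₀).2.2.2.1] at this
  have htv : ∀ e ∈ F, tp (vf e) := by
    intro e he
    have k := (hS e (hmem e he).1).2
    have hbT : 0 < b / T * Real.sqrt X := by positivity
    exact ⟨hbT.trans_le k.lo.1, hbT.trans_le k.lo.2⟩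
  have hratio : ∀ e ∈ F, ∀ f ∈ F, s1 (vf e) ≤ (P * B * T / b) * s1 (vf f) ∧
      s2 (vf e) ≤ (P * B * T / b) * s2 (vf f) := by
    intro e he f hf
    have k := (hS e (hmem e he).1).2
    have k' := (hS f (hmem f hf).1).2
    have e1 : (P : ℝ) * B * Real.sqrt X = (P * B * T / b) * (b / T * Real.sqrt X) := by
      field_simp
    have hpos : 0 ≤ (P : ℝ) * B * T / b := by positivity
    constructor
    · refine k.hi.1.trans ?_
      rw [e1]
      exact mul_le_mul_of_nonneg_left k'.lo.1 hpos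
    · refine k.hi.2.trans ?_
      rw [e1]
      exact mul_le_mul_of_nonneg_left k'.lo.2 hpos
  have hdt : ∀ e ∈ F, ((dt e.1 e.2).toNat : ℤ) = dt e.1 e.2 := fun e he =>
    Int.toNat_of_nonneg (hS e (hmem e he).1).1.dt0.le
  have hcomp : ∀ e ∈ F, ((D₁ : ℤ) : Qd t c) * vf e = (p : Qd t c) * e.1 - e.2 := by
    intro e he
    have k := (hS e (hmem e he).1).2.eq
    rw [← hdt e he, (hmem e he).2.2.2.2, (hmem e he).2.2.2.1] at k
    exact k
  cases β with
  | true =>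
    set G : Qd t c × Qd t c → Qd t c × Qd t c := fun e => (vf e, e.1) with hG
    have hinj : Set.InjOn G (F : Set (Qd t c × Qd t c)) := by
      intro e he f hf h
      rw [mem_coe] at he hf
      simp only [hG, Prod.mk.injEq] at h
      have h1 := hcomp e he
      have h2 := hcomp f hf
      rw [h.1, h.2, h2] at h1
      have h3 : f.2 = e.2 := sub_right_inj.1 h1
      exact Prod.ext h.2 h3.symm
    rw [← card_image_of_injOn hinj]
    refine le_trans (hWf 1 one_pos τ.2.1 τ.1 _ ?_ ?_)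
      (single_le_sum (f := Wf) (fun _ _ => Nat.zero_le _) (mem_range.2 (by omega)))
    · intro z hz
      obtain ⟨e, he, rfl⟩ := mem_image.1 hz
      obtain ⟨m1, m2, m3, m4, m5⟩ := hmem e he
      have k := (hS e m1).2
      have hg : gl (vf e) = e₁ := of_decide_eq_true m3
      unfold Th at m2
      rw [if_pos hg] at m2
      refine ⟨htv e he, ?_, ?_, ?_⟩
      · simp only [hG]; exact k.vx
      · simp only [hG]; rw [← m2]
      · simp only [hG]; rw [← m2]
    · intro z hz z' hz'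
      obtain ⟨e, he, rfl⟩ := mem_image.1 hz
      obtain ⟨f, hf, rfl⟩ := mem_image.1 hz'
      exact hratio e he f hf
  | false =>
    set G : Qd t c × Qd t c → Qd t c × Qd t c := fun e => (vf e, e.2) with hG
    have hinj : Set.InjOn G (F : Set (Qd t c × Qd t c)) := by
      intro e he f hf h
      rw [mem_coe] at he hf
      simp only [hG, Prod.mk.injEq] at h
      have h1 := hcomp e he
      have h2 := hcomp f hf
      rw [h.1, h.2, h2] at h1
      have h3 : (p : Qd t c) * f.1 = (p : Qd t c) * e.1 := sub_left_inj.1 h1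
      have hp0 : ((p : ℕ) : Qd t c) ≠ 0 := by
        intro h
        have := congrArg QuadraticAlgebra.re h
        rw [QuadraticAlgebra.re_natCast, QuadraticAlgebra.re_zero] at this
        have : p = 0 := by exact_mod_cast this
        exact hpp.ne_zero this
      exact Prod.ext (mul_cancel hns hp0 h3).symm h.2
    rw [← card_image_of_injOn hinj]
    refine le_trans (hWf p hpp.pos (p * τ.2.1) (p * τ.1) _ ?_ ?_)
      (single_le_sum (f := Wf) (fun _ _ => Nat.zero_le _) (mem_range.2 (by omega)))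
    · intro z hz
      obtain ⟨e, he, rfl⟩ := mem_image.1 hz
      obtain ⟨m1, m2, m3, m4, m5⟩ := hmem e he
      have k := (hS e m1).2
      have hg : ¬ gl (vf e) = e₁ := of_decide_eq_false m3
      unfold Th at m2
      rw [if_neg hg] at m2
      refine ⟨htv e he, ?_, ?_, ?_⟩
      · simp only [hG]
        rw [k.vy, m4]
      · simp only [hG]
        rw [k.iy, m4, ← m2]
      · simp only [hG]
        rw [← m2]
        simp only
        rw [m4]
        have := k.pv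
        rw [m4] at this
        exact (Nat.mul_div_cancel' this).symm
    · intro z hz z' hz'
      obtain ⟨e, he, rfl⟩ := mem_image.1 hz
      obtain ⟨f, hf, rfl⟩ := mem_image.1 hz'
      exact hratio e he f hf

/-- **POST**: a positive proportion of the triples `(d, n, d')` with `q ∣ n` and `d'` prime to `q`
has `λ(d) = e₁`, `λ(d') = e₂` -/
theorem post (hd : 4 * c < t ^ 2) (hns : ¬ IsSquare (t ^ 2 - 4 * c)) (hq : 1 ≤ q)
    (h4 : 4 * (t ^ 2 - 4 * c) ∣ (q : ℤ)) : S_POST t c q := by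
  classical
  intro e₁ e₂ he₁ he₂
  obtain ⟨T, b, B, hb, hB, h⟩ := pairs_rich hd hns hq h4 he₂
  have hB0 : 0 < B := hb.trans_le hB
  obtain ⟨P₀, hP₀⟩ := exists_nat_ge ((B + b) / b)
  have hP₀' : B + b ≤ b * P₀ := by
    rw [div_le_iff₀ hb] at hP₀
    linarith
  obtain ⟨P', ε, Y₀, hε, hS⟩ := h P₀
  set P : ℕ := P' + 1 with hP
  have hP1 : 1 ≤ P := by omega
  have hPR : (1 : ℝ) ≤ P := by exact_mod_cast hP1
  -- `T` is positive
  have hT : 0 < T := by
    obtain ⟨S, hS1, hS2⟩ := hS (max Y₀ 1) (le_max_left _ _)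
    have h1 : 0 < max Y₀ 1 := lt_max_of_lt_right one_pos
    have h2 : 0 < (S.card : ℝ) := (mul_pos hε h1).trans_le hS1
    have h3 : 0 < S.card := by exact_mod_cast h2
    obtain ⟨e, he⟩ := card_pos.1 h3
    have k1 := (hS2 e he).1.dt0
    have k2 := (hS2 e he).1.dt1
    have : (0 : ℤ) < T := lt_of_lt_of_le k1 k2
    exact_mod_cast this
  obtain ⟨W, hW⟩ := fibre_le (q := q) hd hns (g := e₂) (e₁ := e₁) hb hT hP1 hB0.le
  set K : ℝ := (W + 1) * (2 * ((P + 1) * (T + 1))) with hK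
  have hK0 : 0 < K := by positivity
  refine ⟨ε / ((P : ℝ) ^ 2 * B ^ 2 * K), by positivity,
    max ((P : ℝ) ^ 2 * B ^ 2 * Y₀) ((P : ℝ) ^ 2 * B ^ 2), fun X hX => ?_⟩
  have hPB : 0 < (P : ℝ) ^ 2 * B ^ 2 := by positivity
  set Y : ℝ := X / ((P : ℝ) ^ 2 * B ^ 2) with hY
  have hYX : (P : ℝ) ^ 2 * B ^ 2 * Y = X := by
    rw [hY]; field_simp
  have hY1 : Y₀ ≤ Y := by
    rw [hY, le_div_iff₀ hPB]
    have := (le_max_left _ _).trans hX
    linarith
  have hY0 : 0 < Y := by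
    have : 1 ≤ Y := by
      rw [hY, le_div_iff₀ hPB]
      have := (le_max_right _ _).trans hX
      linarith
    linarith
  obtain ⟨S, hS1, hS2⟩ := hS Y hY1
  -- choose the paths
  have hpath : ∀ e : Qd t c × Qd t c, ∃ (p : ℕ) (v : Qd t c) (n₂ : ℤ), e ∈ S →
      Pa q T P b B Y e p v n₂ := by
    intro e
    by_cases he : e ∈ S
    · obtain ⟨k1, k2⟩ := hS2 e he
      obtain ⟨p, v, n₂, hk⟩ := exists_Pa hd hq h4 hb hY0 hP₀' k1
        (Ri.mono k2 (by omega : P' ≤ P))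
      exact ⟨p, v, n₂, fun _ => hk⟩
    · exact ⟨0, 0, 0, fun h => absurd h he⟩
  choose pf vf nf hpvn using hpath
  have hSS : ∀ e ∈ S, Pr q e₂ T b B Y e ∧ Pa q T P b B Y e (pf e) (vf e) (nf e) :=
    fun e he => ⟨(hS2 e he).1, hpvn e he⟩
  set I := S.image (fun e => Th e₁ e (pf e) (vf e) (nf e)) with hI
  have hsub : I ⊆ (tri t c X X).filter (R4 q e₁ e₂) := by
    intro τ hτ
    obtain ⟨e, he, rfl⟩ := mem_image.1 hτ
    rw [mem_filter]
    exact Th_mem hd he₁ hb hT hY0 hP1 hB0.le hYX.le (hSS e he).1 (hSS e he).2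
  have hmain : S.card ≤ W * (I ×ˢ ((Finset.univ : Finset Bool) ×ˢ (range (P + 1) ×ˢ
      range (T + 1)))).card := by
    apply card_le_mul_card_image_of_maps_to
      (f := fun e => (Th e₁ e (pf e) (vf e) (nf e), decide (gl (vf e) = e₁), pf e,
        (dt e.1 e.2).toNat))
    · intro e he
      rw [mem_product, mem_product, mem_product, mem_range, mem_range]
      refine ⟨mem_image_of_mem _ he, mem_univ _, ?_, ?_⟩
      · have := (hSS e he).2.pP
        simp only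
        omega
      · have k1 := (hSS e he).1.dt0
        have k2 := (hSS e he).1.dt1
        simp only
        omega
    · rintro ⟨τ, β, p, D₁⟩ _
      exact hW Y S pf vf nf hY0 hSS τ β p D₁
  rw [card_product, card_product, card_product, card_range, card_range, Finset.card_univ,
    Fintype.card_bool] at hmain
  have h1 : (S.card : ℝ) ≤ I.card * K := by
    have h2 : (S.card : ℝ) ≤ W * (I.card * (2 * ((P + 1) * (T + 1)))) := by
      exact_mod_cast hmain
    refine h2.trans ?_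
    rw [hK]
    have : (0 : ℝ) ≤ I.card * (2 * ((P + 1) * (T + 1))) := by positivity
    nlinarith
  have h3 : (I.card : ℝ) ≤ (((tri t c X X).filter (R4 q e₁ e₂)).card : ℝ) := by
    exact_mod_cast card_le_card hsub
  have h5 : ε * Y ≤ (((tri t c X X).filter (R4 q e₁ e₂)).card : ℝ) * K :=
    hS1.trans (h1.trans (mul_le_mul_of_nonneg_right h3 hK0.le))
  have e6 : ε / ((P : ℝ) ^ 2 * B ^ 2 * K) * X = ε * Y / K := by
    rw [hY]
    field_simp
  rw [e6, div_le_iff₀ hK0]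
  convert h5

end Pool.Agent.L5helper2.TW
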