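import Pool.Agent.L5helper2.TW.Iota
import Pool.Agent.N864.RC.Pnt
import Pool.Agent.Y772.HG.Sgn
import Pool.Agent.Y772.HG.Tot
import Pool.Agent.Y772.TW.Pos
import Pool.Agent.N615.RC.RC6
import Pool.Agent.N615.RC.RC0

/-!
Project TW (helper2): a primitive element of the colour `1` with `λ(N u₀) = -1`, from the prime
number theorem in the ray classes of the real quadratic field.
-/

set_option autoImplicit false

namespace Pool.Agent.L5helper2.TW

open NumberField Filter Topology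
open Pool.Agent.W78.GR hiding GG PE S_MOM0 S_MOMP S_MOM S_CELLE S_DEC S_MR
open Pool.Agent.W84.G (Nz)
open Pool.Agent.W54.GR (exists_primpart)
open Pool.Agent.N615.RC (KK ph ph_coe inc absNorm_ph int_coords int_of_sq tend_cmp)
open Pool.Agent.Y773 (cc TPos)
open Pool.Agent.Y773.G (IsModChar)

section field

variable {t c : ℤ}

theorem fact_KK' (hns : ¬ IsSquare (t ^ 2 - 4 * c)) :
    Fact (∀ r : ℚ, r ^ 2 ≠ -(c : ℚ) + (t : ℚ) * r) := by
  refine ⟨fun r hr => ?_⟩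
  apply hns
  have h1 : (2 * r - t) ^ 2 = ((t ^ 2 - 4 * c : ℤ) : ℚ) := by
    push_cast
    linear_combination 4 * hr
  have h2 : IsSquare ((t ^ 2 - 4 * c : ℤ) : ℚ) := ⟨2 * r - t, by rw [← h1, pow_two]⟩
  exact Rat.isSquare_intCast_iff.1 h2

variable [hf : Fact (∀ r : ℚ, r ^ 2 ≠ -(c : ℚ) + (t : ℚ) * r)]

theorem mem_inc' (h : 4 * c < t ^ 2) {w : KK t c} (hw : IsIntegral ℤ w) :
    ∃ z, inc t c z = ((2 * (t ^ 2 - 4 * c).toNat : ℕ) : KK t c) * w := by
  obtain ⟨T, M, hT, hM⟩ := int_coords hw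
  set D : ℕ := (t ^ 2 - 4 * c).toNat with hD
  have hD' : (D : ℤ) = t ^ 2 - 4 * c := Int.toNat_of_nonneg (by linarith)
  have hDq : (D : ℚ) = t ^ 2 - 4 * c := by exact_mod_cast congrArg (Int.cast : ℤ → ℚ) hD'
  obtain ⟨n, hn⟩ := int_of_sq (D := D) (y := w.im) (m := T ^ 2 - 4 * M) (by
    push_cast
    rw [← hT, ← hM, hDq]
    ring)
  refine ⟨⟨D * T - t * n, 2 * n⟩, ?_⟩
  apply QuadraticAlgebra.ext
  · rw [QuadraticAlgebra.re_mul, QuadraticAlgebra.re_natCast, QuadraticAlgebra.im_natCast]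
    show ((D * T - t * n : ℤ) : ℚ) = _
    push_cast
    rw [← hT, ← hn]
    ring
  · rw [QuadraticAlgebra.im_mul, QuadraticAlgebra.re_natCast, QuadraticAlgebra.im_natCast]
    show ((2 * n : ℤ) : ℚ) = _
    push_cast
    rw [← hn]
    ring

/-- the two real embeddings -/
theorem emb (h : 4 * c < t ^ 2) : (∃ σ : KK t c →+* ℝ, ∀ z : Qd t c, σ (inc t c z) = s1 z) ∧
    (∃ σ : KK t c →+* ℝ, ∀ z : Qd t c, σ (inc t c z) = s2 z) := by
  have hR : (0 : ℝ) ≤ (t : ℝ) ^ 2 - 4 * c := by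
    have : (4 : ℝ) * c < t ^ 2 := by exact_mod_cast h
    linarith
  have hsq := Real.mul_self_sqrt hR
  set r := Real.sqrt ((t : ℝ) ^ 2 - 4 * c) with hr
  have key : ∀ u : ℝ, u * u = -(c : ℝ) + t * u → ∃ σ : KK t c →+* ℝ, ∀ z : Qd t c,
      σ (inc t c z) = z.re + z.im * u := by
    intro u hu
    have hu' : u * u = (-(c : ℚ)) • (1 : ℝ) + ((t : ℚ)) • u := by
      rw [hu, Rat.smul_def, Rat.smul_def]
      push_cast
      ring
    refine ⟨(QuadraticAlgebra.lift (R := ℚ) (a := -(c : ℚ)) (b := (t : ℚ)) ⟨u, hu'⟩ :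
      KK t c →ₐ[ℚ] ℝ).toRingHom, fun z => ?_⟩
    show (QuadraticAlgebra.lift (R := ℚ) (a := -(c : ℚ)) (b := (t : ℚ)) ⟨u, hu'⟩ :
      KK t c →ₐ[ℚ] ℝ) (inc t c z) = _
    rw [QuadraticAlgebra.lift_apply_apply]
    simp [inc, Rat.smul_def]
  constructor
  · obtain ⟨σ, hσ⟩ := key ((t + r) / 2) (by nlinarith)
    refine ⟨σ, fun z => ?_⟩
    rw [hσ]
    unfold s1
    rw [← hr]
    ring
  · obtain ⟨σ, hσ⟩ := key ((t - r) / 2) (by nlinarith)
    refine ⟨σ, fun z => ?_⟩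
    rw [hσ]
    unfold s2
    rw [← hr]
    ring

end field

/-! ### completely multiplicative functions -/

/-- the values at the primes -/
noncomputable def gp (D : ℤ) (Q : ℕ) (α : ℂ) (p : ℕ) : ℂ :=
  if p ∣ Q then 0 else if jacobiSym D p = -1 then α else -1

/-- the completely multiplicative function -/
noncomputable def hm (D : ℤ) (Q : ℕ) (α : ℂ) : ℕ →*₀ ℂ where
  toFun n := if n = 0 then 0 else n.factorization.prod fun p k => gp D Q α p ^ k
  map_zero' := by rw [if_pos rfl]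
  map_one' := by
    rw [if_neg one_ne_zero, Nat.factorization_one, Finsupp.prod_zero_index]
  map_mul' m n := by
    by_cases hm : m = 0
    · rw [hm, zero_mul, if_pos rfl, zero_mul]
    by_cases hn : n = 0
    · rw [hn, mul_zero, if_pos rfl, mul_zero]
    rw [if_neg hm, if_neg hn, if_neg (mul_ne_zero hm hn), Nat.factorization_mul hm hn,
      Finsupp.prod_add_index']
    · intro a; exact pow_zero _
    · intro a b₁ b₂; exact pow_add _ _ _

lemma hm_prime {D : ℤ} {Q : ℕ} {α : ℂ} {p : ℕ} (hp : p.Prime) : hm D Q α p = gp D Q α p := by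
  show (if p = 0 then 0 else p.factorization.prod fun p k => gp D Q α p ^ k) = _
  rw [if_neg hp.ne_zero, hp.factorization, Finsupp.prod_single_index, pow_one]
  exact pow_zero _

lemma hm_ne {D : ℤ} {Q : ℕ} {α : ℂ} (hα : α ≠ 0) {n : ℕ} (hn : n ≠ 0) :
    hm D Q α n ≠ 0 ↔ Nat.Coprime n Q := by
  induction n using Nat.recOnMul with
  | zero => exact absurd rfl hn
  | one => simp
  | prime p hp =>
    rw [hm_prime hp, hp.coprime_iff_not_dvd]
    unfold gp
    split_ifs with h1 h2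
    · simp [h1]
    · simp [h1, hα]
    · simp [h1]
  | mul a b ha hb =>
    have ha0 : a ≠ 0 := left_ne_zero_of_mul hn
    have hb0 : b ≠ 0 := right_ne_zero_of_mul hn
    rw [map_mul, mul_ne_zero_iff, ha ha0, hb hb0, Nat.coprime_mul_iff_left]

lemma hm_sq {D : ℤ} {Q : ℕ} {α : ℂ} {k : ℕ} (hα : α ^ 2 = (-1) ^ k) (h4 : 4 * D ∣ (Q : ℤ)) {n : ℕ}
    (hn : n ≠ 0) (hc : Nat.Coprime n Q) : hm D Q α n ^ 2 = ((jacobiSym D n : ℤ) : ℂ) ^ k := by
  induction n using Nat.recOnMul with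
  | zero => exact absurd rfl hn
  | one => simp
  | prime p hp =>
    rw [hm_prime hp]
    have h1 : ¬ p ∣ Q := hp.coprime_iff_not_dvd.1 hc
    have h2 : jacobiSym D p = 1 ∨ jacobiSym D p = -1 := by
      apply jacobiSym.eq_one_or_neg_one
      rw [← Int.isCoprime_iff_gcd_eq_one]
      exact ((Nat.isCoprime_iff_coprime.2 hc).of_isCoprime_of_dvd_right
        ((Dvd.intro_left 4 rfl).trans h4)).symm
    unfold gp
    rw [if_neg h1]
    rcases h2 with h2 | h2
    · rw [h2, if_neg (by norm_num)]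
      norm_num
    · rw [h2, if_pos rfl, hα]
      norm_num
  | mul a b ha hb =>
    have ha0 : a ≠ 0 := left_ne_zero_of_mul hn
    have hb0 : b ≠ 0 := right_ne_zero_of_mul hn
    rw [map_mul, mul_pow, ha ha0 (Nat.Coprime.coprime_mul_right hc),
      hb hb0 (Nat.Coprime.coprime_mul_left hc), jacobiSym.mul_right' _ ha0 hb0]
    push_cast
    rw [mul_pow]

lemma hm_spl {D : ℤ} {Q : ℕ} {α : ℂ} {n : ℕ} (hn : n ≠ 0) (hc : Nat.Coprime n Q)
    (hs : ∀ p : ℕ, p.Prime → p ∣ n → jacobiSym D p = 1) :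
    hm D Q α n = ((Pool.Agent.H376R2.MR.lam n : ℤ) : ℂ) := by
  induction n using Nat.recOnMul with
  | zero => exact absurd rfl hn
  | one =>
    rw [map_one]
    unfold Pool.Agent.H376R2.MR.lam
    simp
  | prime p hp =>
    have h1 : ¬ p ∣ Q := hp.coprime_iff_not_dvd.1 hc
    rw [hm_prime hp, lam_prime hp]
    unfold gp
    rw [if_neg h1, hs p hp dvd_rfl, if_neg (by norm_num)]
    norm_num
  | mul a b ha hb =>
    have ha0 : a ≠ 0 := left_ne_zero_of_mul hn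
    have hb0 : b ≠ 0 := right_ne_zero_of_mul hn
    rw [map_mul, ha ha0 (Nat.Coprime.coprime_mul_right hc) (fun p hp h => hs p hp (h.mul_right _)),
      hb hb0 (Nat.Coprime.coprime_mul_left hc) (fun p hp h => hs p hp (h.mul_left _)),
      lam_mul ha0 hb0]
    push_cast
    rfl

section main

variable {t c : ℤ} [hf : Fact (∀ r : ℚ, r ^ 2 ≠ -(c : ℚ) + (t : ℚ) * r)]

/-- a prime with an ideal of prime norm above it is split -/
lemma split_of {Q : ℕ} (h4 : 4 * (t ^ 2 - 4 * c) ∣ (Q : ℤ)) {p : ℕ} (hp : p.Prime)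
    (hpQ : ¬ p ∣ Q) {𝔭 : Ideal (𝓞 (KK t c))} (h : Ideal.absNorm 𝔭 = p) :
    jacobiSym (t ^ 2 - 4 * c) p = 1 := by
  haveI : Fact p.Prime := ⟨hp⟩
  have hcard : Nat.card (𝓞 (KK t c) ⧸ 𝔭) = p := by
    rw [← h, Ideal.absNorm_apply, Submodule.cardQuot_apply]
  have hne : (1 : 𝓞 (KK t c) ⧸ 𝔭) ≠ 0 := by
    intro h1
    have h2 : Subsingleton (𝓞 (KK t c) ⧸ 𝔭) := subsingleton_of_zero_eq_one h1.symm
    have h3 : Nat.card (𝓞 (KK t c) ⧸ 𝔭) ≤ 1 := by
      rw [Nat.card_of_subsingleton (0 : 𝓞 (KK t c) ⧸ 𝔭)]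
    rw [hcard] at h3
    exact absurd hp.one_lt (by omega)
  set om : Qd t c := ⟨0, 1⟩ with hom
  have hom2 : om * om = ((-c : ℤ) : Qd t c) + ((t : ℤ) : Qd t c) * om := by
    apply QuadraticAlgebra.ext
    · simp [hom]
    · simp [hom]
  set x : 𝓞 (KK t c) ⧸ 𝔭 := Ideal.Quotient.mk 𝔭 (ph t c om) with hx
  have hx2 : x * x = ((-c : ℤ) : 𝓞 (KK t c) ⧸ 𝔭) + ((t : ℤ) : 𝓞 (KK t c) ⧸ 𝔭) * x := by
    rw [hx, ← map_mul, ← map_mul, hom2, map_add, map_mul, map_intCast, map_intCast, map_add,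
      map_mul, map_intCast, map_intCast]
  obtain ⟨r, hr⟩ : x ∈ AddSubgroup.zmultiples (1 : 𝓞 (KK t c) ⧸ 𝔭) :=
    mem_zmultiples_of_prime_card hcard hne
  have hr' : ((r : ℤ) : 𝓞 (KK t c) ⧸ 𝔭) = x := by
    rw [← hr]
    simp
  have hroot : ((r ^ 2 - t * r + c : ℤ) : 𝓞 (KK t c) ⧸ 𝔭) = 0 := by
    push_cast
    rw [hr']
    push_cast at hx2
    linear_combination hx2
  have hp0 : ((p : ℤ) : 𝓞 (KK t c) ⧸ 𝔭) = 0 := by
    have h1 := Ideal.absNorm_mem 𝔭
    rw [h] at h1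
    have h2 := Ideal.Quotient.eq_zero_iff_mem.2 h1
    rw [map_natCast] at h2
    exact_mod_cast h2
  have hdvd : (p : ℤ) ∣ r ^ 2 - t * r + c := by
    by_contra hnd
    have h1 : IsCoprime (p : ℤ) (r ^ 2 - t * r + c) :=
      ((Nat.prime_iff_prime_int.1 hp).irreducible.coprime_iff_not_dvd).2 hnd
    obtain ⟨a, b, hab⟩ := h1
    apply hne
    have h2 := congrArg (Int.cast : ℤ → 𝓞 (KK t c) ⧸ 𝔭) hab
    rw [Int.cast_add, Int.cast_mul, Int.cast_mul, hp0, hroot, mul_zero, mul_zero, add_zero,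
      Int.cast_one] at h2
    exact h2.symm
  have hpD : ¬ (p : ℤ) ∣ t ^ 2 - 4 * c := by
    intro h1
    apply hpQ
    have : (p : ℤ) ∣ (Q : ℤ) := (h1.mul_left 4).trans h4
    exact_mod_cast this
  rw [← jacobiSym.legendreSym.to_jacobiSym]
  have hD0 : ((t ^ 2 - 4 * c : ℤ) : ZMod p) ≠ 0 := by
    rw [ne_eq, ZMod.intCast_zmod_eq_zero_iff_dvd]
    exact hpD
  rw [legendreSym.eq_one_iff p hD0]
  refine ⟨((2 * r - t : ℤ) : ZMod p), ?_⟩
  rw [← Int.cast_mul, ZMod.intCast_eq_intCast_iff_dvd_sub]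
  have e : (2 * r - t) * (2 * r - t) - (t ^ 2 - 4 * c) = 4 * (r ^ 2 - t * r + c) := by ring
  rw [e]
  exact hdvd.mul_left 4

/-- **signs**: `λ(N y) χ(y)^k` takes the value `-1` -/
theorem exists_neg (hd : 4 * c < t ^ 2) {q : ℕ} (hq : 1 ≤ q)
    (h4 : 4 * (t ^ 2 - 4 * c) ∣ (q : ℤ)) {k : ℕ} {α : ℂ} (hα : α ^ 2 = (-1) ^ k)
    (hα1 : ‖α‖ = 1) :
    ∃ y : Oq t c q, tp y ∧ prim y ∧ Nat.Coprime (nm y) q ∧
      gl y * co (t ^ 2 - 4 * c) q y ^ k = -1 := by
  classical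
  by_contra hcon
  push Not at hcon
  have L := lv (t := t) (c := c) hq h4
  have hcon' : ∀ y : Oq t c q, tp y → prim y → Nat.Coprime (nm y) q →
      gl y * co (t ^ 2 - 4 * c) q y ^ k = 1 := by
    intro y h1 h2 h3
    have h4' := hcon y h1 h2 h3
    have h5 : co (t ^ 2 - 4 * c) q y ^ k = 1 ∨ co (t ^ 2 - 4 * c) q y ^ k = -1 := by
      rcases L.co_eq h3 with h | h
      · rw [h, one_pow]; exact Or.inl rfl
      · rw [h]; exact neg_one_pow_eq_or ℤ k
    rcases gl_eq y with h6 | h6 <;> rcases h5 with h5 | h5 <;> rw [h6, h5] at h4' ⊢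
    · norm_num
    · exact absurd (by norm_num) h4'
    · exact absurd (by norm_num) h4'
    · norm_num
  have hα0 : α ≠ 0 := by
    intro h
    rw [h, norm_zero] at hα1
    norm_num at hα1
  set D : ℤ := t ^ 2 - 4 * c with hD
  have hDpos : 0 < D := by rw [hD]; linarith
  set f₀ : ℕ := 2 * D.toNat with hf₀
  have hDn : 0 < D.toNat := by rw [Int.lt_toNat]; exact_mod_cast hDpos
  set Q : ℕ := q * f₀ with hQ
  have hQ0 : Q ≠ 0 := by positivity
  have hQ2 : 2 ≤ Q := by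
    rw [hQ, hf₀]
    nlinarith
  have h4Q : 4 * D ∣ (Q : ℤ) := by
    rw [hQ]; push_cast
    exact h4.mul_right _
  set 𝔪 : Ideal (𝓞 (KK t c)) := Ideal.span {((Q : ℕ) : 𝓞 (KK t c))} with h𝔪
  set ψ : Ideal (𝓞 (KK t c)) →*₀ ℂ := (hm D Q α).comp Ideal.absNorm with hψ
  have ψap : ∀ 𝔞, ψ 𝔞 = hm D Q α (Ideal.absNorm 𝔞) := fun 𝔞 => rfl
  have hbot : 𝔪 ≠ ⊥ := by
    rw [h𝔪, ne_eq, Ideal.span_singleton_eq_bot]
    exact_mod_cast hQ0
  have hsupp : ∀ 𝔞 : Ideal (𝓞 (KK t c)), ψ 𝔞 ≠ 0 ↔ IsCoprime 𝔞 𝔪 := by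
    intro 𝔞
    rw [ψap, h𝔪, Pool.Agent.Y772.TW.coprime_q]
    by_cases h0 : Ideal.absNorm 𝔞 = 0
    · rw [h0, map_zero]
      constructor
      · intro h; exact absurd rfl h
      · intro h
        rw [Nat.coprime_zero_left] at h
        omega
    · exact hm_ne hα0 h0
  have htop : 𝔪 ≠ ⊤ := by
    intro h
    have h1 := (hsupp 𝔪).2 (by rw [h, ← Ideal.one_eq_top]; exact isCoprime_one_left)
    have h2 := (hsupp ⊤).2 (by rw [← Ideal.one_eq_top]; exact isCoprime_one_left)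
    -- `⊤` is coprime to itself, hence `Q` is prime to its norm
    have h3 : IsCoprime (𝔪 : Ideal (𝓞 (KK t c))) (Ideal.span {((Q : ℕ) : 𝓞 (KK t c))}) :=
      (hsupp 𝔪).1 h1
    rw [Pool.Agent.Y772.TW.coprime_q] at h3
    have h5 : Ideal.absNorm 𝔪 = Q ^ 2 := by
      rw [h𝔪, Ideal.absNorm_span_singleton]
      have h4 : ((Q : ℕ) : 𝓞 (KK t c)) = algebraMap ℤ (𝓞 (KK t c)) ((Q : ℕ) : ℤ) := by simp
      rw [h4, Algebra.norm_algebraMap, RingOfIntegers.rank, Pool.Agent.N615.RC.finrank_KK,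
        Int.natAbs_pow, Int.natAbs_natCast]
    rw [h5] at h3
    have h6 := Nat.Coprime.coprime_dvd_left (dvd_pow_self Q two_ne_zero) h3
    rw [Nat.coprime_self] at h6
    omega
  obtain ⟨⟨σ₁, hσ₁⟩, ⟨σ₂, hσ₂⟩⟩ := emb (t := t) (c := c) hd
  have hray : ∀ x : 𝓞 (KK t c), x ≠ 0 → x - 1 ∈ 𝔪 → TPos (KK t c) x →
      ψ (Ideal.span {x}) = 1 := by
    intro x hx0 hx1 hxp
    obtain ⟨w, hw⟩ := Ideal.mem_span_singleton.1 hx1
    obtain ⟨z₁, hz₁⟩ := mem_inc' hd w.2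
    have hz₁' : ph t c z₁ = (f₀ : 𝓞 (KK t c)) * w := by
      apply RingOfIntegers.ext
      rw [ph_coe, hz₁, hf₀]
      push_cast
      rfl
    set z' : Oq t c q := ⟨1 + q * z₁.re, z₁.im⟩ with hz'
    have hio : io z' = 1 + ((q : ℕ) : Qd t c) * z₁ := by
      apply QuadraticAlgebra.ext
      · rw [io_re, QuadraticAlgebra.re_add, QuadraticAlgebra.re_mul, QuadraticAlgebra.re_one,
          QuadraticAlgebra.re_natCast, QuadraticAlgebra.im_natCast]
        ring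
      · rw [io_im, QuadraticAlgebra.im_add, QuadraticAlgebra.im_mul, QuadraticAlgebra.im_one,
          QuadraticAlgebra.re_natCast, QuadraticAlgebra.im_natCast]
        ring
    have hx : ph t c (io z') = x := by
      rw [hio, map_add, map_one, map_mul, map_natCast, hz₁']
      have : x = 1 + (x - 1) := by ring
      rw [this, hw, hQ]
      push_cast
      ring
    have hN : Ideal.absNorm (Ideal.span {x}) = nm z' := by
      rw [← hx, absNorm_ph, io_nm]
    have htp : tp z' := by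
      rw [← io_tp]
      have h1 : (x : KK t c) = inc t c (io z') := by rw [← hx, ph_coe]
      constructor
      · have := hxp σ₁
        rw [h1, hσ₁] at this
        exact this
      · have := hxp σ₂
        rw [h1, hσ₂] at this
        exact this
    have hcop : Nat.Coprime (nm z') Q := by
      have h1 : IsCoprime (Ideal.span {x}) 𝔪 := by
        rw [Ideal.isCoprime_iff_exists]
        exact ⟨x, Ideal.mem_span_singleton_self x, -(x - 1), neg_mem hx1, by ring⟩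
      rw [h𝔪, Pool.Agent.Y772.TW.coprime_q, hN] at h1
      exact h1
    obtain ⟨y, n, hn, hy, hny⟩ := exists_primpart (tp_ne_zero htp)
    have hnR : (0 : ℝ) < n := by exact_mod_cast hn
    have hdq := disc_q (t := t) (c := c) hq hd
    have hty : tp y := by
      rw [hny] at htp
      obtain ⟨g1, g2⟩ := htp
      rw [s1_mul hdq, s1_natCast] at g1
      rw [s2_mul hdq, s2_natCast] at g2
      exact ⟨(mul_pos_iff_of_pos_left hnR).1 g1, (mul_pos_iff_of_pos_left hnR).1 g2⟩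
    have hnm : nm z' = n ^ 2 * nm y := by rw [hny, nm_mul, nm_natCast]
    have hcn : Nat.Coprime n Q := by
      refine Nat.Coprime.coprime_dvd_left ?_ hcop
      rw [hnm]
      exact (dvd_pow_self n two_ne_zero).mul_right _
    have hcy : Nat.Coprime (nm y) Q := by
      refine Nat.Coprime.coprime_dvd_left ?_ hcop
      rw [hnm]
      exact Dvd.intro_left _ rfl
    have hcnq : Nat.Coprime n q := Nat.Coprime.coprime_mul_right_right (hQ ▸ hcn)
    have hcyq : Nat.Coprime (nm y) q := Nat.Coprime.coprime_mul_right_right (hQ ▸ hcy)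
    have hcoz : co D q z' = 1 := by
      unfold co
      rw [← chv_one hq h4]
      apply chv_congr hq h4
      rw [hz']
      exact ⟨z₁.re, by simp⟩
    have hcoy : jacobiSym D n * co D q y = 1 := by
      rw [hny, L.co_mul, L.co_nat hcnq] at hcoz
      exact hcoz
    have hcoy' : co D q y = jacobiSym D n := by
      rcases L.co_eq hcyq with h | h <;> rw [h] at hcoy ⊢ <;> linarith
    rw [ψap, hN, hnm, map_mul, map_pow, hm_sq hα h4Q hn.ne' hcn,
      hm_spl (nm_pos hdq hty).ne' hcy (fun p hp hpy => L.spl hy hcyq hp hpy), ← hcoy']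
    have := hcon' y hty hy hcyq
    unfold gl at this
    have h2 := congrArg (Int.cast : ℤ → ℂ) this
    push_cast at h2
    rw [mul_comm]
    exact h2
  obtain ⟨e, he1, he2, he3⟩ := Pool.Agent.Y772.G.t_sig (KK t c) 𝔪 ψ hbot hray
  have hmod : IsModChar 𝔪 e ψ := ⟨hbot, htop, he1, he2, hsupp, he3⟩
  have hab := Pool.Agent.Y772.G.mod_ab hmod
  obtain ⟨δ, hδ, -, -, hδt⟩ := Pool.Agent.N864.RC.rc1 (KK t c) 𝔪 e ψ hmod
  obtain ⟨δ', -, -, hδ'1, hδ't⟩ := Pool.Agent.N864.RC.rc1 (KK t c) 𝔪 _ _ hab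
  have hδ'2 : δ' = 1 := by
    apply hδ'1
    intro 𝔞 ha
    show ψ 𝔞 * (starRingEnd ℂ) (ψ 𝔞) = 1
    have h1 := Pool.Agent.Y772.G.mc_norm hmod ha
    rw [Complex.mul_conj, Complex.normSq_eq_norm_sq, h1]
    norm_num
  have hsum := hδt.add hδ't
  have hzero : Tendsto (fun x : ℝ => (∑ n ∈ Finset.Icc 1 ⌊x⌋₊,
      ((ArithmeticFunction.vonMangoldt n : ℂ) * cc ψ n +
        (ArithmeticFunction.vonMangoldt n : ℂ) * cc (Pool.Agent.Y772.NV.ab ψ) n)) / (x : ℂ))
      atTop (𝓝 0) := by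
    refine tend_cmp hQ0 (C := 2 * Module.finrank ℚ (KK t c)) (by positivity) ?_ ?_
    · intro p hp hpQ
      have h1 : cc ψ p + cc (Pool.Agent.Y772.NV.ab ψ) p = 0 := by
        rw [Pool.Agent.Y772.DK.cc_prime _ hp, Pool.Agent.Y772.DK.cc_prime _ hp]
        have hfin : {𝔭 : Ideal (𝓞 (KK t c)) | Ideal.absNorm 𝔭 = p}.Finite :=
          Ideal.finite_setOfPred_absNorm_eq p
        rw [finsum_mem_eq_finite_toFinset_sum _ hfin, finsum_mem_eq_finite_toFinset_sum _ hfin,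
          ← Finset.sum_add_distrib]
        apply Finset.sum_eq_zero
        intro 𝔭 h𝔭
        have h𝔭' : Ideal.absNorm 𝔭 = p := by simpa using h𝔭
        have h2 : ψ 𝔭 = -1 := by
          rw [ψap, h𝔭', hm_prime hp]
          unfold gp
          rw [if_neg hpQ]
          have h3 := split_of (t := t) (c := c) h4Q hp hpQ h𝔭'
          rw [← hD] at h3
          rw [h3, if_neg (by norm_num)]
        show ψ 𝔭 + ψ 𝔭 * (starRingEnd ℂ) (ψ 𝔭) = 0
        rw [h2]
        simp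
      rw [← mul_add, h1, mul_zero]
    · intro n
      have h1 := Pool.Agent.Y772.DK.norm_cc_le ψ (fun 𝔞 => Pool.Agent.Y772.G.mc_le hmod 𝔞) n
      have h2 := Pool.Agent.Y772.DK.norm_cc_le _ (fun 𝔞 => Pool.Agent.Y772.G.mc_le hab 𝔞) n
      have h3 : (0 : ℝ) ≤ ArithmeticFunction.vonMangoldt n :=
        ArithmeticFunction.vonMangoldt_nonneg
      rw [← mul_add, norm_mul, Complex.norm_real, Real.norm_of_nonneg h3, mul_comm]
      apply mul_le_mul_of_nonneg_right _ h3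
      refine (norm_add_le _ _).trans ?_
      linarith
  have hlim : ((δ : ℂ) + (δ' : ℂ)) = 0 := by
    refine tendsto_nhds_unique (hsum.congr fun x => ?_) hzero
    rw [Finset.sum_add_distrib, add_div]
  rw [hδ'2] at hlim
  rcases hδ with h | h <;> rw [h] at hlim <;> norm_num at hlim

end main

/-- **the element `u₀`** -/
theorem u0_col {t c : ℤ} (hd : 4 * c < t ^ 2) (hns : ¬ IsSquare (t ^ 2 - 4 * c)) {q : ℕ}
    (hq : 1 ≤ q) (h4 : 4 * (t ^ 2 - 4 * c) ∣ (q : ℤ)) :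
    ∃ u : Oq t c q, tp u ∧ prim u ∧ gl u = -1 ∧ co (t ^ 2 - 4 * c) q u = 1 := by
  haveI := fact_KK' hns
  have L := lv (t := t) (c := c) hq h4
  have hdq := disc_q (t := t) (c := c) hq hd
  obtain ⟨y₁, t₁, p₁, c₁, g₁⟩ := exists_neg (t := t) (c := c) hd hq h4 (k := 0) (α := -1)
    (by norm_num) (by norm_num)
  obtain ⟨y₂, t₂, p₂, c₂, g₂⟩ := exists_neg (t := t) (c := c) hd hq h4 (k := 1) (α := Complex.I)
    (by rw [Complex.I_sq]; norm_num) (by simp)
  rw [pow_zero, mul_one] at g₁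
  rw [pow_one] at g₂
  rcases L.co_eq c₁ with h1 | h1
  · exact ⟨y₁, t₁, p₁, g₁, h1⟩
  rcases gl_eq y₂ with h2 | h2
  swap
  · refine ⟨y₂, t₂, p₂, h2, ?_⟩
    rw [h2] at g₂
    linarith
  have h3 : co (t ^ 2 - 4 * c) q y₂ = -1 := by
    rw [h2, one_mul] at g₂
    exact g₂
  have t₃ := tp_mul hdq t₁ t₂
  obtain ⟨y, n, hn, hy, hny⟩ := exists_primpart (tp_ne_zero t₃)
  have hnR : (0 : ℝ) < n := by exact_mod_cast hn
  have hty : tp y := by
    rw [hny] at t₃
    obtain ⟨k1, k2⟩ := t₃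
    rw [s1_mul hdq, s1_natCast] at k1
    rw [s2_mul hdq, s2_natCast] at k2
    exact ⟨(mul_pos_iff_of_pos_left hnR).1 k1, (mul_pos_iff_of_pos_left hnR).1 k2⟩
  refine ⟨y, hty, hy, ?_, ?_⟩
  · have h4 : gl (y₁ * y₂) = -1 := by
      unfold gl
      rw [nm_mul, lam_mul (nm_pos hdq t₁).ne' (nm_pos hdq t₂).ne']
      have := congrArg₂ (· * ·) g₁ h2
      unfold gl at this
      simpa using this
    rw [hny] at h4
    unfold gl at h4 ⊢
    rw [nm_mul, nm_natCast, lam_sq_mul] at h4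
    · exact h4
    all_goals first | exact hn.ne' | exact (nm_pos hdq hty).ne'
  · have h5 : n ∣ nm y₁ := content_dvd hdq t₁ p₂ hny
    have h6 : Nat.Coprime n q := Nat.Coprime.coprime_dvd_left h5 c₁
    have h7 : jacobiSym (t ^ 2 - 4 * c) n = 1 :=
      jac_one_of hn.ne' fun p hp hpn => L.spl p₁ c₁ hp (hpn.trans h5)
    have h8 : co (t ^ 2 - 4 * c) q (y₁ * y₂) =
        co (t ^ 2 - 4 * c) q (((n : ℕ) : Oq t c q) * y) := by rw [hny]
    rw [L.co_mul, L.co_mul, L.co_nat h6, h7, one_mul, h1, h3] at h8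
    rw [← h8]
    norm_num

end Pool.Agent.L5helper2.TW
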